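import Pool.Agent.Q283.NJ.G1
import Pool.Agent.Q283.Q3.Bin

/-! The number of the events of a family with nearly independent patterns -/

set_option autoImplicit false
set_option linter.unusedSectionVars false

open scoped Classical
open Finset Filter

namespace Q283.NJ

/-- the weights of the patterns -/
noncomputable def wt (p : ℝ) {n : ℕ} (A : Finset (Fin n)) : ℝ := p ^ A.card * (1 - p) ^ (n - A.card)

/-- **The number of the events.** -/
theorem pat_fin {E : Type} (D : Finset E) (n : ℕ) (P : Fin n → E → Prop)
    {p ε : ℝ} (h : ∀ A : Finset (Fin n),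
      |((D.filter fun e => ∀ k, (P k e ↔ k ∈ A)).card : ℝ) / D.card - wt p A| ≤ ε) (J : ℕ → Prop) :
    |((D.filter fun e => J (univ.filter fun k => P k e).card).card : ℝ) / D.card -
      ∑ A : Finset (Fin n), (if J A.card then wt p A else 0)| ≤ 2 ^ n * ε := by
  have h1 : ((D.filter fun e => J (univ.filter fun k => P k e).card).card : ℝ) / D.card =
      ∑ A : Finset (Fin n), if J A.card then
        ((D.filter fun e => ∀ k, (P k e ↔ k ∈ A)).card : ℝ) / D.card else 0 := by
    rw [← sum_filter, ← sum_div, ← Nat.cast_sum]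
    congr 2
    rw [← card_biUnion]
    · congr 1
      ext e
      rw [mem_biUnion, mem_filter]
      constructor
      · rintro ⟨h2, h3⟩
        exact ⟨_, mem_filter.2 ⟨mem_univ _, h3⟩, mem_filter.2 ⟨h2, fun k => by
          rw [mem_filter, and_iff_right (mem_univ k)]⟩⟩
      · rintro ⟨A, hA, hD⟩
        rw [mem_filter] at hA hD
        refine ⟨hD.1, ?_⟩
        have e1 : (univ.filter fun k => P k e) = A := by
          ext k
          rw [mem_filter, and_iff_right (mem_univ k)]
          exact hD.2 k
        rw [e1]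
        exact hA.2
    · intro A _ B _ hAB
      rw [Function.onFun, disjoint_left]
      intro e hA hB
      rw [mem_filter] at hA hB
      apply hAB
      ext k
      exact (hA.2 k).symm.trans (hB.2 k)
  rw [h1, ← sum_sub_distrib]
  refine (abs_sum_le_sum_abs _ _).trans ?_
  have hε : 0 ≤ ε := (abs_nonneg _).trans (h ∅)
  have h2 : ∀ A ∈ (univ : Finset (Finset (Fin n))), |(if J A.card then
        ((D.filter fun e => ∀ k, (P k e ↔ k ∈ A)).card : ℝ) / D.card else 0) -
        (if J A.card then wt p A else 0)| ≤ ε := by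
    intro A _
    split_ifs
    · exact h A
    · rw [sub_zero, abs_zero]
      exact hε
  refine (sum_le_sum h2).trans (le_of_eq ?_)
  rw [sum_const, card_univ, Fintype.card_finset, Fintype.card_fin, nsmul_eq_mul]
  push_cast
  rfl

/-- the binomial weights -/
theorem wt_binom (p : ℝ) (n j : ℕ) :
    ∑ A : Finset (Fin n), (if A.card = j then wt p A else 0) =
      n.choose j * p ^ j * (1 - p) ^ (n - j) := by
  unfold wt
  rw [← sum_filter]
  have e1 : (univ : Finset (Finset (Fin n))).filter (fun A => A.card = j) =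
      powersetCard j (univ : Finset (Fin n)) := by
    ext A
    rw [mem_filter, mem_powersetCard]
    exact ⟨fun h => ⟨subset_univ _, h.2⟩, fun h => ⟨mem_univ _, h.2⟩⟩
  rw [e1, sum_congr rfl (g := fun _ => p ^ j * (1 - p) ^ (n - j)) fun A hA => by
    rw [(mem_powersetCard.1 hA).2], sum_const, card_powersetCard, card_univ, Fintype.card_fin,
    nsmul_eq_mul, mul_assoc]

/-- the weights of the large deviations -/
theorem wt_tail {p : ℝ} (hp0 : 0 ≤ p) (hp1 : p ≤ 1) {n : ℕ} (hn : 0 < n) {ε : ℝ} (hε : 0 < ε) :
    ∑ A : Finset (Fin n), (if ε ≤ |(A.card : ℝ) / n - p| then wt p A else 0) ≤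
      2 * Real.exp (-(ε ^ 2 * n / 4)) := by
  unfold wt
  have hn' : (0 : ℝ) < n := by exact_mod_cast hn
  have hw : ∀ A : Finset (Fin n), 0 ≤ p ^ A.card * (1 - p) ^ (n - A.card) := fun A =>
    mul_nonneg (pow_nonneg hp0 _) (pow_nonneg (by linarith) _)
  by_cases hε1 : ε ≤ 1
  · have h1 := Q283.Bin.tail hp0 hp1 n hε hε1 1 (Or.inl rfl)
    have h2 := Q283.Bin.tail hp0 hp1 n hε hε1 (-1) (Or.inr rfl)
    refine le_trans ?_ (le_of_le_of_eq (add_le_add h1 h2) (two_mul _).symm)
    rw [← sum_add_distrib]
    refine sum_le_sum fun A _ => ?_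
    have hA := hw A
    by_cases hJ : ε ≤ |(A.card : ℝ) / n - p|
    · rw [if_pos hJ]
      rcases le_abs.1 hJ with h3 | h3
      · have h4 : ε * n ≤ 1 * (A.card - p * n) := by
          have h5 := mul_le_mul_of_nonneg_right h3 hn'.le
          rw [sub_mul, div_mul_cancel₀ _ hn'.ne'] at h5
          linarith
        rw [if_pos h4]
        split_ifs <;> linarith
      · have h4 : ε * n ≤ -1 * (A.card - p * n) := by
          have h5 := mul_le_mul_of_nonneg_right h3 hn'.le
          rw [neg_mul, sub_mul, div_mul_cancel₀ _ hn'.ne'] at h5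
          linarith
        rw [if_pos h4]
        split_ifs <;> linarith
    · rw [if_neg hJ]
      split_ifs <;> linarith
  · have h3 : ∀ A : Finset (Fin n), ¬ ε ≤ |(A.card : ℝ) / n - p| := by
      intro A hA
      have h4 : (A.card : ℝ) / n ≤ 1 := by
        rw [div_le_one hn']
        have := card_le_univ A
        rw [Fintype.card_fin] at this
        exact_mod_cast this
      have h5 : 0 ≤ (A.card : ℝ) / n := by positivity
      have h8 : |(A.card : ℝ) / n - p| ≤ 1 := abs_le.2 ⟨by linarith, by linarith⟩
      exact hε1 (hA.trans h8)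
    rw [sum_eq_zero fun A _ => if_neg (h3 A)]
    positivity

end Q283.NJ
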