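import Pool.Agent.Q283.ND.Ld

/-! Several bases: the joint conditional law -/

set_option autoImplicit false
set_option linter.unusedSectionVars false

open scoped Classical

namespace Q283.NJ

open Finset Module
open Q283.ND (ro ro_congr Sy mem_Sy mx sp mem_sp rs Kr mem_Kr nm cb nm_eq Fu Fu_apply Fx Fx_apply fib nc
  fcc ncI ro_mx)

section cj
variable {I κ : Type} [Fintype I] [Fintype κ] {J : Finset I} {e : I → ZMod 3}
  {f : κ → I → ZMod 3} {ks : κ → I} {G : I → I → ZMod 3} {C : Finset I}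

/-- several systems with the same exponents on `J` -/
structure Js (J : Finset I) (e : I → ZMod 3) (f : κ → I → ZMod 3) (ks : κ → I) : Prop where
  ksJ : ∀ k, ks k ∉ J
  fks : ∀ k, f k (ks k) ≠ 0
  fJ : ∀ k, ∀ j ∈ J, f k j = e j
  ksl : ∀ k l, ks l ≠ ks k → f k (ks l) = 0

theorem sp_eq (h : Js J e f ks) (k : κ) : sp J (f k) = sp J e := by
  ext j
  rw [mem_sp, mem_sp]
  exact and_congr_right fun hj => by rw [h.fJ k j hj]

/-- joint injectivity -/
def JI (J : Finset I) (e : I → ZMod 3) (f : κ → I → ZMod 3) (ks : κ → I) (G : I → I → ZMod 3)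
    (C : Finset I) (α : I → I → ZMod 3) : Prop :=
  ∀ x : κ → I → ZMod 3, (∀ k, x k ∈ Sy (f k) (ks k) C (mx J G α)) →
    (∃ t, ∀ j ∈ sp J e, ∑ k, x k j = t) → ∀ k, x k = 0

theorem FuJ_surj (h : Js J e f ks) (hC : C ⊆ sp J e) (V : κ → Submodule (ZMod 3) (I → ZMod 3))
    (hV : ∀ x : κ → I → ZMod 3, (∀ k, x k ∈ V k) → (∃ t, ∀ j ∈ sp J e, ∑ k, x k j = t) →
      ∀ k, x k = 0) (g : ∀ k, C → Module.Dual (ZMod 3) (V k)) :
    ∃ β : I → I → ZMod 3, ∀ k, Fu J (f k) (V k) C β = g k := by
  have h1 : ∀ i : C, ∃ c : I → ZMod 3, ∀ (k : κ) (x : V k), g k i x =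
      ∑ j, c j * (if j ∈ J then f k i * f k j * ((x : I → ZMod 3) j - (x : I → ZMod 3) i)
        else 0) := by
    intro i
    have hiJ : (i : I) ∈ J := (mem_sp.1 (hC i.2)).1
    have hei : e i ≠ 0 := (mem_sp.1 (hC i.2)).2
    obtain ⟨T, hT⟩ : ∃ T : (∀ k, V k) →ₗ[ZMod 3] (I → ZMod 3), ∀ x j, T x j =
        ∑ k, if j ∈ J then f k i * f k j * ((x k : I → ZMod 3) j - (x k : I → ZMod 3) i)
          else 0 := by
      refine ⟨{ toFun := fun x j =>
                  ∑ k, if j ∈ J then f k i * f k j * ((x k : I → ZMod 3) j - (x k : I → ZMod 3) i)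
                    else 0
                map_add' := fun x y => ?_
                map_smul' := fun a x => ?_ }, fun _ _ => rfl⟩
      · funext j
        rw [Pi.add_apply, ← sum_add_distrib]
        refine sum_congr rfl fun k _ => ?_
        split_ifs
        · simp only [Pi.add_apply, Submodule.coe_add]; ring
        · rw [add_zero]
      · funext j
        rw [RingHom.id_apply, Pi.smul_apply, smul_eq_mul, mul_sum]
        refine sum_congr rfl fun k _ => ?_
        split_ifs
        · simp only [Pi.smul_apply, Submodule.coe_smul, smul_eq_mul]; ring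
        · rw [mul_zero]
    have hinj : Function.Injective T := by
      rw [← LinearMap.ker_eq_bot, LinearMap.ker_eq_bot']
      intro x hx
      have h2 := hV (fun k => (x k : I → ZMod 3)) (fun k => (x k).2)
        ⟨∑ k, (x k : I → ZMod 3) i, fun j hj => ?_⟩
      · funext k
        exact Subtype.ext (h2 k)
      · have h3 := congrFun hx j
        rw [hT, Pi.zero_apply] at h3
        have h4 : ∑ k, (if j ∈ J then f k i * f k j * ((x k : I → ZMod 3) j - (x k : I → ZMod 3) i)
            else 0) = (e i * e j) * (∑ k, (x k : I → ZMod 3) j - ∑ k, (x k : I → ZMod 3) i) := by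
          rw [← sum_sub_distrib, mul_sum]
          refine sum_congr rfl fun k _ => ?_
          rw [if_pos (mem_sp.1 hj).1, h.fJ k i hiJ, h.fJ k j (mem_sp.1 hj).1]
        rw [h4] at h3
        exact sub_eq_zero.1 ((mul_eq_zero.1 h3).resolve_left (mul_ne_zero hei (mem_sp.1 hj).2))
    obtain ⟨γ, hγ⟩ : ∃ γ : Module.Dual (ZMod 3) (∀ k, V k), ∀ x, γ x = ∑ k, g k i (x k) := by
      refine ⟨∑ k, (g k i).comp (LinearMap.proj k), fun x => ?_⟩
      rw [LinearMap.sum_apply]
      rfl
    obtain ⟨φ, hφ⟩ := LinearMap.dualMap_surjective_of_injective hinj γ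
    refine ⟨fun j => φ (Pi.single j 1), fun k x => ?_⟩
    have h2 : g k i x = γ (Pi.single k x) := by
      rw [hγ, sum_eq_single k]
      · rw [Pi.single_eq_same]
      · intro l _ hl
        rw [Pi.single_eq_of_ne hl, map_zero]
      · intro hk
        exact absurd (mem_univ _) hk
    rw [h2, ← hφ]
    show φ (T (Pi.single k x)) = _
    rw [LinearMap.pi_apply_eq_sum_univ φ (T (Pi.single k x))]
    refine sum_congr rfl fun j _ => ?_
    rw [smul_eq_mul, mul_comm, hT, sum_eq_single k]
    · rw [Pi.single_eq_same]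
      congr 2
      funext l
      rw [Pi.single_apply]
      by_cases hl : j = l
      · rw [if_pos hl, if_pos hl.symm]
      · rw [if_neg hl, if_neg (Ne.symm hl)]
    · intro l _ hl
      rw [Pi.single_eq_of_ne hl]
      split_ifs
      · simp
      · rfl
    · intro hk
      exact absurd (mem_univ _) hk
  choose c hc using h1
  refine ⟨fun i j => if h : i ∈ C then c ⟨i, h⟩ j else 0, fun k => ?_⟩
  funext i
  refine LinearMap.ext fun x => ?_
  rw [Fu_apply, hc i k x]
  refine sum_congr rfl fun j _ => ?_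
  rw [dif_pos i.2]
  split_ifs
  · ring
  · rw [mul_zero]

/-- the corank of one system with resampled rows -/
theorem co_Kr (h : Js J e f ks) (hC : C ⊆ sp J e) (k : κ) {α : I → I → ZMod 3}
    {V : Submodule (ZMod 3) (I → ZMod 3)} (hV : V = Sy (f k) (ks k) C (mx J G α))
    (β : I → I → ZMod 3) : finrank (ZMod 3) (Sy (f k) (ks k) ∅ (mx J G (rs C α β))) =
      finrank (ZMod 3) (Kr (Fx J (f k) G V C + Fu J (f k) V C β)) := by
  have hksC : ks k ∉ C := fun h' => h.ksJ k (mem_sp.1 (hC h')).1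
  have h2 : (Kr (Fx J (f k) G V C + Fu J (f k) V C β)).map V.subtype =
      Sy (f k) (ks k) ∅ (mx J G (rs C α β)) := by
    ext x
    rw [Submodule.mem_map, mem_Sy]
    have hrow : ∀ i ∈ C, ro (f k) (mx J G (rs C α β)) i x =
        (∑ j, if j ∈ J then f k i * f k j * β i j * (x j - x i) else 0) +
        ∑ j, if j ∈ J then 0 else f k i * f k j * G i j * (x j - x i) := by
      intro i hi
      rw [ro_mx (mem_sp.1 (hC hi)).1]
      unfold rs
      rw [if_pos hi]
    have hrow' : ∀ i, i ∉ C → ro (f k) (mx J G (rs C α β)) i x = ro (f k) (mx J G α) i x := by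
      intro i hi
      refine ro_congr x fun _ => ?_
      funext j
      unfold mx rs
      rw [if_neg hi]
    constructor
    · rintro ⟨y, hy, rfl⟩
      have hyV : (y : I → ZMod 3) ∈ Sy (f k) (ks k) C (mx J G α) := by rw [← hV]; exact y.2
      rw [mem_Sy] at hyV
      refine ⟨hyV.1, hyV.2.1, fun i hi _ => ?_⟩
      by_cases hiC : i ∈ C
      · have h3 := hy ⟨i, hiC⟩
        rw [hrow i hiC, add_comm]
        exact h3
      · rw [hrow' i hiC]
        exact hyV.2.2 i hi hiC
    · rintro ⟨g1, g2, g3⟩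
      have hxV : x ∈ V := by
        rw [hV, mem_Sy]
        refine ⟨g1, g2, fun i hi hiC => ?_⟩
        rw [← hrow' i hiC]
        exact g3 i hi (notMem_empty _)
      refine ⟨⟨x, hxV⟩, fun i => ?_, rfl⟩
      have h3 := g3 i (fun h => hksC (h ▸ i.2)) (notMem_empty _)
      rw [hrow i i.2, add_comm] at h3
      exact h3
  rw [← h2]
  exact ((Submodule.equivMapOfInjective V.subtype V.injective_subtype _).finrank_eq).symm

/-- **The joint conditional law.** -/
theorem condJ (h : Js J e f ks) (hC : C ⊆ sp J e) {α : I → I → ZMod 3}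
    (hα : ∀ k, finrank (ZMod 3) (Sy (f k) (ks k) C (mx J G α)) = C.card)
    (hJI : JI J e f ks G C α) (b : κ → ℕ) :
    ((univ.filter fun β : I → I → ZMod 3 => ∀ k,
      finrank (ZMod 3) (Sy (f k) (ks k) ∅ (mx J G (rs C α β))) = b k).card : ℝ) =
      Fintype.card (I → I → ZMod 3) * ∏ k, cb C.card (b k) := by
  obtain ⟨V, hV⟩ : ∃ V : κ → Submodule (ZMod 3) (I → ZMod 3),
    V = fun k => Sy (f k) (ks k) C (mx J G α) := ⟨_, rfl⟩
  have hVk : ∀ k, V k = Sy (f k) (ks k) C (mx J G α) := fun k => by rw [hV]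
  have hα' : ∀ k, finrank (ZMod 3) (V k) = C.card := fun k => by rw [hVk]; exact hα k
  have hsur : Function.Surjective (AddMonoidHom.pi fun k => Fu J (f k) (V k) C) := by
    intro g
    obtain ⟨β, hβ⟩ := FuJ_surj h hC V (fun x hx ht => hJI x (fun k => by
      rw [← hVk]; exact hx k) ht) g
    exact ⟨β, funext hβ⟩
  have hfin : ∀ k, Finite (Module.Dual (ZMod 3) (V k)) := fun k => Module.finite_of_finite (ZMod 3)
  have h2 := fib (AddMonoidHom.pi fun k => Fu J (f k) (V k) C) hsur
    (fun g => ∀ k, finrank (ZMod 3) (Kr (Fx J (f k) G (V k) C + g k)) = b k)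
  have h3 : Nat.card {g : ∀ k, C → Module.Dual (ZMod 3) (V k) //
      ∀ k, finrank (ZMod 3) (Kr (Fx J (f k) G (V k) C + g k)) = b k} = ∏ k, nm C.card (b k) := by
    rw [Nat.card_congr (Equiv.subtypePiEquivPi (p := fun k g =>
      finrank (ZMod 3) (Kr (Fx J (f k) G (V k) C + g)) = b k)), Nat.card_pi]
    refine prod_congr rfl fun k _ => ?_
    rw [← nm_eq (V := V k) (K := C) (hα' k) (Fintype.card_coe C) (b k)]
    exact Nat.card_congr (Equiv.subtypeEquiv (Equiv.addLeft (Fx J (f k) G (V k) C)) fun g => Iff.rfl)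
  have h4 : Nat.card (∀ k, C → Module.Dual (ZMod 3) (V k)) = ∏ _k : κ, 3 ^ (C.card * C.card) := by
    rw [Nat.card_pi]
    refine prod_congr rfl fun k _ => ?_
    rw [Nat.card_fun, Nat.card_eq_fintype_card (α := C), Fintype.card_coe,
      Module.natCard_eq_pow_finrank (K := ZMod 3), Nat.card_zmod, Subspace.dual_finrank_eq, hα' k,
      ← pow_mul]
  rw [h3, h4, Nat.card_eq_fintype_card (α := I → I → ZMod 3)] at h2
  have e1 : (univ.filter fun β : I → I → ZMod 3 => ∀ k,
      finrank (ZMod 3) (Sy (f k) (ks k) ∅ (mx J G (rs C α β))) = b k).card =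
      Nat.card {β : I → I → ZMod 3 // ∀ k, finrank (ZMod 3)
        (Kr (Fx J (f k) G (V k) C + (AddMonoidHom.pi fun k => Fu J (f k) (V k) C) β k)) = b k} := by
    refine (fcc.trans (nc _).symm).trans ?_
    refine Nat.card_congr (Equiv.subtypeEquiv (Equiv.refl _) fun β => ?_)
    rw [Equiv.refl_apply]
    refine forall_congr' fun k => ?_
    rw [co_Kr h hC k (hVk k)]
    exact Iff.rfl
  rw [e1]
  unfold cb
  rw [prod_div_distrib, mul_div_assoc']
  have hp : (0 : ℝ) < ∏ _k : κ, 3 ^ (C.card * C.card) := prod_pos fun _ _ => by positivity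
  rw [eq_div_iff hp.ne']
  have h5 : ((Nat.card {β : I → I → ZMod 3 // ∀ k, finrank (ZMod 3)
      (Kr (Fx J (f k) G (V k) C + (AddMonoidHom.pi fun k => Fu J (f k) (V k) C) β k)) = b k} *
        ∏ _k : κ, 3 ^ (C.card * C.card) : ℕ) : ℝ) =
      (((∏ k, nm C.card (b k)) * Fintype.card (I → I → ZMod 3) : ℕ) : ℝ) := by rw [h2]
  push_cast at h5 ⊢
  rw [h5]
  ring

end cj

end Q283.NJ
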