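import Pool.Agent.Q283.NJ.A1

/-! Several bases: the number of the tuples with one relation -/

set_option autoImplicit false
set_option linter.unusedSectionVars false

open scoped Classical

namespace Q283.NJ

open Finset Module
open Q283.ND (ro ro_congr ro_f ro_add ro_smul ro_zero Sy mem_Sy mx sp mem_sp Ph Ph_apply ker_Ph card_nin
  sc_eq fcc nc off mem_off card_off)

section es
variable {I : Type} [Fintype I]

/-- all rows outside `A` are independent -/
theorem eq_Sy2 {f : I → ZMod 3} {ks : I} {A : Finset I} {L : I → I → ZMod 3} (hks : ks ∉ A)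
    (hA : ∀ i ∈ A, f i ≠ 0)
    (H : ∀ c : I → ZMod 3, (∀ i, (i ∈ A ∨ i = ks ∨ f i = 0) → c i = 0) →
      (∀ x : I → ZMod 3, (∀ i, f i = 0 → x i = 0) → x ks = 0 → ∑ i, c i * ro f L i x = 0) →
      c = 0) : finrank (ZMod 3) (Sy f ks A L) = A.card := by
  have hs : LinearMap.range (Ph f ks A L) = ⊤ := by
    by_contra hne
    obtain ⟨φ, hφ, hle⟩ := Submodule.exists_le_ker_of_lt_top _ (lt_top_iff_ne_top.2 hne)
    obtain ⟨c, hc⟩ : ∃ c : {i // i ∉ A} → ZMod 3, c = fun i => φ (Pi.single i 1) := ⟨_, rfl⟩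
    have hφc : ∀ y : {i // i ∉ A} → ZMod 3, φ y = ∑ i, c i * y i := by
      intro y
      rw [hc, LinearMap.pi_apply_eq_sum_univ φ y]
      refine sum_congr rfl fun i _ => ?_
      rw [smul_eq_mul, mul_comm]
      congr 2
      funext j
      rw [Pi.single_apply]
      by_cases h : i = j
      · rw [if_pos h, if_pos h.symm]
      · rw [if_neg h, if_neg (Ne.symm h)]
    have h0 : ∀ x : I → ZMod 3, ∑ i, c i * Ph f ks A L x i = 0 := by
      intro x
      rw [← hφc]
      exact hle ⟨x, rfl⟩
    obtain ⟨v, hvd⟩ : ∃ v : I → ZMod 3, v = fun u => if h : u ∉ A then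
        (if f u = 0 ∨ u = ks then 0 else c ⟨u, h⟩) else 0 := ⟨_, rfl⟩
    have hv0 : v = 0 := by
      apply H
      · intro i hi
        rw [hvd]
        simp only
        by_cases g1 : i ∉ A
        · rw [dif_pos g1, if_pos]
          rcases hi with hi | hi | hi
          · exact absurd hi g1
          · exact Or.inr hi
          · exact Or.inl hi
        · rw [dif_neg g1]
      · intro x hx hxk
        rw [← h0 x]
        have e2 : ∑ u ∈ univ.filter (fun u : I => u ∉ A), v u * ro f L u x =
            ∑ u : {i // i ∉ A}, v u * ro f L u x :=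
          Finset.sum_subtype _ (by simp) (fun u => v u * ro f L u x)
        have e1 : ∑ u, v u * ro f L u x = ∑ u : {i // i ∉ A}, v u * ro f L u x := by
          rw [← e2]
          symm
          refine Finset.sum_subset (filter_subset _ _) fun u _ hu => ?_
          have hu' : u ∈ A := by
            by_contra h
            exact hu (mem_filter.2 ⟨mem_univ _, h⟩)
          rw [hvd]
          simp only
          rw [dif_neg (not_not.2 hu'), zero_mul]
        rw [e1]
        refine sum_congr rfl fun i _ => ?_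
        rw [Ph_apply, hvd]
        simp only
        rw [dif_pos i.2]
        by_cases hi : f i = 0 ∨ (i : I) = ks
        · rw [if_pos hi, if_pos hi]
          rcases hi with hi | hi
          · rw [hx i hi]; ring
          · rw [hi, hxk]; ring
        · rw [if_neg hi, if_neg hi]
    have h1 : ∀ i : {i // i ∉ A}, ¬ (f i = 0 ∨ (i : I) = ks) → c i = 0 := by
      intro i hi
      have h2 := congrFun hv0 i.1
      rw [hvd] at h2
      simp only [dif_pos i.2, Pi.zero_apply] at h2
      rw [if_neg hi] at h2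
      exact h2
    apply hφ
    refine LinearMap.ext fun y => ?_
    rw [hφc, LinearMap.zero_apply]
    refine sum_eq_zero fun i _ => ?_
    by_cases hi : f i = 0 ∨ (i : I) = ks
    · have h2 := h0 (Pi.single i.1 1)
      rw [Finset.sum_eq_single i] at h2
      · rw [Ph_apply, if_pos hi, Pi.single_eq_same, mul_one] at h2
        rw [h2, zero_mul]
      · intro k _ hk
        by_cases hk' : f k = 0 ∨ (k : I) = ks
        · rw [Ph_apply, if_pos hk', Pi.single_eq_of_ne (fun h => hk (Subtype.ext h)), mul_zero]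
        · rw [h1 k hk', zero_mul]
      · intro h
        exact absurd (mem_univ _) h
    · rw [h1 i hi, zero_mul]
  have h1 := LinearMap.finrank_range_add_finrank_ker (Ph f ks A L)
  rw [hs, finrank_top, finrank_fintype_fun_eq_card, finrank_fintype_fun_eq_card,
    ker_Ph hks hA] at h1
  have h3 := card_nin A
  omega

/-- the fixed part of a row -/
noncomputable def fx (J : Finset I) (f : I → ZMod 3) (G : I → I → ZMod 3) (i : I)
    (y : I → ZMod 3) : ZMod 3 := ∑ u, if u ∈ J then 0 else f i * f u * G i u * (y u - y i)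

theorem fx_sub (J : Finset I) (f : I → ZMod 3) (G : I → I → ZMod 3) (i : I) (x y : I → ZMod 3) :
    fx J f G i (x - y) = fx J f G i x - fx J f G i y := by
  unfold fx
  rw [← sum_sub_distrib]
  refine sum_congr rfl fun u _ => ?_
  split_ifs
  · rw [sub_zero]
  · simp only [Pi.sub_apply]; ring

theorem fx_zero (J : Finset I) (f : I → ZMod 3) (G : I → I → ZMod 3) (i : I) :
    fx J f G i 0 = 0 := by
  unfold fx
  refine sum_eq_zero fun u _ => ?_
  split_ifs
  · rfl
  · simp

/-- the coefficient of the diagonal -/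
noncomputable def gd (J : Finset I) (f : I → ZMod 3) (G : I → I → ZMod 3) (i : I) : ZMod 3 :=
  ∑ u, if u ∈ J then 0 else f u * G i u

/-- the modified table -/
noncomputable def Lm (J B : Finset I) (G : I → I → ZMod 3) (f f' : I → ZMod 3) (ks' : I) :
    I → I → ZMod 3 := fun i j => if i ∈ B then (if j ∈ J then 0 else
      if j = ks' then G i j - gd J f G i * (f' ks')⁻¹ else G i j) else mx J G 0 i j

theorem ro_Lm {J B : Finset I} {G : I → I → ZMod 3} {f f' : I → ZMod 3} {ks' : I} (hks : ks' ∉ J)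
    (hf : f' ks' ≠ 0) {i : I} (hi : i ∈ B) {y : I → ZMod 3} (hy : y ks' = 0) :
    ro f' (Lm J B G f f' ks') i y = fx J f' G i y + f' i * gd J f G i * y i := by
  have h1 : ∀ j, f' i * f' j * Lm J B G f f' ks' i j * (y j - y i) =
      (if j ∈ J then 0 else f' i * f' j * G i j * (y j - y i)) +
        if j = ks' then f' i * gd J f G i * y i else 0 := by
    intro j
    unfold Lm
    rw [if_pos hi]
    by_cases hj : j ∈ J
    · have hjk : j ≠ ks' := fun h => hks (h ▸ hj)
      rw [if_pos hj, if_pos hj, if_neg hjk]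
      ring
    · rw [if_neg hj, if_neg hj]
      by_cases hjk : j = ks'
      · subst hjk
        rw [if_pos rfl, if_pos rfl, hy]
        have h2 : f' j * (gd J f G i * (f' j)⁻¹) = gd J f G i := by
          rw [mul_left_comm, mul_inv_cancel₀ hf, mul_one]
        linear_combination f' i * y i * h2
      · rw [if_neg hjk, if_neg hjk, add_zero]
  unfold ro
  rw [sum_congr rfl fun j _ => h1 j, sum_add_distrib, Finset.sum_ite_eq' univ ks',
    if_pos (mem_univ _)]
  rfl

end es

section zc
variable {I κ : Type} [Fintype I] [Fintype κ] {J : Finset I} {e : I → ZMod 3}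
  {f : κ → I → ZMod 3} {ks : κ → I} {G : I → I → ZMod 3} {B : Finset I}

/-- the dimension of the space for the modified table -/
theorem finrank_Lm (h : Js J e f ks) {l l' : κ} (hB : B ⊆ sp J e)
    (hcol : ∀ v : I → ZMod 3, (∀ i ∈ J, v i = 0) → (∀ k, v (ks k) = 0) → v ≠ 0 →
      ∃ j ∈ sp J e \ B, ∑ u, v u * G u j ≠ 0)
    (hdif : ∀ i ∈ B, gd J (f l) G i ≠ gd J (f l') G i) :
    finrank (ZMod 3) (Sy (f l') (ks l') (sp J e \ B) (Lm J B G (f l) (f l') (ks l'))) =
      (sp J e \ B).card := by
  have hks := h.ksJ l'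
  have hf := h.fks l'
  refine eq_Sy2 (fun h' => hks (mem_sp.1 (mem_sdiff.1 h').1).1) (fun i hi => ?_) fun c hc1 hc2 => ?_
  · rw [mem_sdiff, mem_sp] at hi
    rw [h.fJ l' i hi.1.1]
    exact hi.1.2
  -- the rows off `J`
  have hcJ : ∀ i, i ∈ J → i ∉ B → c i = 0 := by
    intro i hi hiB
    by_cases hfi : f l' i = 0
    · exact hc1 i (Or.inr (Or.inr hfi))
    · refine hc1 i (Or.inl ?_)
      rw [mem_sdiff, mem_sp]
      rw [h.fJ l' i hi] at hfi
      exact ⟨⟨hi, hfi⟩, hiB⟩
  obtain ⟨v, hv⟩ : ∃ v : I → ZMod 3, v = fun u => if u ∈ J then 0 else c u * f l' u := ⟨_, rfl⟩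
  have hv0 : v = 0 := by
    by_contra hne
    obtain ⟨j, hj, hj2⟩ := hcol v (fun i hi => by rw [hv]; exact if_pos hi) (fun k => by
      rw [hv]
      beta_reduce
      rw [if_neg (h.ksJ k)]
      by_cases hk : ks k = ks l'
      · rw [hc1 (ks k) (Or.inr (Or.inl hk)), zero_mul]
      · rw [h.ksl l' k hk, mul_zero]) hne
    rw [mem_sdiff] at hj
    have hjJ := (mem_sp.1 hj.1).1
    have hfj : f l' j ≠ 0 := by
      rw [h.fJ l' j hjJ]
      exact (mem_sp.1 hj.1).2
    have h1 := hc2 (Pi.single j 1) (fun i hi => by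
      have : i ≠ j := fun h' => hfj (h' ▸ hi)
      exact Pi.single_eq_of_ne this _) (Pi.single_eq_of_ne (fun h' : ks l' = j => hks (h' ▸ hjJ)) _)
    apply hj2
    have h2 : ∑ i, c i * ro (f l') (Lm J B G (f l) (f l') (ks l')) i (Pi.single j 1) =
        f l' j * ∑ u, v u * G u j := by
      rw [mul_sum]
      refine sum_congr rfl fun i _ => ?_
      by_cases hij : i = j
      · subst hij
        rw [hcJ i hjJ hj.2, zero_mul, hv]
        beta_reduce
        rw [if_pos hjJ]
        ring
      · unfold ro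
        rw [Finset.sum_eq_single j]
        · rw [Pi.single_eq_same, Pi.single_eq_of_ne hij, hv]
          beta_reduce
          by_cases hiJ : i ∈ J
          · rw [if_pos hiJ]
            by_cases hiB : i ∈ B
            · unfold Lm
              rw [if_pos hiB, if_pos hjJ]
              ring
            · rw [hcJ i hiJ hiB]
              ring
          · rw [if_neg hiJ]
            have hiB : i ∉ B := fun h' => hiJ (mem_sp.1 (hB h')).1
            unfold Lm mx
            rw [if_neg hiB, if_neg (by tauto)]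
            ring
        · intro k _ hk
          rw [Pi.single_eq_of_ne hk, Pi.single_eq_of_ne hij]
          ring
        · intro h'
          exact absurd (mem_univ _) h'
    rw [h2] at h1
    exact (mul_eq_zero.1 h1).resolve_left hfj
  have hcO : ∀ u, u ∉ J → c u = 0 := by
    intro u hu
    by_cases hfu : f l' u = 0
    · exact hc1 u (Or.inr (Or.inr hfu))
    · have h1 := congrFun hv0 u
      rw [hv] at h1
      beta_reduce at h1
      rw [if_neg hu, Pi.zero_apply] at h1
      exact (mul_eq_zero.1 h1).resolve_right hfu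
  -- the rows in `B`
  funext i
  rw [Pi.zero_apply]
  by_cases hiB : i ∈ B
  swap
  · by_cases hiJ : i ∈ J
    · exact hcJ i hiJ hiB
    · exact hcO i hiJ
  have hiA := hB hiB
  have hiJ := (mem_sp.1 hiA).1
  have hfi : f l' i ≠ 0 := by
    rw [h.fJ l' i hiJ]
    exact (mem_sp.1 hiA).2
  have hki : ks l' ≠ i := fun h' => hks (h' ▸ hiJ)
  have h1 := hc2 (Pi.single i 1) (fun j hj => by
    have : j ≠ i := fun h' => hfi (h' ▸ hj)
    exact Pi.single_eq_of_ne this _) (Pi.single_eq_of_ne hki _)
  rw [Finset.sum_eq_single i] at h1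
  · rw [ro_Lm hks hf hiB (Pi.single_eq_of_ne hki _)] at h1
    have h2 : fx J (f l') G i (Pi.single i 1) = - (f l' i * gd J (f l') G i) := by
      unfold fx gd
      rw [mul_sum, ← sum_neg_distrib]
      refine sum_congr rfl fun u _ => ?_
      by_cases hu : u ∈ J
      · rw [if_pos hu, if_pos hu]
        ring
      · have hui : u ≠ i := fun h' => hu (h' ▸ hiJ)
        rw [if_neg hu, if_neg hu, Pi.single_eq_same, Pi.single_eq_of_ne hui]
        ring
    rw [h2, Pi.single_eq_same] at h1
    have h3 : c i * (f l' i * (gd J (f l) G i - gd J (f l') G i)) = 0 := by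
      linear_combination h1
    exact (mul_eq_zero.1 h3).resolve_right (mul_ne_zero hfi (sub_ne_zero.2 (hdif i hiB)))
  · intro k _ hk
    by_cases hkB : k ∈ B
    · rw [ro_Lm hks hf hkB (Pi.single_eq_of_ne hki _)]
      have h2 : fx J (f l') G k (Pi.single i 1) = 0 := by
        unfold fx
        refine sum_eq_zero fun u _ => ?_
        by_cases hu : u ∈ J
        · rw [if_pos hu]
        · have hui : u ≠ i := fun h' => hu (h' ▸ hiJ)
          rw [if_neg hu, Pi.single_eq_of_ne hui, Pi.single_eq_of_ne hk]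
          ring
      rw [h2, Pi.single_eq_of_ne hk]
      ring
    · by_cases hkJ : k ∈ J
      · rw [hcJ k hkJ hkB, zero_mul]
      · rw [hcO k hkJ, zero_mul]
  · intro h'
    exact absurd (mem_univ _) h'

/-- the tuples with one relation -/
noncomputable def Zt (J : Finset I) (e : I → ZMod 3) (f : κ → I → ZMod 3) (ks : κ → I)
    (G : I → I → ZMod 3) (B : Finset I) (S : Finset κ) : Finset (κ → I → ZMod 3) :=
  univ.filter fun x => (∀ k ∈ S, x k ∈ Sy (f k) (ks k) (sp J e) (mx J G 0)) ∧
    (∀ k, k ∉ S → x k = 0) ∧ (∃ t, ∀ j ∈ sp J e, ∑ k, x k j = t) ∧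
    ∀ i ∈ B, ∑ k ∈ S, fx J (f k) G i (x k) = 0

theorem card_U (h : Js J e f ks)
    (hcol : ∀ v : I → ZMod 3, (∀ i ∈ J, v i = 0) → (∀ k, v (ks k) = 0) → v ≠ 0 →
      ∃ j ∈ sp J e \ B, ∑ u, v u * G u j ≠ 0) (k : κ) :
    (univ.filter fun y => y ∈ Sy (f k) (ks k) (sp J e) (mx J G 0)).card = 3 ^ (sp J e).card := by
  rw [sc_eq]
  congr 1
  refine Q283.ND.eq_Sy (fun h' => h.ksJ k (mem_sp.1 h').1) (fun i hi => ?_) fun v h1 h2 => ?_
  · rw [h.fJ k i (mem_sp.1 hi).1]
    exact (mem_sp.1 hi).2
  have hvJ : ∀ i ∈ J, v i = 0 := by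
    intro i hi
    by_cases hfi : e i = 0
    · exact h1 i (Or.inr (Or.inr (by rw [h.fJ k i hi]; exact hfi)))
    · exact h1 i (Or.inl (mem_sp.2 ⟨hi, hfi⟩))
  obtain ⟨j, hj, h3⟩ := hcol v hvJ (fun m => by
    by_cases hm : ks m = ks k
    · exact h1 _ (Or.inr (Or.inl hm))
    · exact h1 _ (Or.inr (Or.inr (h.ksl k m hm)))) h2
  refine ⟨j, (mem_sdiff.1 hj).1, fun h' => h3 ?_⟩
  rw [← h']
  refine sum_congr rfl fun u _ => ?_
  by_cases hu : u ∈ J
  · rw [hvJ u hu, zero_mul, zero_mul]
  · unfold mx
    rw [if_neg (by tauto)]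

/-- **The number of the tuples.** -/
theorem zcount (h : Js J e f ks) {l l' : κ} (hl : l ≠ l') {S : Finset κ} (hlS : l ∈ S)
    (hlS' : l' ∈ S) (hB : B ⊆ sp J e)
    (hcol : ∀ v : I → ZMod 3, (∀ i ∈ J, v i = 0) → (∀ k, v (ks k) = 0) → v ≠ 0 →
      ∃ j ∈ sp J e \ B, ∑ u, v u * G u j ≠ 0)
    (hdif : ∀ i ∈ B, gd J (f l) G i ≠ gd J (f l') G i) (hA : (sp J e).Nonempty) :
    (Zt J e f ks G B S).card * 3 ^ B.card ≤
      3 ^ (Jᶜ.card + 1) * 3 ^ ((sp J e).card * (S.card - 1)) := by
  obtain ⟨j₀, hj₀⟩ := hA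
  obtain ⟨S', hS'⟩ : ∃ S', S' = (S.erase l).erase l' := ⟨_, rfl⟩
  have hS'm : ∀ k, k ∈ S' ↔ k ∈ S ∧ k ≠ l ∧ k ≠ l' := by
    intro k
    rw [hS', mem_erase, mem_erase]
    tauto
  have hS'c : S'.card + 2 = S.card := by
    rw [hS', card_erase_of_mem (mem_erase.2 ⟨Ne.symm hl, hlS'⟩), card_erase_of_mem hlS]
    have : 1 < S.card := one_lt_card.2 ⟨l, hlS, l', hlS', hl⟩
    omega
  obtain ⟨F, hF⟩ : ∃ F : (κ → I → ZMod 3) → (I → ZMod 3) × (ZMod 3 × (κ → I → ZMod 3)),
    F = fun x => (fun i => if i ∈ J then 0 else x l i, ∑ k, x k j₀,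
      fun k => if k ∈ S' then x k else 0) := ⟨_, rfl⟩
  obtain ⟨T, hT⟩ : ∃ T : Finset ((I → ZMod 3) × (ZMod 3 × (κ → I → ZMod 3))), T =
    off J ×ˢ (univ ×ˢ Fintype.piFinset fun k => if k ∈ S' then
      (univ.filter fun y => y ∈ Sy (f k) (ks k) (sp J e) (mx J G 0)) else {0}) := ⟨_, rfl⟩
  have hmaps : ∀ x ∈ Zt J e f ks G B S, F x ∈ T := by
    intro x hx
    unfold Zt at hx
    rw [mem_filter] at hx
    rw [hT, hF, mem_product, mem_product, mem_off, Fintype.mem_piFinset]
    refine ⟨fun i hi => if_pos hi, mem_univ _, fun k => ?_⟩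
    beta_reduce
    by_cases hk : k ∈ S'
    · simp only [if_pos hk, mem_filter]
      exact ⟨mem_univ _, hx.2.1 k ((hS'm k).1 hk).1⟩
    · simp only [if_neg hk, mem_singleton]
  have hTc : T.card = 3 ^ (Jᶜ.card + 1) * 3 ^ ((sp J e).card * S'.card) := by
    rw [hT, card_product, card_product, card_off, card_univ, ZMod.card, Fintype.card_piFinset]
    have h1 : ∀ k, (if k ∈ S' then (univ.filter fun y =>
        y ∈ Sy (f k) (ks k) (sp J e) (mx J G 0)) else ({0} : Finset (I → ZMod 3))).card =
        if k ∈ S' then 3 ^ (sp J e).card else 1 := by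
      intro k
      split_ifs
      · exact card_U h hcol k
      · exact card_singleton _
    rw [prod_congr rfl fun k _ => h1 k, prod_ite, prod_const_one, mul_one, prod_const]
    have h2 : (univ.filter fun k => k ∈ S') = S' := by ext; simp
    rw [h2, ← pow_mul, pow_succ]
    ring
  -- the fibres
  have hfib : ∀ b ∈ T, ((Zt J e f ks G B S).filter fun x => F x = b).card ≤
      3 ^ (sp J e \ B).card := by
    intro b _
    rcases ((Zt J e f ks G B S).filter fun x => F x = b).eq_empty_or_nonempty with hem | ⟨x₀, hx₀⟩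
    · rw [hem, card_empty]
      exact Nat.zero_le _
    rw [← finrank_Lm h hB hcol hdif, ← sc_eq]
    have hx₀' := hx₀
    rw [mem_filter] at hx₀'
    obtain ⟨hz₀, hF₀⟩ := hx₀'
    unfold Zt at hz₀
    rw [mem_filter] at hz₀
    obtain ⟨-, p1, p2, ⟨t₀, p3⟩, p4⟩ := hz₀
    -- differences of two elements of a fibre
    have hdiff : ∀ x ∈ (Zt J e f ks G B S).filter (fun x => F x = b),
        (∀ k, k ≠ l → k ≠ l' → x k = x₀ k) ∧ (∀ i, i ∉ J → x l i = x₀ l i) ∧
        (∀ j ∈ sp J e, x l j + x l' j = x₀ l j + x₀ l' j) ∧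
        (∀ i ∈ J, i ∉ sp J e → x l i = 0 ∧ x₀ l i = 0) := by
      intro x hx
      rw [mem_filter] at hx
      obtain ⟨hz, hFx⟩ := hx
      unfold Zt at hz
      rw [mem_filter] at hz
      obtain ⟨-, q1, q2, ⟨t, q3⟩, q4⟩ := hz
      rw [← hF₀, hF] at hFx
      simp only [Prod.mk.injEq] at hFx
      obtain ⟨r1, r2, r3⟩ := hFx
      have g1 : ∀ k, k ≠ l → k ≠ l' → x k = x₀ k := by
        intro k h1 h2
        by_cases hkS : k ∈ S
        · have h3 := congrFun r3 k
          have h4 : k ∈ S' := (hS'm k).2 ⟨hkS, h1, h2⟩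
          simp only [if_pos h4] at h3
          exact h3
        · rw [q2 k hkS, p2 k hkS]
      have gs : ∀ z : κ → I → ZMod 3, ∀ j, ∑ k, z k j =
          (z l j + z l' j) + ∑ k ∈ (univ.erase l).erase l', z k j := by
        intro z j
        rw [← add_sum_erase univ (fun k => z k j) (mem_univ l),
          ← add_sum_erase (univ.erase l) (fun k => z k j) (mem_erase.2 ⟨Ne.symm hl, mem_univ l'⟩)]
        ring
      have gr : ∀ j, ∑ k ∈ (univ.erase l).erase l', x k j =
          ∑ k ∈ (univ.erase l).erase l', x₀ k j := by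
        intro j
        refine sum_congr rfl fun k hk => ?_
        rw [mem_erase, mem_erase] at hk
        rw [g1 k hk.2.1 hk.1]
      refine ⟨g1, fun i hi => ?_, fun j hj => ?_, fun i hi hi2 => ?_⟩
      · have h3 := congrFun r1 i
        simp only [if_neg hi] at h3
        exact h3
      · have h1 := q3 j hj
        have h2 := p3 j hj
        have h3 : t = t₀ := by rw [← q3 j₀ hj₀, ← p3 j₀ hj₀, r2]
        rw [gs] at h1 h2
        rw [gr] at h1
        have h4 := h1.trans (h3.trans h2.symm)
        exact add_right_cancel h4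
      · have h1 : f l i = 0 := by
          rw [h.fJ l i hi]
          by_contra h2
          exact hi2 (mem_sp.2 ⟨hi, h2⟩)
        exact ⟨(mem_Sy.1 (q1 l hlS)).1 i h1, (mem_Sy.1 (p1 l hlS)).1 i h1⟩
    refine card_le_card_of_injOn (fun x => x l' - x₀ l') ?_ ?_
    · intro x hx
      rw [mem_coe] at hx
      obtain ⟨g1, g2, g3, g4⟩ := hdiff x hx
      rw [mem_filter] at hx
      obtain ⟨hz, -⟩ := hx
      unfold Zt at hz
      rw [mem_filter] at hz
      obtain ⟨-, q1, q2, -, q4⟩ := hz
      rw [mem_coe, mem_filter]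
      refine ⟨mem_univ _, ?_⟩
      have hU := (Sy (f l') (ks l') (sp J e) (mx J G 0)).sub_mem (q1 l' hlS') (p1 l' hlS')
      obtain ⟨y, hy⟩ : ∃ y, y = x l' - x₀ l' := ⟨_, rfl⟩
      show x l' - x₀ l' ∈ _
      rw [← hy] at hU ⊢
      rw [mem_Sy] at hU ⊢
      obtain ⟨u1, u2, u3⟩ := hU
      refine ⟨u1, u2, fun i hi hiA => ?_⟩
      by_cases hiB : i ∈ B
      · rw [ro_Lm (h.ksJ l') (h.fks l') hiB u2]
        have hiA' := hB hiB
        have hiJ := (mem_sp.1 hiA').1
        -- the relation
        have e1 : ∑ k ∈ S, fx J (f k) G i (x k - x₀ k) = 0 := by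
          have e2 : ∀ k ∈ S, fx J (f k) G i (x k - x₀ k) =
              fx J (f k) G i (x k) - fx J (f k) G i (x₀ k) := fun k _ => fx_sub _ _ _ _ _ _
          rw [sum_congr rfl e2, sum_sub_distrib, q4 i hiB, p4 i hiB, sub_zero]
        have e3 : ∑ k ∈ S, fx J (f k) G i (x k - x₀ k) =
            fx J (f l) G i (x l - x₀ l) + fx J (f l') G i y := by
          rw [← add_sum_erase S (fun k => fx J (f k) G i (x k - x₀ k)) hlS,
            ← add_sum_erase (S.erase l) (fun k => fx J (f k) G i (x k - x₀ k))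
              (mem_erase.2 ⟨Ne.symm hl, hlS'⟩), sum_eq_zero (s := (S.erase l).erase l'), add_zero,
              ← hy]
          intro k hk
          rw [mem_erase, mem_erase] at hk
          rw [g1 k hk.2.1 hk.1, sub_self, fx_zero]
        have e4 : fx J (f l) G i (x l - x₀ l) = f l' i * gd J (f l) G i * y i := by
          have hz1 : ∀ u, u ∉ J → (x l - x₀ l) u = 0 := by
            intro u hu
            rw [Pi.sub_apply, g2 u hu, sub_self]
          have hz2 : (x l - x₀ l) i = - y i := by
            have := g3 i hiA'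
            rw [hy, Pi.sub_apply, Pi.sub_apply]
            linear_combination this
          unfold fx gd
          rw [mul_sum, sum_mul]
          refine sum_congr rfl fun u _ => ?_
          by_cases hu : u ∈ J
          · rw [if_pos hu, if_pos hu]
            ring
          · rw [if_neg hu, if_neg hu, hz1 u hu, hz2, h.fJ l i hiJ, h.fJ l' i hiJ]
            ring
        rw [e3, e4] at e1
        rw [add_comm]
        exact e1
      · have hiA2 : i ∉ sp J e := fun h' => hiA (mem_sdiff.2 ⟨h', hiB⟩)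
        rw [← u3 i hi hiA2]
        refine ro_congr y fun _ => ?_
        funext j
        unfold Lm
        rw [if_neg hiB]
    · intro x hx x' hx' hxx
      rw [mem_coe] at hx hx'
      obtain ⟨g1, g2, g3, g4⟩ := hdiff x hx
      obtain ⟨g1', g2', g3', g4'⟩ := hdiff x' hx'
      have h1 : x l' = x' l' := sub_left_injective hxx
      have h2 : x l = x' l := by
        funext i
        by_cases hi : i ∈ J
        · by_cases hiA : i ∈ sp J e
          · have e1 := g3 i hiA
            have e2 := g3' i hiA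
            rw [h1] at e1
            exact add_right_cancel (e1.trans e2.symm)
          · rw [(g4 i hi hiA).1, (g4' i hi hiA).1]
        · rw [g2 i hi, g2' i hi]
      funext k
      by_cases hk : k = l
      · rw [hk, h2]
      by_cases hk' : k = l'
      · rw [hk', h1]
      rw [g1 k hk hk', g1' k hk hk']
  have hmain := card_le_mul_card_image_of_maps_to hmaps _ hfib
  have hsum : (sp J e \ B).card + B.card = (sp J e).card := card_sdiff_add_card_eq_card hB
  calc (Zt J e f ks G B S).card * 3 ^ B.card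
      ≤ (3 ^ (sp J e \ B).card * T.card) * 3 ^ B.card := Nat.mul_le_mul_right _ hmain
    _ = 3 ^ (Jᶜ.card + 1) * (3 ^ (sp J e).card * 3 ^ ((sp J e).card * S'.card)) := by
        rw [hTc, ← hsum, pow_add 3 (sp J e \ B).card]
        ring
    _ = 3 ^ (Jᶜ.card + 1) * 3 ^ ((sp J e).card * (S.card - 1)) := by
        rw [← pow_add]
        congr 2
        have : S.card - 1 = S'.card + 1 := by omega
        rw [this]
        ring

end zc

end Q283.NJ
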