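import Pool.Agent.Q283.NJ.A2

/-! Several bases: the tables without joint injectivity are few -/

set_option autoImplicit false
set_option linter.unusedSectionVars false

open scoped Classical

namespace Q283.NJ

open Finset Module
open Q283.ND (ro ro_congr ro_f ro_add ro_smul ro_zero ro_mx Sy Sy_congr mem_Sy mx sp mem_sp fib fcc nc ncI
  off mem_off card_off)

section rl
variable {I κ : Type} [Fintype I] [Fintype κ] {J : Finset I} {e : I → ZMod 3}
  {f : κ → I → ZMod 3} {ks : κ → I} {G : I → I → ZMod 3} {B C : Finset I}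

/-- there is only one relation modulo the constants -/
def Rl (J : Finset I) (e : I → ZMod 3) (S : Finset κ) (x : κ → I → ZMod 3) : Prop :=
  ∀ a : κ → ZMod 3, (∃ t, ∀ j ∈ sp J e, ∑ k ∈ S, a k * x k j = t) → ∀ k ∈ S, ∀ k' ∈ S, a k = a k'

/-- the random part of the rows -/
noncomputable def lis (J : Finset I) (f : κ → I → ZMod 3) (K : Finset I) (S : Finset κ)
    (x : κ → I → ZMod 3) : (I → I → ZMod 3) →+ (K → S → ZMod 3) where
  toFun := fun α i k => ∑ j, if j ∈ J then f k i * f k j * α i j * (x k j - x k i) else 0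
  map_zero' := by
    funext i k
    refine sum_eq_zero fun j _ => ?_
    split_ifs
    · simp
    · rfl
  map_add' := fun α β => by
    funext i k
    show _ = (∑ j, if j ∈ J then f k i * f k j * α i j * (x k j - x k i) else 0) +
      ∑ j, if j ∈ J then f k i * f k j * β i j * (x k j - x k i) else 0
    rw [← sum_add_distrib]
    refine sum_congr rfl fun j _ => ?_
    split_ifs
    · simp only [Pi.add_apply]; ring
    · rw [add_zero]

theorem lis_apply (K : Finset I) (S : Finset κ) (x : κ → I → ZMod 3) (α : I → I → ZMod 3) (i : K)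
    (k : S) : lis J f K S x α i k =
      ∑ j, if j ∈ J then f k i * f k j * α i j * (x k j - x k i) else 0 := rfl

theorem lis_surj (h : Js J e f ks) {K : Finset I} (hK : K ⊆ sp J e) {S : Finset κ} {l : κ}
    (hl : l ∈ S) {x : κ → I → ZMod 3} (hx : Rl J e S x) :
    Function.Surjective (lis J f K (S.erase l) x) := by
  intro g
  have h1 : ∀ i : K, ∃ c : I → ZMod 3, ∀ k : ↥(S.erase l), g i k =
      ∑ j, c j * (if j ∈ J then f k i * f k j * (x k j - x k i) else 0) := by
    intro i
    have hiJ : (i : I) ∈ J := (mem_sp.1 (hK i.2)).1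
    have hei : e i ≠ 0 := (mem_sp.1 (hK i.2)).2
    obtain ⟨T, hT⟩ : ∃ T : (↥(S.erase l) → ZMod 3) →ₗ[ZMod 3] (I → ZMod 3), ∀ a j, T a j =
        ∑ k : ↥(S.erase l), a k * (if j ∈ J then f k i * f k j * (x k j - x k i) else 0) := by
      refine ⟨{ toFun := fun a j =>
                  ∑ k : ↥(S.erase l), a k * (if j ∈ J then f k i * f k j * (x k j - x k i) else 0)
                map_add' := fun a b => ?_
                map_smul' := fun r a => ?_ }, fun _ _ => rfl⟩
      · funext j
        rw [Pi.add_apply, ← sum_add_distrib]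
        exact sum_congr rfl fun k _ => by rw [Pi.add_apply, add_mul]
      · funext j
        rw [RingHom.id_apply, Pi.smul_apply, smul_eq_mul, mul_sum]
        exact sum_congr rfl fun k _ => by rw [Pi.smul_apply, smul_eq_mul, mul_assoc]
    have hinj : Function.Injective T := by
      rw [← LinearMap.ker_eq_bot, LinearMap.ker_eq_bot']
      intro a ha
      obtain ⟨a', ha'⟩ : ∃ a' : κ → ZMod 3, a' = fun k => if hk : k ∈ S.erase l then a ⟨k, hk⟩
        else 0 := ⟨_, rfl⟩
      have hsum : ∀ z : κ → ZMod 3, ∑ k ∈ S, a' k * z k = ∑ k : ↥(S.erase l), a k * z k := by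
        intro z
        have e1 : ∑ k ∈ S, a' k * z k = ∑ k ∈ S.erase l, a' k * z k := by
          rw [← add_sum_erase S (fun k => a' k * z k) hl, ha']
          beta_reduce
          rw [dif_neg (notMem_erase l S), zero_mul, zero_add]
        rw [e1, ← sum_coe_sort (S.erase l)]
        refine sum_congr rfl fun k _ => ?_
        rw [ha']
        beta_reduce
        rw [dif_pos k.2]
      have h2 := hx a' ⟨∑ k ∈ S, a' k * x k i, fun j hj => ?_⟩
      · funext k
        have h3 := h2 k (mem_of_mem_erase k.2) l hl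
        rw [ha'] at h3
        beta_reduce at h3
        rw [dif_pos k.2, dif_neg (notMem_erase l S)] at h3
        exact h3
      · have h3 := congrFun ha j
        rw [hT, Pi.zero_apply] at h3
        have h4 : ∑ k : ↥(S.erase l), a k * (if j ∈ J then f k i * f k j * (x k j - x k i) else 0) =
            (e i * e j) * (∑ k ∈ S, a' k * x k j - ∑ k ∈ S, a' k * x k i) := by
          rw [← sum_sub_distrib]
          have h5 : ∑ k ∈ S, (a' k * x k j - a' k * x k i) = ∑ k ∈ S, a' k * (x k j - x k i) :=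
            sum_congr rfl fun k _ => by ring
          rw [h5, hsum fun k => x k j - x k i, mul_sum]
          refine sum_congr rfl fun k _ => ?_
          rw [if_pos (mem_sp.1 hj).1, h.fJ k i hiJ, h.fJ k j (mem_sp.1 hj).1]
          ring
        rw [h4] at h3
        exact sub_eq_zero.1 ((mul_eq_zero.1 h3).resolve_left (mul_ne_zero hei (mem_sp.1 hj).2))
    obtain ⟨γ, hγ⟩ : ∃ γ : Module.Dual (ZMod 3) (↥(S.erase l) → ZMod 3),
        ∀ a, γ a = ∑ k, a k * g i k := by
      refine ⟨∑ k, (g i k) • (LinearMap.proj k), fun a => ?_⟩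
      rw [LinearMap.sum_apply]
      refine sum_congr rfl fun k _ => ?_
      rw [LinearMap.smul_apply, smul_eq_mul, mul_comm]
      rfl
    obtain ⟨φ, hφ⟩ := LinearMap.dualMap_surjective_of_injective hinj γ
    refine ⟨fun j => φ (Pi.single j 1), fun k => ?_⟩
    have h2 : g i k = γ (Pi.single k 1) := by
      rw [hγ, sum_eq_single k]
      · rw [Pi.single_eq_same, one_mul]
      · intro m _ hm
        rw [Pi.single_eq_of_ne hm, zero_mul]
      · intro hk
        exact absurd (mem_univ _) hk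
    rw [h2, ← hφ]
    show φ (T (Pi.single k 1)) = _
    rw [LinearMap.pi_apply_eq_sum_univ φ (T (Pi.single k 1))]
    refine sum_congr rfl fun j _ => ?_
    rw [smul_eq_mul, mul_comm, hT, sum_eq_single k]
    · rw [Pi.single_eq_same, one_mul]
      congr 2
      funext m
      rw [Pi.single_apply]
      by_cases hm : j = m
      · rw [if_pos hm, if_pos hm.symm]
      · rw [if_neg hm, if_neg (Ne.symm hm)]
    · intro m _ hm
      rw [Pi.single_eq_of_ne hm, zero_mul]
    · intro hk
      exact absurd (mem_univ _) hk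
  choose c hc using h1
  refine ⟨fun i j => if h : i ∈ K then c ⟨i, h⟩ j else 0, ?_⟩
  funext i k
  rw [lis_apply, hc i k]
  refine sum_congr rfl fun j _ => ?_
  rw [dif_pos i.2]
  split_ifs
  · ring
  · rw [mul_zero]

/-- the tables with zero rows in `K` at all `x k` -/
theorem card_rowsS (h : Js J e f ks) {K : Finset I} (hK : K ⊆ sp J e) {S : Finset κ} {l : κ}
    (hl : l ∈ S) {x : κ → I → ZMod 3} (hx : Rl J e S x) :
    (univ.filter fun α : I → I → ZMod 3 => ∀ i ∈ K, ∀ k ∈ S,
      ro (f k) (mx J G α) i (x k) = 0).card * 3 ^ (K.card * (S.card - 1)) ≤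
      Fintype.card (I → I → ZMod 3) := by
  have h1 := fib (lis J f K (S.erase l) x) (lis_surj h hK hl hx) (fun b => ∀ (i : K)
    (k : ↥(S.erase l)), b i k + fx J (f k) G i (x k) = 0)
  have h2 : Nat.card {b : K → ↥(S.erase l) → ZMod 3 // ∀ (i : K) (k : ↥(S.erase l)), b i k +
      fx J (f k) G i (x k) = 0} = 1 := by
    rw [Nat.card_eq_one_iff_unique]
    refine ⟨⟨?_⟩, ⟨⟨fun i k => - fx J (f k) G i (x k), fun i k => by rw [neg_add_cancel]⟩⟩⟩
    rintro ⟨b, hb⟩ ⟨b', hb'⟩
    apply Subtype.ext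
    funext i k
    exact (eq_neg_of_add_eq_zero_left (hb i k)).trans (eq_neg_of_add_eq_zero_left (hb' i k)).symm
  rw [h2, one_mul, Nat.card_fun, Nat.card_fun, Nat.card_zmod, Nat.card_eq_fintype_card (α := K),
    Fintype.card_coe, Nat.card_eq_fintype_card (α := ↥(S.erase l)), Fintype.card_coe,
    card_erase_of_mem hl, Nat.card_eq_fintype_card (α := I → I → ZMod 3), ← pow_mul,
    mul_comm (S.card - 1)] at h1
  rw [← h1]
  refine Nat.mul_le_mul_right _ (le_trans (le_of_eq ncI) ?_)
  refine Nat.card_le_card_of_injective (fun α : {α : I → I → ZMod 3 // ∀ i ∈ K, ∀ k ∈ S,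
      ro (f k) (mx J G α) i (x k) = 0} => (⟨α.1, fun i k => ?_⟩ : {α : I → I → ZMod 3 //
      ∀ (i : K) (k : ↥(S.erase l)), lis J f K (S.erase l) x α i k + fx J (f k) G i (x k) = 0})) ?_
  · have h3 := α.2 i i.2 k (mem_of_mem_erase k.2)
    rw [ro_mx (mem_sp.1 (hK i.2)).1] at h3
    exact h3
  · intro α β hαβ
    exact Subtype.ext (Subtype.mk.inj hαβ)

/-- a degenerate table for a set of systems -/
def Bs (J : Finset I) (e : I → ZMod 3) (f : κ → I → ZMod 3) (ks : κ → I) (G : I → I → ZMod 3)
    (C : Finset I) (S : Finset κ) (α : I → I → ZMod 3) : Prop :=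
  ∃ x : κ → I → ZMod 3, (∀ k ∈ S, x k ∈ Sy (f k) (ks k) C (mx J G α)) ∧
    (∀ k, k ∉ S → x k = 0) ∧ (∃ t, ∀ j ∈ sp J e, ∑ k, x k j = t) ∧ Rl J e S x

theorem bad_few (h : Js J e f ks) {l l' : κ} (hl : l ≠ l') {S : Finset κ} (hlS : l ∈ S)
    (hlS' : l' ∈ S) (hC : C ⊆ sp J e) (hB : B ⊆ sp J e \ C)
    (hcol : ∀ v : I → ZMod 3, (∀ i ∈ J, v i = 0) → (∀ k, v (ks k) = 0) → v ≠ 0 →
      ∃ j ∈ sp J e \ B, ∑ u, v u * G u j ≠ 0)
    (hdif : ∀ i ∈ B, gd J (f l) G i ≠ gd J (f l') G i) (hA : (sp J e).Nonempty) :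
    (univ.filter fun α : I → I → ZMod 3 => Bs J e f ks G C S α).card * 3 ^ B.card ≤
      Fintype.card (I → I → ZMod 3) * (3 ^ (Jᶜ.card + 1) * 3 ^ (C.card * (S.card - 1))) := by
  obtain ⟨N, hN⟩ : ∃ N, N = Fintype.card (I → I → ZMod 3) := ⟨_, rfl⟩
  obtain ⟨d, hd⟩ : ∃ d, d = S.card - 1 := ⟨_, rfl⟩
  obtain ⟨A, hAd⟩ : ∃ A, A = sp J e := ⟨_, rfl⟩
  obtain ⟨K, hK⟩ : ∃ K, K = sp J e \ C := ⟨_, rfl⟩
  have hBA : B ⊆ sp J e := hB.trans sdiff_subset
  have hz := zcount h hl hlS hlS' hBA hcol hdif hA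
  rw [← hd] at hz ⊢
  have h1 : (univ.filter fun α : I → I → ZMod 3 => Bs J e f ks G C S α) ⊆
      ((Zt J e f ks G B S).filter fun x => Rl J e S x).biUnion fun x =>
        univ.filter fun α => ∀ i ∈ K, ∀ k ∈ S, ro (f k) (mx J G α) i (x k) = 0 := by
    intro α hα
    rw [mem_filter] at hα
    obtain ⟨-, x, h1, h2, ⟨t, h3⟩, h4⟩ := hα
    have hrow : ∀ i ∈ K, ∀ k ∈ S, ro (f k) (mx J G α) i (x k) = 0 := by
      intro i hi k hk
      rw [hK, mem_sdiff] at hi
      exact (mem_Sy.1 (h1 k hk)).2.2 i (fun h' => h.ksJ k (h' ▸ (mem_sp.1 hi.1).1)) hi.2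
    rw [mem_biUnion]
    refine ⟨x, ?_, mem_filter.2 ⟨mem_univ _, hrow⟩⟩
    rw [mem_filter]
    refine ⟨?_, h4⟩
    unfold Zt
    rw [mem_filter]
    refine ⟨mem_univ _, fun k hk => ?_, h2, ⟨t, h3⟩, fun i hi => ?_⟩
    · have hx := mem_Sy.1 (h1 k hk)
      rw [Sy_congr (L' := mx J G α), mem_Sy]
      · exact ⟨hx.1, hx.2.1, fun i g1 g2 => hx.2.2 i g1 fun h' => g2 (hC h')⟩
      · intro i hi hfi
        have hiJ : i ∉ J := by
          intro h'
          apply hi
          rw [h.fJ k i h'] at hfi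
          exact mem_sp.2 ⟨h', hfi⟩
        funext j
        unfold mx
        rw [if_neg (by tauto), if_neg (by tauto)]
    · have hiK : i ∈ K := by rw [hK]; exact hB hi
      have hiA := hBA hi
      have hiJ := (mem_sp.1 hiA).1
      have g1 : ∑ k ∈ S, ro (f k) (mx J G α) i (x k) = 0 :=
        sum_eq_zero fun k hk => hrow i hiK k hk
      have g2 : ∀ k ∈ S, ro (f k) (mx J G α) i (x k) =
          (∑ j, if j ∈ J then f k i * f k j * α i j * (x k j - x k i) else 0) +
            fx J (f k) G i (x k) := fun k _ => ro_mx hiJ (x k)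
      rw [sum_congr rfl g2, sum_add_distrib] at g1
      have g3 : ∑ k ∈ S, ∑ j, (if j ∈ J then f k i * f k j * α i j * (x k j - x k i) else 0) = 0 := by
        rw [sum_comm]
        refine sum_eq_zero fun j _ => ?_
        by_cases hj : j ∈ J
        · have g4 : ∑ k ∈ S, (if j ∈ J then f k i * f k j * α i j * (x k j - x k i) else 0) =
              e i * e j * α i j * (∑ k ∈ S, x k j - ∑ k ∈ S, x k i) := by
            rw [← sum_sub_distrib, mul_sum]
            refine sum_congr rfl fun k _ => ?_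
            rw [if_pos hj, h.fJ k i hiJ, h.fJ k j hj]
          have g5 : ∀ j, ∑ k ∈ S, x k j = ∑ k, x k j := fun j =>
            sum_subset (subset_univ S) fun k _ hk => by rw [h2 k hk]; rfl
          rw [g4, g5, g5]
          by_cases hej : e j = 0
          · rw [hej]; ring
          · rw [h3 j (mem_sp.2 ⟨hj, hej⟩), h3 i hiA, sub_self, mul_zero]
        · exact sum_eq_zero fun k _ => if_neg hj
      rw [g3, zero_add] at g1
      exact g1
  have h2 : (univ.filter fun α : I → I → ZMod 3 => Bs J e f ks G C S α).card *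
      3 ^ (K.card * d) ≤ (Zt J e f ks G B S).card * N := by
    refine (Nat.mul_le_mul_right _ ((card_le_card h1).trans card_biUnion_le)).trans ?_
    rw [sum_mul]
    have h3 : ∀ x ∈ (Zt J e f ks G B S).filter (fun x => Rl J e S x),
        (univ.filter fun α : I → I → ZMod 3 => ∀ i ∈ K, ∀ k ∈ S,
          ro (f k) (mx J G α) i (x k) = 0).card * 3 ^ (K.card * d) ≤ N := by
      intro x hx
      rw [hN, hd]
      exact card_rowsS h (by rw [hK]; exact sdiff_subset) hlS (mem_filter.1 hx).2
    refine (sum_le_sum h3).trans ?_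
    rw [sum_const, smul_eq_mul]
    exact Nat.mul_le_mul_right _ (card_le_card (filter_subset _ _))
  have hKC : K.card + C.card = (sp J e).card := by
    rw [hK]
    exact card_sdiff_add_card_eq_card hC
  rw [← hKC, add_mul, pow_add 3 (K.card * d)] at hz
  rw [← hN]
  have h3 : ((univ.filter fun α : I → I → ZMod 3 => Bs J e f ks G C S α).card * 3 ^ B.card) *
      3 ^ (K.card * d) ≤ (N * (3 ^ (Jᶜ.card + 1) * 3 ^ (C.card * d))) * 3 ^ (K.card * d) := by
    calc ((univ.filter fun α : I → I → ZMod 3 => Bs J e f ks G C S α).card * 3 ^ B.card) *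
        3 ^ (K.card * d) = ((univ.filter fun α : I → I → ZMod 3 =>
          Bs J e f ks G C S α).card * 3 ^ (K.card * d)) * 3 ^ B.card := by ring
      _ ≤ ((Zt J e f ks G B S).card * N) * 3 ^ B.card := Nat.mul_le_mul_right _ h2
      _ = ((Zt J e f ks G B S).card * 3 ^ B.card) * N := by ring
      _ ≤ (3 ^ (Jᶜ.card + 1) * (3 ^ (K.card * d) * 3 ^ (C.card * d))) * N :=
        Nat.mul_le_mul_right _ hz
      _ = _ := by ring
  exact Nat.le_of_mul_le_mul_right h3 (by positivity)

/-- joint injectivity if no set of systems is degenerate -/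
theorem ji_of {α : I → I → ZMod 3}
    (hconst : ∀ (k : κ) (x : I → ZMod 3), x ∈ Sy (f k) (ks k) C (mx J G α) →
      (∃ t, ∀ j ∈ sp J e, x j = t) → x = 0)
    (hbad : ∀ S : Finset κ, 2 ≤ S.card → ¬ Bs J e f ks G C S α) : JI J e f ks G C α := by
  have key : ∀ n : ℕ, ∀ S : Finset κ, S.card = n → ∀ x : κ → I → ZMod 3,
      (∀ k, x k ∈ Sy (f k) (ks k) C (mx J G α)) → (∀ k, k ∈ S ↔ x k ≠ 0) →
      (∃ t, ∀ j ∈ sp J e, ∑ k, x k j = t) → S = ∅ := by
    intro n
    induction n using Nat.strong_induction_on with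
    | _ n ih =>
      intro S hS x h1 h2 h3
      by_contra hne
      obtain ⟨t, h3⟩ := h3
      have hx0 : ∀ k, k ∉ S → x k = 0 := fun k hk => by
        by_contra h'
        exact hk ((h2 k).2 h')
      have hpos : 0 < S.card := card_pos.2 (nonempty_iff_ne_empty.2 hne)
      rcases Nat.lt_or_ge S.card 2 with hS1 | hS2
      · obtain ⟨k, hk⟩ := card_eq_one.1 (show S.card = 1 by omega)
        have hkS : k ∈ S := by rw [hk]; exact mem_singleton_self k
        apply (h2 k).1 hkS
        refine hconst k (x k) (h1 k) ⟨t, fun j hj => ?_⟩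
        rw [← h3 j hj, sum_eq_single k]
        · intro m _ hm
          rw [hx0 m (by rw [hk, mem_singleton]; exact hm)]
          rfl
        · intro h'
          exact absurd (mem_univ _) h'
      · have h4 : ¬ Rl J e S x := fun h' =>
          hbad S hS2 ⟨x, fun k _ => h1 k, hx0, ⟨t, h3⟩, h'⟩
        unfold Rl at h4
        push Not at h4
        obtain ⟨a, ⟨t', ht'⟩, k, hk, k', hk', hne'⟩ := h4
        obtain ⟨y, hy⟩ : ∃ y : κ → I → ZMod 3, y = fun m => (a m - a k') • x m := ⟨_, rfl⟩
        have hy1 : ∀ m, m ∈ S.filter (fun m => a m ≠ a k') ↔ y m ≠ 0 := by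
          intro m
          rw [mem_filter, hy]
          beta_reduce
          rw [smul_ne_zero_iff, sub_ne_zero, h2 m]
          tauto
        have h5 := ih (S.filter fun m => a m ≠ a k').card (by
          rw [← hS]
          refine card_lt_card ?_
          rw [Finset.ssubset_iff_of_subset (filter_subset _ _)]
          exact ⟨k', hk', fun h' => (mem_filter.1 h').2 rfl⟩) _ rfl y (fun m => by
            rw [hy]
            exact (Sy (f m) (ks m) C (mx J G α)).smul_mem _ (h1 m)) hy1
          ⟨t' - a k' * t, fun j hj => ?_⟩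
        · have : k ∈ S.filter fun m => a m ≠ a k' := mem_filter.2 ⟨hk, hne'⟩
          rw [h5] at this
          exact notMem_empty _ this
        · rw [← ht' j hj, ← h3 j hj, mul_sum]
          have h6 : ∑ k ∈ S, a k * x k j = ∑ k, a k * x k j :=
            sum_subset (subset_univ S) fun m _ hm => by rw [hx0 m hm, Pi.zero_apply, mul_zero]
          rw [h6, ← sum_sub_distrib]
          refine sum_congr rfl fun m _ => ?_
          rw [hy]
          simp only [Pi.smul_apply, smul_eq_mul]
          ring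
  intro x h1 h2 k
  by_contra hk
  have h3 := key _ (univ.filter fun k => x k ≠ 0) rfl x h1 (fun k => by simp) h2
  have : k ∈ univ.filter fun k => x k ≠ 0 := mem_filter.2 ⟨mem_univ _, hk⟩
  rw [h3] at this
  exact notMem_empty _ this

end rl

end Q283.NJ
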