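import Pool.Agent.Q283.NJ.A3

/-! Several bases: the covariance -/

set_option autoImplicit false
set_option linter.unusedSectionVars false

open scoped Classical

namespace Q283.NJ

open Finset Module
open Q283.ND (ro ro_congr ro_f ro_add ro_smul ro_zero ro_mx Sy Sy_congr mem_Sy le_Sy mx sp mem_sp fib fcc
  nc ncI off mem_off card_off const_zero card_rows sc_eq rs sum_rs co one one_ge one_le cb cb_ge cb_le)

section sg
variable {I : Type} [Fintype I] {J : Finset I} {f : I → ZMod 3} {ks : I}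
  {G : I → I → ZMod 3} {C : Finset I}

/-- the first moment -/
theorem momD (hks : ks ∉ J) (hf : f ks ≠ 0) (hC : C ⊆ sp J f)
    (hw : ∀ w : I → ZMod 3, (∀ i ∈ J, w i = 0) → w ≠ 0 →
      ∃ i ∈ sp J f \ C, ∑ u, w u * G i u ≠ 0)
    (hVc : (univ.filter fun y => y ∈ Sy f ks (sp J f) (mx J G 0)).card = 3 ^ (sp J f).card) :
    ∑ α : I → I → ZMod 3, 3 ^ finrank (ZMod 3) (Sy f ks C (mx J G α)) ≤
      Fintype.card (I → I → ZMod 3) * (1 + 3 ^ C.card) := by
  obtain ⟨V, hV⟩ : ∃ V, V = Sy f ks (sp J f) (mx J G 0) := ⟨_, rfl⟩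
  obtain ⟨N, hN⟩ : ∃ N, N = Fintype.card (I → I → ZMod 3) := ⟨_, rfl⟩
  have hksA : ks ∉ sp J f := fun h => hks (mem_sp.1 h).1
  rw [← hV] at hVc
  have hmem : ∀ (α : I → I → ZMod 3) (x : I → ZMod 3), x ∈ Sy f ks C (mx J G α) →
      x ∈ V ∧ ∀ i ∈ sp J f \ C, ro f (mx J G α) i x = 0 := by
    intro α x hx
    rw [mem_Sy] at hx
    constructor
    · rw [hV, Sy_congr (L' := mx J G α), mem_Sy]
      · exact ⟨hx.1, hx.2.1, fun i h1 h2 => hx.2.2 i h1 fun h => h2 (hC h)⟩
      · intro i hi hfi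
        have hiJ : i ∉ J := fun h => hi (mem_sp.2 ⟨h, hfi⟩)
        funext j
        unfold mx
        rw [if_neg (by tauto), if_neg (by tauto)]
    · intro i hi
      rw [mem_sdiff] at hi
      exact hx.2.2 i (fun h => hksA (h ▸ hi.1)) hi.2
  obtain ⟨k, hk⟩ : ∃ k, k = (sp J f \ C).card := ⟨_, rfl⟩
  have hkC : k + C.card = (sp J f).card := by
    rw [hk]
    exact card_sdiff_add_card_eq_card hC
  have e1 : ∑ α : I → I → ZMod 3, 3 ^ finrank (ZMod 3) (Sy f ks C (mx J G α)) =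
      ∑ x : I → ZMod 3, (univ.filter fun α => x ∈ Sy f ks C (mx J G α)).card := by
    have e2 : ∀ α : I → I → ZMod 3, 3 ^ finrank (ZMod 3) (Sy f ks C (mx J G α)) =
        ∑ x : I → ZMod 3, if x ∈ Sy f ks C (mx J G α) then 1 else 0 := by
      intro α
      rw [← sc_eq, card_filter]
    rw [sum_congr rfl fun α _ => e2 α, sum_comm]
    exact sum_congr rfl fun x _ => (card_filter _ _).symm
  have h2 : ∀ x : I → ZMod 3, (univ.filter fun α => x ∈ Sy f ks C (mx J G α)).card * 3 ^ k ≤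
      (if x = 0 then N * 3 ^ k else 0) + (if x ∈ V then N else 0) := by
    intro x
    by_cases hx0 : x = 0
    · rw [if_pos hx0]
      refine le_trans (Nat.mul_le_mul_right _ ?_) (Nat.le_add_right _ _)
      rw [hN]
      exact card_le_univ _
    rw [if_neg hx0, zero_add]
    by_cases hxV : x ∈ V
    swap
    · rw [if_neg hxV, Nat.le_zero, mul_eq_zero]
      left
      rw [card_eq_zero, filter_eq_empty_iff]
      intro α _ h
      exact hxV (hmem α x h).1
    rw [if_pos hxV]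
    by_cases hc : ∃ t, ∀ j ∈ sp J f, x j = t
    · obtain ⟨t, ht⟩ := hc
      have : (univ.filter fun α => x ∈ Sy f ks C (mx J G α)).card = 0 := by
        rw [card_eq_zero, filter_eq_empty_iff]
        intro α _ h
        exact hx0 (const_zero hks hf hw h.1 h.2.1 (hmem α x h).2 ht)
      rw [this, zero_mul]
      exact Nat.zero_le _
    · rw [hN, ← card_rows (G := G) (K := sp J f \ C) sdiff_subset hc, ← hk]
      refine Nat.mul_le_mul_right _ (card_le_card fun α hα => ?_)
      rw [mem_filter] at hα ⊢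
      exact ⟨mem_univ _, (hmem α x hα.2).2⟩
  rw [e1, ← hN]
  have h3 : (∑ x : I → ZMod 3, (univ.filter fun α => x ∈ Sy f ks C (mx J G α)).card) * 3 ^ k ≤
      N * 3 ^ k + 3 ^ (sp J f).card * N := by
    rw [sum_mul]
    refine (sum_le_sum fun x _ => h2 x).trans (le_of_eq ?_)
    rw [sum_add_distrib]
    congr 1
    · rw [Finset.sum_ite_eq' univ (0 : I → ZMod 3) (fun _ => N * 3 ^ k), if_pos (mem_univ _)]
    · rw [← sum_filter, sum_const, smul_eq_mul, hVc]
  rw [← hkC, pow_add] at h3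
  have h4 : (∑ x : I → ZMod 3, (univ.filter fun α => x ∈ Sy f ks C (mx J G α)).card) * 3 ^ k ≤
      (N * (1 + 3 ^ C.card)) * 3 ^ k := by
    refine h3.trans (le_of_eq ?_)
    ring
  exact Nat.le_of_mul_le_mul_right h4 (by positivity)

/-- the number of the bad tables, in real form -/
theorem fewD (hks : ks ∉ J) (hf : f ks ≠ 0) (hC : C ⊆ sp J f)
    (hw : ∀ w : I → ZMod 3, (∀ i ∈ J, w i = 0) → w ≠ 0 →
      ∃ i ∈ sp J f \ C, ∑ u, w u * G i u ≠ 0)
    (hVc : (univ.filter fun y => y ∈ Sy f ks (sp J f) (mx J G 0)).card = 3 ^ (sp J f).card) :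
    ((univ.filter fun α : I → I → ZMod 3 =>
      finrank (ZMod 3) (Sy f ks C (mx J G α)) ≠ C.card).card : ℝ) ≤
      Fintype.card (I → I → ZMod 3) * (1 / 3) ^ C.card := by
  have h1 := momD hks hf hC hw hVc
  have hksC : ks ∉ C := fun h => hks (mem_sp.1 (hC h)).1
  have h2 : ∀ α : I → I → ZMod 3, 3 ^ C.card +
      (if finrank (ZMod 3) (Sy f ks C (mx J G α)) ≠ C.card then 2 * 3 ^ C.card else 0) ≤
      3 ^ finrank (ZMod 3) (Sy f ks C (mx J G α)) := by
    intro α
    have h3 := le_Sy (L := mx J G α) hksC (fun i hi => (mem_sp.1 (hC hi)).2)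
    split_ifs with h
    · have h4 : C.card + 1 ≤ finrank (ZMod 3) (Sy f ks C (mx J G α)) := by omega
      have h5 := Nat.pow_le_pow_right (n := 3) (by norm_num) h4
      rw [pow_succ] at h5
      omega
    · rw [add_zero]
      exact Nat.pow_le_pow_right (by norm_num) h3
  have h3 := (sum_le_sum fun α (_ : α ∈ (univ : Finset (I → I → ZMod 3))) => h2 α).trans h1
  rw [sum_add_distrib, sum_const, card_univ, smul_eq_mul, ← sum_filter, sum_const, smul_eq_mul] at h3
  have h4 : Fintype.card (I → I → ZMod 3) * (1 + 3 ^ C.card) = Fintype.card (I → I → ZMod 3) +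
    Fintype.card (I → I → ZMod 3) * 3 ^ C.card := by ring
  have h5 : (univ.filter fun α : I → I → ZMod 3 =>
      finrank (ZMod 3) (Sy f ks C (mx J G α)) ≠ C.card).card * (2 * 3 ^ C.card) ≤
      Fintype.card (I → I → ZMod 3) := by omega
  rw [one_div, inv_pow, ← div_eq_mul_inv, le_div_iff₀ (by positivity)]
  have h6 : (((univ.filter fun α : I → I → ZMod 3 =>
      finrank (ZMod 3) (Sy f ks C (mx J G α)) ≠ C.card).card * (2 * 3 ^ C.card) : ℕ) : ℝ) ≤
      (Fintype.card (I → I → ZMod 3) : ℝ) := by exact_mod_cast h5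
  push_cast at h6
  have h7 : (0 : ℝ) ≤ ((univ.filter fun α : I → I → ZMod 3 =>
      finrank (ZMod 3) (Sy f ks C (mx J G α)) ≠ C.card).card : ℝ) * 3 ^ C.card := by positivity
  nlinarith

end sg

section pj
variable {I κ : Type} [Fintype I] [Fintype κ] {J : Finset I} {e e' : I → ZMod 3}
  {f f' : κ → I → ZMod 3} {ks : κ → I} {G : I → I → ZMod 3} {C : Finset I}

/-- the indicator of a vector -/
noncomputable def oneJ (b c : κ → ℕ) : ℝ := ∏ k, one (b k) (c k)

/-- the vector of the coranks -/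
noncomputable def coJ (f : κ → I → ZMod 3) (ks : κ → I) (L : I → I → ZMod 3) : κ → ℕ :=
  fun k => co (f k) (ks k) L

theorem oneJ_ge (b c : κ → ℕ) : 0 ≤ oneJ b c := prod_nonneg fun _ _ => one_ge _ _

theorem oneJ_le (b c : κ → ℕ) : oneJ b c ≤ 1 := prod_le_one (fun _ _ => one_ge _ _) fun _ _ => one_le _ _

theorem oneJ_eq (b c : κ → ℕ) : oneJ b c = if ∀ k, c k = b k then 1 else 0 := by
  unfold oneJ one
  split_ifs with h
  · exact prod_eq_one fun k _ => if_pos (h k)
  · push Not at h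
    obtain ⟨k, hk⟩ := h
    exact prod_eq_zero (mem_univ k) (if_neg hk)

theorem sum_oneJ {A : Type} [Fintype A] (b : κ → ℕ) (g : A → κ → ℕ) :
    ∑ a, oneJ b (g a) = ((univ.filter fun a => ∀ k, g a k = b k).card : ℝ) := by
  rw [sum_congr rfl fun a _ => oneJ_eq b (g a), ← sum_filter, sum_const, nsmul_eq_mul, mul_one]

/-- the tables that are not generic -/
def Bd' (J : Finset I) (e : I → ZMod 3) (f : κ → I → ZMod 3) (ks : κ → I) (G : I → I → ZMod 3)
    (C : Finset I) (α : I → I → ZMod 3) : Prop :=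
  ¬ ((∀ k, finrank (ZMod 3) (Sy (f k) (ks k) C (mx J G α)) = C.card) ∧ JI J e f ks G C α)

/-- the mean over the resampled rows -/
theorem inner_absJ (h : Js J e f ks) (hC : C ⊆ sp J e) (b : κ → ℕ) {q : ℝ} (hq0 : 0 ≤ q)
    (hq1 : q ≤ 1) (α : I → I → ZMod 3) :
    |∑ β : I → I → ZMod 3, (oneJ b (coJ f ks (mx J G (rs C α β))) - q)| ≤
      Fintype.card (I → I → ZMod 3) * |∏ k, cb C.card (b k) - q| +
      Fintype.card (I → I → ZMod 3) * (if Bd' J e f ks G C α then 1 else 0) := by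
  have hN : (0 : ℝ) ≤ Fintype.card (I → I → ZMod 3) := Nat.cast_nonneg _
  by_cases hb : Bd' J e f ks G C α
  · rw [if_pos hb, mul_one]
    refine le_trans ?_ (le_add_of_nonneg_left (mul_nonneg hN (abs_nonneg _)))
    refine (abs_sum_le_sum_abs _ _).trans ?_
    have h1 : ∀ β ∈ (univ : Finset (I → I → ZMod 3)),
        |oneJ b (coJ f ks (mx J G (rs C α β))) - q| ≤ 1 := by
      intro β _
      have h2 := oneJ_ge b (coJ f ks (mx J G (rs C α β)))
      have h3 := oneJ_le b (coJ f ks (mx J G (rs C α β)))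
      rw [abs_le]
      constructor <;> linarith
    refine (sum_le_sum h1).trans (le_of_eq ?_)
    rw [sum_const, card_univ, nsmul_eq_mul, mul_one]
  · rw [if_neg hb, mul_zero, add_zero]
    unfold Bd' at hb
    rw [not_not] at hb
    have h1 := condJ h hC hb.1 hb.2 b
    have h2 : ∑ β : I → I → ZMod 3, oneJ b (coJ f ks (mx J G (rs C α β))) =
        Fintype.card (I → I → ZMod 3) * ∏ k, cb C.card (b k) := by
      rw [sum_oneJ, ← h1]
      exact congrArg Nat.cast fcc
    rw [sum_sub_distrib, h2, sum_const, card_univ, nsmul_eq_mul, ← mul_sub, abs_mul,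
      abs_of_nonneg hN]

/-- **The tables that are not generic are few.** -/
theorem few_J (h : Js J e f ks) (hC : C ⊆ sp J e) {n₀ L : ℕ}
    (hn₀ : n₀ = Jᶜ.card + 1 + C.card * Fintype.card κ + L)
    (hW : ∀ w : I → ZMod 3, (∀ i ∈ J, w i = 0) → w ≠ 0 →
      n₀ ≤ ((sp J e \ C).filter fun i => ∑ u, w u * G i u ≠ 0).card)
    (hV : ∀ v : I → ZMod 3, (∀ i ∈ J, v i = 0) → (∀ k, v (ks k) = 0) → v ≠ 0 →
      n₀ + 1 ≤ ((sp J e).filter fun j => ∑ u, v u * G u j ≠ 0).card)
    (hne : ∀ l l', l ≠ l' → ∃ u, u ∉ J ∧ f l u ≠ f l' u) (hA : (sp J e).Nonempty) :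
    ∑ α : I → I → ZMod 3, (if Bd' J e f ks G C α then (1 : ℝ) else 0) ≤
      Fintype.card (I → I → ZMod 3) * (Fintype.card κ * (1 / 3) ^ C.card +
        2 ^ Fintype.card κ * (1 / 3) ^ L) := by
  obtain ⟨N, hN⟩ : ∃ N : ℝ, N = Fintype.card (I → I → ZMod 3) := ⟨_, rfl⟩
  have hN0 : 0 ≤ N := by rw [hN]; positivity
  have hcol0 : ∀ B : Finset I, B.card ≤ n₀ → ∀ v : I → ZMod 3, (∀ i ∈ J, v i = 0) →
      (∀ k, v (ks k) = 0) → v ≠ 0 → ∃ j ∈ sp J e \ B, ∑ u, v u * G u j ≠ 0 := by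
    intro B hB v h1 h2 h3
    have h4 := hV v h1 h2 h3
    by_contra hc
    push Not at hc
    have h5 : (sp J e).filter (fun j => ∑ u, v u * G u j ≠ 0) ⊆ B := by
      intro j hj
      rw [mem_filter] at hj
      by_contra hjB
      exact hj.2 (hc j (mem_sdiff.2 ⟨hj.1, hjB⟩))
    have h6 := card_le_card h5
    omega
  have hw : ∀ w : I → ZMod 3, (∀ i ∈ J, w i = 0) → w ≠ 0 → ∀ k,
      ∃ i ∈ sp J (f k) \ C, ∑ u, w u * G i u ≠ 0 := by
    intro w h1 h2 k
    have h3 := hW w h1 h2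
    have h4 : 0 < ((sp J e \ C).filter fun i => ∑ u, w u * G i u ≠ 0).card := by omega
    obtain ⟨i, hi⟩ := card_pos.1 h4
    rw [mem_filter] at hi
    rw [sp_eq h k]
    exact ⟨i, hi.1, hi.2⟩
  have hU : ∀ k, (univ.filter fun y => y ∈ Sy (f k) (ks k) (sp J (f k)) (mx J G 0)).card =
      3 ^ (sp J (f k)).card := by
    intro k
    rw [sp_eq h k]
    exact card_U h (hcol0 ∅ (by rw [card_empty]; exact Nat.zero_le _)) k
  -- the parts
  obtain ⟨P1, hP1⟩ : ∃ P1 : κ → Finset (I → I → ZMod 3), P1 = fun k => univ.filter fun α =>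
      finrank (ZMod 3) (Sy (f k) (ks k) C (mx J G α)) ≠ C.card := ⟨_, rfl⟩
  obtain ⟨P2, hP2⟩ : ∃ P2 : Finset κ → Finset (I → I → ZMod 3), P2 = fun S => univ.filter fun α =>
      Bs J e f ks G C S α := ⟨_, rfl⟩
  have hsub : (univ.filter fun α : I → I → ZMod 3 => Bd' J e f ks G C α) ⊆
      (univ.biUnion P1) ∪ ((univ.filter fun S : Finset κ => 2 ≤ S.card).biUnion P2) := by
    intro α hα
    rw [mem_filter] at hα
    by_contra hc
    rw [mem_union, not_or, mem_biUnion, mem_biUnion] at hc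
    push Not at hc
    obtain ⟨c1, c2⟩ := hc
    apply hα.2
    refine ⟨fun k => ?_, ?_⟩
    · have := c1 k (mem_univ _)
      rw [hP1] at this
      beta_reduce at this
      rw [mem_filter, not_and, not_not] at this
      exact this (mem_univ _)
    · refine ji_of (fun k x hx ht => ?_) fun S hS hB => ?_
      · obtain ⟨t, ht⟩ := ht
        rw [mem_Sy] at hx
        refine const_zero (α := α) (h.ksJ k) (h.fks k) (fun w h1 h2 => hw w h1 h2 k) hx.1 hx.2.1
          (fun i hi => ?_) (t := t) (by rw [sp_eq h k]; exact ht)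
        rw [mem_sdiff] at hi
        exact hx.2.2 i (fun h' => h.ksJ k (h' ▸ (mem_sp.1 hi.1).1)) hi.2
      · have := c2 S (mem_filter.2 ⟨mem_univ _, hS⟩)
        rw [hP2] at this
        beta_reduce at this
        rw [mem_filter, not_and] at this
        exact this (mem_univ _) hB
  have h1 : ∀ k, ((P1 k).card : ℝ) ≤ N * (1 / 3) ^ C.card := by
    intro k
    rw [hP1, hN]
    exact fewD (h.ksJ k) (h.fks k) (by rw [sp_eq h k]; exact hC) (fun w g1 g2 => hw w g1 g2 k) (hU k)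
  have h2 : ∀ S ∈ (univ.filter fun S : Finset κ => 2 ≤ S.card), ((P2 S).card : ℝ) ≤
      N * (1 / 3) ^ L := by
    intro S hS
    rw [mem_filter] at hS
    obtain ⟨l, hl, l', hl', hll⟩ := one_lt_card.1 (show 1 < S.card by omega)
    obtain ⟨w, hwd⟩ : ∃ w : I → ZMod 3, w = fun u => if u ∈ J then 0 else f l u - f l' u :=
      ⟨_, rfl⟩
    have hw0 : w ≠ 0 := by
      intro h0
      obtain ⟨u, hu, hne'⟩ := hne l l' hll
      have := congrFun h0 u
      rw [hwd] at this
      beta_reduce at this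
      rw [if_neg hu, Pi.zero_apply] at this
      exact hne' (sub_eq_zero.1 this)
    have h3 := hW w (fun i hi => by rw [hwd]; exact if_pos hi) hw0
    obtain ⟨B, hB1, hB2⟩ := exists_subset_card_eq h3
    have hdif : ∀ i ∈ B, gd J (f l) G i ≠ gd J (f l') G i := by
      intro i hi h0
      have h4 := (mem_filter.1 (hB1 hi)).2
      apply h4
      rw [← sub_eq_zero.2 h0, hwd]
      unfold gd
      rw [← sum_sub_distrib]
      refine sum_congr rfl fun u _ => ?_
      beta_reduce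
      by_cases hu : u ∈ J
      · rw [if_pos hu, if_pos hu, if_pos hu]; ring
      · rw [if_neg hu, if_neg hu, if_neg hu]; ring
    have h4 := bad_few h hll hl hl' hC (hB1.trans (filter_subset _ _)) (hcol0 B hB2.le) hdif hA
    rw [hB2, hn₀] at h4
    have h5 : (P2 S).card * 3 ^ (Jᶜ.card + 1 + C.card * Fintype.card κ + L) ≤
        Fintype.card (I → I → ZMod 3) * 3 ^ (Jᶜ.card + 1 + C.card * Fintype.card κ) := by
      rw [hP2]
      refine h4.trans (Nat.mul_le_mul_left _ ?_)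
      rw [← pow_add]
      refine Nat.pow_le_pow_right (by norm_num) ?_
      have h6 : S.card - 1 ≤ Fintype.card κ := (Nat.sub_le _ _).trans (card_le_univ S)
      have h7 := Nat.mul_le_mul_left C.card h6
      omega
    rw [pow_add 3 (Jᶜ.card + 1 + C.card * Fintype.card κ) L, ← mul_assoc,
      mul_right_comm] at h5
    have h6 := Nat.le_of_mul_le_mul_right h5 (by positivity)
    rw [one_div, inv_pow, ← div_eq_mul_inv, le_div_iff₀ (by positivity), hN]
    exact_mod_cast h6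
  have h3 : ((univ.filter fun α : I → I → ZMod 3 => Bd' J e f ks G C α).card : ℝ) ≤
      ∑ k, ((P1 k).card : ℝ) + ∑ S ∈ univ.filter (fun S : Finset κ => 2 ≤ S.card),
        ((P2 S).card : ℝ) := by
    have h4 := (card_le_card hsub).trans ((card_union_le _ _).trans
      (Nat.add_le_add card_biUnion_le card_biUnion_le))
    exact_mod_cast h4
  rw [← sum_filter, sum_const, nsmul_eq_mul, mul_one, ← hN]
  refine h3.trans ?_
  have h4 : ∑ k, ((P1 k).card : ℝ) ≤ Fintype.card κ * (N * (1 / 3) ^ C.card) := by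
    refine (sum_le_sum fun k _ => h1 k).trans (le_of_eq ?_)
    rw [sum_const, card_univ, nsmul_eq_mul]
  have h5 : ∑ S ∈ univ.filter (fun S : Finset κ => 2 ≤ S.card), ((P2 S).card : ℝ) ≤
      2 ^ Fintype.card κ * (N * (1 / 3) ^ L) := by
    refine (sum_le_sum h2).trans ?_
    rw [sum_const, nsmul_eq_mul]
    refine mul_le_mul_of_nonneg_right ?_ (by positivity)
    have h6 : (univ.filter fun S : Finset κ => 2 ≤ S.card).card ≤ 2 ^ Fintype.card κ := by
      refine (card_le_univ _).trans (le_of_eq ?_)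
      rw [Fintype.card_finset]
    exact_mod_cast h6
  linarith

/-- **The covariance.** -/
theorem pairJ (h : Js J e f ks) (h' : Js J e' f' ks) (hC : C ⊆ sp J e) (hC' : ∀ i ∈ C, e' i = 0)
    {n₀ L : ℕ} (hn₀ : n₀ = Jᶜ.card + 1 + C.card * Fintype.card κ + L)
    (hW : ∀ w : I → ZMod 3, (∀ i ∈ J, w i = 0) → w ≠ 0 →
      n₀ ≤ ((sp J e \ C).filter fun i => ∑ u, w u * G i u ≠ 0).card)
    (hV : ∀ v : I → ZMod 3, (∀ i ∈ J, v i = 0) → (∀ k, v (ks k) = 0) → v ≠ 0 →
      n₀ + 1 ≤ ((sp J e).filter fun j => ∑ u, v u * G u j ≠ 0).card)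
    (hne : ∀ l l', l ≠ l' → ∃ u, u ∉ J ∧ f l u ≠ f l' u) (hA : (sp J e).Nonempty)
    (b : κ → ℕ) {q : ℝ} (hq0 : 0 ≤ q) (hq1 : q ≤ 1) :
    |∑ α : I → I → ZMod 3, (oneJ b (coJ f ks (mx J G α)) - q) *
      (oneJ b (coJ f' ks (mx J G α)) - q)| ≤
      Fintype.card (I → I → ZMod 3) * (|∏ k, cb C.card (b k) - q| +
        (Fintype.card κ * (1 / 3) ^ C.card + 2 ^ Fintype.card κ * (1 / 3) ^ L)) := by
  obtain ⟨N, hN⟩ : ∃ N : ℝ, N = Fintype.card (I → I → ZMod 3) := ⟨_, rfl⟩
  have hN0 : 0 < N := by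
    rw [hN]
    exact_mod_cast Fintype.card_pos
  rw [← hN]
  have h1 := sum_rs C (fun α => (oneJ b (coJ f ks (mx J G α)) - q) *
    (oneJ b (coJ f' ks (mx J G α)) - q))
  have h2 : ∀ α : I → I → ZMod 3, ∑ β : I → I → ZMod 3,
      (oneJ b (coJ f ks (mx J G (rs C α β))) - q) * (oneJ b (coJ f' ks (mx J G (rs C α β))) - q) =
      (∑ β : I → I → ZMod 3, (oneJ b (coJ f ks (mx J G (rs C α β))) - q)) *
        (oneJ b (coJ f' ks (mx J G α)) - q) := by
    intro α
    rw [sum_mul]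
    refine sum_congr rfl fun β _ => ?_
    have e1 : coJ f' ks (mx J G (rs C α β)) = coJ f' ks (mx J G α) := by
      funext k
      exact Q283.ND.co_rs (f' := f' k) (ks := ks k) β α (fun i hi hiJ => by
        rw [h'.fJ k i hiJ]; exact hC' i hi) (hC.trans (filter_subset _ _))
    rw [e1]
  rw [sum_congr rfl fun α _ => h2 α, ← hN] at h1
  have h3 : N * |∑ α : I → I → ZMod 3, (oneJ b (coJ f ks (mx J G α)) - q) *
      (oneJ b (coJ f' ks (mx J G α)) - q)| ≤ N * (N * (|∏ k, cb C.card (b k) - q| +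
        (Fintype.card κ * (1 / 3) ^ C.card + 2 ^ Fintype.card κ * (1 / 3) ^ L))) := by
    have e₀ : N * |∑ α : I → I → ZMod 3, (oneJ b (coJ f ks (mx J G α)) - q) *
      (oneJ b (coJ f' ks (mx J G α)) - q)| = |N * ∑ α : I → I → ZMod 3,
        (oneJ b (coJ f ks (mx J G α)) - q) * (oneJ b (coJ f' ks (mx J G α)) - q)| := by
      rw [abs_mul, abs_of_pos hN0]
    rw [e₀, ← h1]
    refine (abs_sum_le_sum_abs _ _).trans ?_
    have h4 : ∀ α ∈ (univ : Finset (I → I → ZMod 3)),
        |(∑ β : I → I → ZMod 3, (oneJ b (coJ f ks (mx J G (rs C α β))) - q)) *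
        (oneJ b (coJ f' ks (mx J G α)) - q)| ≤ N * |∏ k, cb C.card (b k) - q| +
          N * (if Bd' J e f ks G C α then 1 else 0) := by
      intro α _
      rw [abs_mul]
      have h5 := inner_absJ (G := G) h hC b hq0 hq1 α
      rw [← hN] at h5
      have h6 : |oneJ b (coJ f' ks (mx J G α)) - q| ≤ 1 := by
        have h2 := oneJ_ge b (coJ f' ks (mx J G α))
        have h3 := oneJ_le b (coJ f' ks (mx J G α))
        rw [abs_le]
        constructor <;> linarith
      calc _ ≤ |∑ β : I → I → ZMod 3, (oneJ b (coJ f ks (mx J G (rs C α β))) - q)| * 1 :=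
            mul_le_mul_of_nonneg_left h6 (abs_nonneg _)
        _ ≤ _ := by rw [mul_one]; exact h5
    refine (sum_le_sum h4).trans ?_
    rw [sum_add_distrib, sum_const, card_univ, nsmul_eq_mul, ← hN, ← mul_sum]
    have h5 := few_J (G := G) h hC hn₀ hW hV hne hA
    rw [← hN] at h5
    have h6 := mul_le_mul_of_nonneg_left h5 hN0.le
    linarith
  exact le_of_mul_le_mul_left h3 hN0

end pj

end Q283.NJ
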