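import Pool.Agent.Q283.NJ.A4

/-! Several bases: the degenerate pairs of exponents are few; the second moment -/

set_option autoImplicit false
set_option linter.unusedSectionVars false

open scoped Classical

namespace Q283.NJ

open Finset Module Filter
open Q283.ND (mx sp mem_sp fcc nc ncI off mem_off card_off one cb cb_ge cb_lim sum_pairs u3 ef NT NE
  NT_pos NE_pos diff_few)
open Q283.Q3 (cq cq_ge cq_le)

section pf
variable {I : Type} [Fintype I] {J : Finset I}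

noncomputable def ps4 (x y : ZMod 3) : ℝ := if x ≠ 0 ∧ y ≠ 0 then 1 / 4 else 1

theorem ps4_nonneg (x y : ZMod 3) : 0 ≤ ps4 x y := by
  unfold ps4
  split_ifs <;> norm_num

theorem sum_ps4 : ∑ x, ∑ y, ps4 x y = 6 := by
  rw [u3, u3, u3, u3]
  unfold ps4
  rw [if_neg (by decide), if_neg (by decide), if_neg (by decide), if_neg (by decide),
    if_pos (by decide), if_pos (by decide), if_neg (by decide), if_pos (by decide),
    if_pos (by decide)]
  norm_num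

/-- **The degenerate pairs are few.** -/
theorem pairs_few7 (Ok : (I → ZMod 3) → Prop) (T : (I → ZMod 3) → I → Prop) (R c : ℕ)
    (hT : ∀ w ∈ off J, Ok w → 7 * Jᶜ.card + R ≤ (J.filter fun i => T w i).card)
    (B : (I → ZMod 3) → (I → ZMod 3) → Prop)
    (hB : ∀ e e', B e e' → ∃ w ∈ off J, Ok w ∧
      (J.filter fun i => T w i ∧ e i ≠ 0 ∧ e' i ≠ 0).card < Jᶜ.card + c) :
    ∑ e : I → ZMod 3, ∑ e' : I → ZMod 3, (if B e e' then (1 : ℝ) else 0) ≤
      (Fintype.card (I → ZMod 3) : ℝ) ^ 2 * (4 ^ c * (2 / 3) ^ R) := by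
  obtain ⟨u, hu⟩ : ∃ u, u = Jᶜ.card := ⟨_, rfl⟩
  have h1 : ∀ e e' : I → ZMod 3, (if B e e' then (1 : ℝ) else 0) ≤
      ∑ w ∈ (off J).filter Ok, 4 ^ (u + c) * ∏ i ∈ J.filter (fun i => T w i), ps4 (e i) (e' i) := by
    intro e e'
    split_ifs with h
    · obtain ⟨w, hw, hw0, h2⟩ := hB e e' h
      have h3 : ∏ i ∈ J.filter (fun i => T w i), ps4 (e i) (e' i) =
          (1 / 4) ^ (J.filter fun i => T w i ∧ e i ≠ 0 ∧ e' i ≠ 0).card := by
        unfold ps4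
        rw [prod_ite, prod_const, prod_const_one, mul_one, filter_filter]
      have h4 : (1 : ℝ) ≤ 4 ^ (u + c) * ∏ i ∈ J.filter (fun i => T w i), ps4 (e i) (e' i) := by
        rw [h3]
        have h5 : (1 / 4 : ℝ) ^ (u + c) ≤
            (1 / 4) ^ (J.filter fun i => T w i ∧ e i ≠ 0 ∧ e' i ≠ 0).card :=
          pow_le_pow_of_le_one (by norm_num) (by norm_num) (by rw [hu]; exact h2.le)
        have h6 : (4 : ℝ) ^ (u + c) * (1 / 4) ^ (u + c) = 1 := by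
          rw [← mul_pow]
          norm_num
        calc (1 : ℝ) = 4 ^ (u + c) * (1 / 4) ^ (u + c) := h6.symm
          _ ≤ _ := mul_le_mul_of_nonneg_left h5 (by positivity)
      refine h4.trans ?_
      exact single_le_sum (f := fun w => 4 ^ (u + c) * ∏ i ∈ J.filter (fun i => T w i),
        ps4 (e i) (e' i)) (fun w _ => mul_nonneg (by positivity)
          (prod_nonneg fun i _ => ps4_nonneg _ _)) (mem_filter.2 ⟨hw, hw0⟩)
    · exact sum_nonneg fun w _ => mul_nonneg (by positivity) (prod_nonneg fun i _ => ps4_nonneg _ _)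
  refine (sum_le_sum fun e _ => sum_le_sum fun e' _ => h1 e e').trans ?_
  have h2 : ∑ e : I → ZMod 3, ∑ e' : I → ZMod 3, ∑ w ∈ (off J).filter Ok,
      4 ^ (u + c) * ∏ i ∈ J.filter (fun i => T w i), ps4 (e i) (e' i) =
      ∑ w ∈ (off J).filter Ok, 4 ^ (u + c) * ∑ e : I → ZMod 3, ∑ e' : I → ZMod 3,
      ∏ i ∈ J.filter (fun i => T w i), ps4 (e i) (e' i) := by
    rw [sum_congr rfl fun e _ => sum_comm]
    rw [sum_comm]
    refine sum_congr rfl fun w _ => ?_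
    rw [mul_sum]
    exact sum_congr rfl fun e _ => (mul_sum _ _ _).symm
  rw [h2]
  have h3 : ∀ w ∈ (off J).filter Ok, (4 : ℝ) ^ (u + c) * ∑ e : I → ZMod 3, ∑ e' : I → ZMod 3,
      ∏ i ∈ J.filter (fun i => T w i), ps4 (e i) (e' i) ≤
      4 ^ (u + c) * ((Fintype.card (I → ZMod 3) : ℝ) ^ 2 * (2 / 3) ^ (7 * u + R)) := by
    intro w hw
    rw [mem_filter] at hw
    refine mul_le_mul_of_nonneg_left ?_ (by positivity)
    rw [sum_pairs, sum_ps4]
    refine mul_le_mul_of_nonneg_left ?_ (by positivity)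
    have e1 : (6 / 9 : ℝ) = 2 / 3 := by norm_num
    rw [e1]
    refine pow_le_pow_of_le_one (by norm_num) (by norm_num) ?_
    rw [hu]
    exact hT w hw.1 hw.2
  refine (sum_le_sum h3).trans ?_
  rw [sum_const, nsmul_eq_mul]
  have h4 : (((off J).filter Ok).card : ℝ) ≤ 3 ^ u := by
    have h5 := card_filter_le (off J) Ok
    rw [card_off, ← hu] at h5
    exact_mod_cast h5
  have h5 : (3 : ℝ) ^ u * (4 ^ (u + c) * (2 / 3) ^ (7 * u + R)) ≤ 4 ^ c * (2 / 3) ^ R := by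
    have e1 : (3 : ℝ) ^ u * (4 ^ (u + c) * (2 / 3) ^ (7 * u + R)) =
        (3 * 4 * (2 / 3) ^ 7) ^ u * (4 ^ c * (2 / 3) ^ R) := by
      rw [pow_add, pow_add, pow_mul, mul_pow, mul_pow]
      ring
    rw [e1]
    refine mul_le_of_le_one_left (by positivity) (pow_le_one₀ (by norm_num) (by norm_num))
  calc (((off J).filter Ok).card : ℝ) *
        (4 ^ (u + c) * ((Fintype.card (I → ZMod 3) : ℝ) ^ 2 * (2 / 3) ^ (7 * u + R)))
      ≤ 3 ^ u * (4 ^ (u + c) * ((Fintype.card (I → ZMod 3) : ℝ) ^ 2 * (2 / 3) ^ (7 * u + R))) :=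
        mul_le_mul_of_nonneg_right h4 (by positivity)
    _ = (Fintype.card (I → ZMod 3) : ℝ) ^ 2 * (3 ^ u * (4 ^ (u + c) * (2 / 3) ^ (7 * u + R))) := by
        ring
    _ ≤ _ := mul_le_mul_of_nonneg_left h5 (by positivity)

end pf

section ex
variable {I κ : Type} [Fintype I] [Fintype κ] {J P : Finset I} {ks : κ → I} {G : I → I → ZMod 3}
  {m : κ → I → ZMod 3}

/-- the data of a box -/
structure DatJ (J P : Finset I) (ks : κ → I) (G : I → I → ZMod 3) (m : κ → I → ZMod 3) (R : ℕ) :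
    Prop where
  sub : J ⊆ P
  ksP : ∀ k, ks k ∉ P
  mks : ∀ k, m k (ks k) ≠ 0
  mJ : ∀ k, ∀ i ∈ J, m k i = 0
  ksl : ∀ k l, ks l ≠ ks k → m k (ks l) = 0
  hv : ∀ v ∈ off J, ((∀ k, v (ks k) = 0) ∧ v ≠ 0) → 7 * Jᶜ.card + R ≤
    (J.filter fun i => ∑ u, v u * G u i ≠ 0).card
  hw : ∀ w ∈ off J, w ≠ 0 → 7 * Jᶜ.card + R ≤ (J.filter fun i => ∑ u, w u * G i u ≠ 0).card
  hJ : R ≤ J.card
  ne : ∀ l l', l ≠ l' → m l ≠ m l'

theorem js_ef {R : ℕ} (h : DatJ J P ks G m R) (e : I → ZMod 3) :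
    Js J e (fun k => ef P (m k) e) ks where
  ksJ := fun k hk => h.ksP k (h.sub hk)
  fks := fun k => by
    unfold ef
    rw [if_neg (h.ksP k), zero_add]
    exact h.mks k
  fJ := fun k j hj => by
    unfold ef
    rw [if_pos (h.sub hj), h.mJ k j hj, add_zero]
  ksl := fun k l hkl => by
    unfold ef
    rw [if_neg (h.ksP l), zero_add]
    exact h.ksl k l hkl

/-- the product of the laws -/
noncomputable def qJ (b : κ → ℕ) : ℝ := ∏ k, cq (b k)

theorem qJ_ge (b : κ → ℕ) : 0 ≤ qJ b := prod_nonneg fun _ _ => cq_ge _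

theorem qJ_le (b : κ → ℕ) : qJ b ≤ 1 := prod_le_one (fun _ _ => cq_ge _) fun _ _ => cq_le _

theorem cb_limJ (b : κ → ℕ) (ε : ℝ) (hε : 0 < ε) : ∃ s₀ : ℕ, ∀ s : ℕ, s₀ ≤ s →
    |∏ k, cb s (b k) - qJ b| ≤ ε := by
  have h1 : ∀ k, Tendsto (fun s => cb s (b k)) atTop (nhds (cq (b k))) := by
    intro k
    rw [Metric.tendsto_atTop]
    intro η hη
    obtain ⟨s₀, h⟩ := cb_lim (b k) (η / 2) (by positivity)
    exact ⟨s₀, fun s hs => by rw [Real.dist_eq]; linarith [h s hs]⟩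
  have h2 := tendsto_finsetProd univ fun k _ => h1 k
  rw [Metric.tendsto_atTop] at h2
  obtain ⟨s₀, h3⟩ := h2 ε hε
  refine ⟨s₀, fun s hs => ?_⟩
  have h4 := h3 s hs
  rw [Real.dist_eq] at h4
  exact h4.le

/-- the covariance of two exponents -/
noncomputable def cvJ (J P : Finset I) (ks : κ → I) (G : I → I → ZMod 3) (m : κ → I → ZMod 3)
    (b : κ → ℕ) (e e' : I → ZMod 3) : ℝ :=
  ∑ α : I → I → ZMod 3, (oneJ b (coJ (fun k => ef P (m k) e) ks (mx J G α)) - qJ b) *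
    (oneJ b (coJ (fun k => ef P (m k) e') ks (mx J G α)) - qJ b)

theorem abs_oneJ_sub (b n : κ → ℕ) : |oneJ b n - qJ b| ≤ 1 := by
  have h1 := oneJ_ge b n
  have h2 := oneJ_le b n
  have h3 := qJ_ge b
  have h4 := qJ_le b
  rw [abs_le]
  constructor <;> linarith

theorem cvJ_triv (b : κ → ℕ) (e e' : I → ZMod 3) : |cvJ J P ks G m b e e'| ≤ NT I := by
  unfold cvJ NT
  refine (abs_sum_le_sum_abs _ _).trans ?_
  have h1 : ∀ α ∈ (univ : Finset (I → I → ZMod 3)),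
      |(oneJ b (coJ (fun k => ef P (m k) e) ks (mx J G α)) - qJ b) *
        (oneJ b (coJ (fun k => ef P (m k) e') ks (mx J G α)) - qJ b)| ≤ 1 := by
    intro α _
    rw [abs_mul]
    exact mul_le_one₀ (abs_oneJ_sub _ _) (abs_nonneg _) (abs_oneJ_sub _ _)
  refine (sum_le_sum h1).trans (le_of_eq ?_)
  rw [sum_const, card_univ, nsmul_eq_mul, mul_one]

/-- the degenerate pairs -/
def bWJ (J : Finset I) (G : I → I → ZMod 3) (c : ℕ) (e e' : I → ZMod 3) : Prop :=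
  ∃ w ∈ off J, w ≠ 0 ∧
    (J.filter fun i => (∑ u, w u * G i u ≠ 0) ∧ e i ≠ 0 ∧ e' i ≠ 0).card < Jᶜ.card + c

def bVJ (J : Finset I) (ks : κ → I) (G : I → I → ZMod 3) (c : ℕ) (e e' : I → ZMod 3) : Prop :=
  ∃ v ∈ off J, ((∀ k, v (ks k) = 0) ∧ v ≠ 0) ∧
    (J.filter fun i => (∑ u, v u * G u i ≠ 0) ∧ e i ≠ 0 ∧ e' i ≠ 0).card < Jᶜ.card + c

theorem cvJ_good {R : ℕ} (h : DatJ J P ks G m R) (b : κ → ℕ) {δ : ℝ} {s L : ℕ}
    (hs : |∏ k, cb s (b k) - qJ b| + (Fintype.card κ * (1 / 3) ^ s +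
      2 ^ Fintype.card κ * (1 / 3) ^ L) ≤ δ) {e e' : I → ZMod 3}
    (h1 : ¬ bWJ J G (1 + s * Fintype.card κ + L + 1) e e')
    (h2 : ¬ bVJ J ks G (1 + s * Fintype.card κ + L + 1) e e')
    (h3 : ¬ (J.filter fun i => e i ≠ 0 ∧ e' i = 0).card < s) (hA : ∃ j ∈ J, e j ≠ 0) :
    |cvJ J P ks G m b e e'| ≤ NT I * δ := by
  obtain ⟨C, hC1, hC2⟩ := exists_subset_card_eq (not_lt.1 h3)
  have hCm : ∀ i ∈ C, i ∈ J ∧ e i ≠ 0 ∧ e' i = 0 := fun i hi => mem_filter.1 (hC1 hi)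
  obtain ⟨j, hj, hj0⟩ := hA
  have h4 := pairJ (G := G) (C := C) (L := L) (js_ef h e) (js_ef h e')
    (fun i hi => mem_sp.2 ⟨(hCm i hi).1, (hCm i hi).2.1⟩) (fun i hi => (hCm i hi).2.2)
    (n₀ := Jᶜ.card + 1 + C.card * Fintype.card κ + L) rfl
    (fun w g1 g2 => ?_) (fun v g1 g2 g3 => ?_) (fun l l' hl => ?_) ⟨j, mem_sp.2 ⟨hj, hj0⟩⟩ b
    (qJ_ge b) (qJ_le b)
  · unfold cvJ NT
    refine h4.trans (mul_le_mul_of_nonneg_left ?_ (Nat.cast_nonneg _))
    rw [hC2]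
    exact hs
  · by_contra hlt
    apply h1
    refine ⟨w, mem_off.2 g1, g2, ?_⟩
    rw [not_le] at hlt
    have g3 : (J.filter fun i => (∑ u, w u * G i u ≠ 0) ∧ e i ≠ 0 ∧ e' i ≠ 0).card ≤
        ((sp J e \ C).filter fun i => ∑ u, w u * G i u ≠ 0).card := by
      refine card_le_card fun i hi => ?_
      rw [mem_filter] at hi
      rw [mem_filter]
      exact ⟨mem_sdiff.2 ⟨mem_sp.2 ⟨hi.1, hi.2.2.1⟩, fun hiC => hi.2.2.2 (hCm i hiC).2.2⟩, hi.2.1⟩
    rw [hC2] at hlt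
    omega
  · by_contra hlt
    apply h2
    refine ⟨v, mem_off.2 g1, ⟨g2, g3⟩, ?_⟩
    rw [not_le] at hlt
    have g4 : (J.filter fun i => (∑ u, v u * G u i ≠ 0) ∧ e i ≠ 0 ∧ e' i ≠ 0).card ≤
        ((sp J e).filter fun i => ∑ u, v u * G u i ≠ 0).card := by
      refine card_le_card fun i hi => ?_
      rw [mem_filter] at hi
      rw [mem_filter, mem_sp]
      exact ⟨⟨hi.1, hi.2.2.1⟩, hi.2.1⟩
    rw [hC2] at hlt
    omega
  · obtain ⟨u, hu⟩ := Function.ne_iff.1 (h.ne l l' hl)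
    have huJ : u ∉ J := by
      intro hu'
      rw [h.mJ l u hu', h.mJ l' u hu'] at hu
      exact hu rfl
    refine ⟨u, huJ, fun h0 => hu ?_⟩
    unfold ef at h0
    exact add_left_cancel h0

theorem cvJ_le {R : ℕ} (h : DatJ J P ks G m R) (b : κ → ℕ) {δ : ℝ} (hδ : 0 ≤ δ) {s L : ℕ}
    (hs : |∏ k, cb s (b k) - qJ b| + (Fintype.card κ * (1 / 3) ^ s +
      2 ^ Fintype.card κ * (1 / 3) ^ L) ≤ δ) (hs1 : 1 ≤ s) (e e' : I → ZMod 3) :
    cvJ J P ks G m b e e' ≤ NT I * (δ +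
      ((if bWJ J G (1 + s * Fintype.card κ + L + 1) e e' then (1 : ℝ) else 0) +
      (if bVJ J ks G (1 + s * Fintype.card κ + L + 1) e e' then (1 : ℝ) else 0) +
      (if (J.filter fun i => e i ≠ 0 ∧ e' i = 0).card < s then (1 : ℝ) else 0))) := by
  have hN := NT_pos I
  have h0 := (le_abs_self _).trans (cvJ_triv (J := J) (P := P) (ks := ks) (G := G) (m := m) b e e')
  by_cases h1 : bWJ J G (1 + s * Fintype.card κ + L + 1) e e'
  · rw [if_pos h1]
    refine h0.trans ?_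
    have : (0 : ℝ) ≤ (if bVJ J ks G (1 + s * Fintype.card κ + L + 1) e e' then (1 : ℝ) else 0) +
      (if (J.filter fun i => e i ≠ 0 ∧ e' i = 0).card < s then (1 : ℝ) else 0) := by
      split_ifs <;> norm_num
    nlinarith
  by_cases h2 : bVJ J ks G (1 + s * Fintype.card κ + L + 1) e e'
  · rw [if_neg h1, if_pos h2]
    refine h0.trans ?_
    have : (0 : ℝ) ≤
      (if (J.filter fun i => e i ≠ 0 ∧ e' i = 0).card < s then (1 : ℝ) else 0) := by
      split_ifs <;> norm_num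
    nlinarith
  by_cases h3 : (J.filter fun i => e i ≠ 0 ∧ e' i = 0).card < s
  · rw [if_neg h1, if_neg h2, if_pos h3]
    refine h0.trans ?_
    nlinarith
  · rw [if_neg h1, if_neg h2, if_neg h3, zero_add, zero_add, add_zero]
    have h4 : 0 < (J.filter fun i => e i ≠ 0 ∧ e' i = 0).card := by omega
    obtain ⟨j, hj⟩ := card_pos.1 h4
    rw [mem_filter] at hj
    exact (le_abs_self _).trans (cvJ_good h b hs h1 h2 h3 ⟨j, hj.1, hj.2.1⟩)

end ex

end Q283.NJ
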