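import Pool.Agent.Q283.NJ.B1
import Pool.Agent.Q283.ND.Le

/-! Several bases: the second moment and the local theorem -/

set_option autoImplicit false
set_option linter.unusedSectionVars false

open scoped Classical

namespace Q283.NJ

open Finset Module Filter
open Q283.ND (mx sp mem_sp fcc nc ncI off mem_off card_off one cb cb_ge cb_lim sum_pairs u3 ef NT NE
  NT_pos NE_pos diff_few markov)
open Q283.Q3 (cq cq_ge cq_le)

/-- **The second moment.** -/
theorem secondJ (κ : Type) [Fintype κ] (b : κ → ℕ) (δ : ℝ) (hδ : 0 < δ) : ∃ R₀ : ℕ, ∀ R : ℕ, R₀ ≤ R →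
    ∀ (I : Type) [Fintype I] (J P : Finset I) (ks : κ → I) (G : I → I → ZMod 3)
      (m : κ → I → ZMod 3) (A : Finset (I → ZMod 3)), DatJ J P ks G m R →
    ∑ α : I → I → ZMod 3, (∑ e ∈ A, (oneJ b (coJ (fun k => ef P (m k) e) ks (mx J G α)) - qJ b)) ^ 2 ≤
      NT I * (δ * NE I ^ 2) := by
  obtain ⟨s₁, hs₁⟩ := cb_limJ b (δ / 8) (by linarith)
  obtain ⟨s₂, hs₂⟩ := exists_pow_lt_of_lt_one
    (show (0 : ℝ) < δ / 8 / (Fintype.card κ + 1) by positivity) (show (1 / 3 : ℝ) < 1 by norm_num)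
  obtain ⟨L, hL⟩ := exists_pow_lt_of_lt_one
    (show (0 : ℝ) < δ / 8 / 2 ^ Fintype.card κ by positivity) (show (1 / 3 : ℝ) < 1 by norm_num)
  obtain ⟨s, hs₀⟩ : ∃ s, s = max 1 (max s₁ s₂) := ⟨_, rfl⟩
  have hs1 : 1 ≤ s := hs₀ ▸ le_max_left _ _
  have hs : |∏ k, cb s (b k) - qJ b| + (Fintype.card κ * (1 / 3) ^ s +
      2 ^ Fintype.card κ * (1 / 3) ^ L) ≤ δ / 2 := by
    have h1 := hs₁ s ((le_max_left _ _).trans ((le_max_right _ _).trans hs₀.ge))
    have h2 : (1 / 3 : ℝ) ^ s ≤ (1 / 3) ^ s₂ := pow_le_pow_of_le_one (by norm_num) (by norm_num)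
      ((le_max_right _ _).trans ((le_max_right _ _).trans hs₀.ge))
    have h3 : (Fintype.card κ : ℝ) * (1 / 3) ^ s ≤ δ / 8 := by
      have h4 := h2.trans hs₂.le
      rw [le_div_iff₀ (by positivity)] at h4
      have h5 : (0 : ℝ) < (1 / 3) ^ s := by positivity
      nlinarith
    have h4 : 2 ^ Fintype.card κ * (1 / 3 : ℝ) ^ L ≤ δ / 8 := by
      have h5 := hL.le
      rw [le_div_iff₀ (by positivity)] at h5
      linarith
    linarith
  obtain ⟨c, hc⟩ : ∃ c, c = 1 + s * Fintype.card κ + L + 1 := ⟨_, rfl⟩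
  obtain ⟨R₁, hR₁⟩ := exists_pow_lt_of_lt_one (show (0 : ℝ) < δ / 6 / 4 ^ c by positivity)
    (show (2 / 3 : ℝ) < 1 by norm_num)
  obtain ⟨R₃, hR₃⟩ := exists_pow_lt_of_lt_one (show (0 : ℝ) < δ / 6 / 2 ^ s by positivity)
    (show (8 / 9 : ℝ) < 1 by norm_num)
  refine ⟨max R₁ R₃, fun R hR I _ J P ks G m A h => ?_⟩
  have g1 : (4 : ℝ) ^ c * (2 / 3) ^ R ≤ δ / 6 := by
    have h1 : (2 / 3 : ℝ) ^ R ≤ δ / 6 / 4 ^ c := (pow_le_pow_of_le_one (by norm_num) (by norm_num)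
      ((le_max_left _ _).trans hR)).trans hR₁.le
    rw [le_div_iff₀ (by positivity)] at h1
    linarith
  have g3 : (2 : ℝ) ^ s * (8 / 9) ^ J.card ≤ δ / 6 := by
    have h1 : (8 / 9 : ℝ) ^ J.card ≤ δ / 6 / 2 ^ s :=
      (pow_le_pow_of_le_one (by norm_num) (by norm_num)
      (((le_max_right _ _).trans hR).trans h.hJ)).trans hR₃.le
    rw [le_div_iff₀ (by positivity)] at h1
    linarith
  have hN := NT_pos I
  have hE := NE_pos I
  have e1 : ∑ α : I → I → ZMod 3,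
      (∑ e ∈ A, (oneJ b (coJ (fun k => ef P (m k) e) ks (mx J G α)) - qJ b)) ^ 2 =
      ∑ e ∈ A, ∑ e' ∈ A, cvJ J P ks G m b e e' := by
    unfold cvJ
    have h1 : ∀ α : I → I → ZMod 3,
        (∑ e ∈ A, (oneJ b (coJ (fun k => ef P (m k) e) ks (mx J G α)) - qJ b)) ^ 2 =
        ∑ e ∈ A, ∑ e' ∈ A, (oneJ b (coJ (fun k => ef P (m k) e) ks (mx J G α)) - qJ b) *
          (oneJ b (coJ (fun k => ef P (m k) e') ks (mx J G α)) - qJ b) := by
      intro α
      rw [pow_two, sum_mul_sum]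
    rw [sum_congr rfl fun α _ => h1 α, sum_comm]
    refine sum_congr rfl fun e _ => ?_
    rw [sum_comm]
  rw [e1]
  have h2 : ∑ e ∈ A, ∑ e' ∈ A, cvJ J P ks G m b e e' ≤
      ∑ e : I → ZMod 3, ∑ e' : I → ZMod 3, NT I * (δ / 2 +
      ((if bWJ J G c e e' then (1 : ℝ) else 0) +
      (if bVJ J ks G c e e' then (1 : ℝ) else 0) +
      (if (J.filter fun i => e i ≠ 0 ∧ e' i = 0).card < s then (1 : ℝ) else 0))) := by
    have h3 : ∀ e e' : I → ZMod 3, 0 ≤ NT I * (δ / 2 + ((if bWJ J G c e e' then (1 : ℝ) else 0) +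
      (if bVJ J ks G c e e' then (1 : ℝ) else 0) +
      (if (J.filter fun i => e i ≠ 0 ∧ e' i = 0).card < s then (1 : ℝ) else 0))) := by
      intro e e'
      refine mul_nonneg hN.le ?_
      split_ifs <;> linarith
    refine le_trans (sum_le_sum fun e _ => ?_) (sum_le_sum_of_subset_of_nonneg (subset_univ A)
      fun e _ _ => sum_nonneg fun e' _ => h3 e e')
    refine le_trans (sum_le_sum fun e' _ => ?_)
      (sum_le_sum_of_subset_of_nonneg (subset_univ A) fun e' _ _ => h3 e e')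
    rw [hc]
    exact cvJ_le h b (by linarith) hs hs1 e e'
  refine h2.trans ?_
  simp_rw [← mul_sum, sum_add_distrib]
  refine mul_le_mul_of_nonneg_left ?_ hN.le
  have k1 := pairs_few7 (J := J) (fun w => w ≠ 0) (fun w i => ∑ u, w u * G i u ≠ 0) R c
    (fun w h1 h2 => (h.hw w h1 h2).trans (le_of_eq fcc)) (bWJ J G c) (fun e e' hb => by
      obtain ⟨w, hw1, hw2, hw3⟩ := hb
      exact ⟨w, hw1, hw2, lt_of_le_of_lt (le_of_eq fcc) hw3⟩)
  have k2 := pairs_few7 (J := J) (fun v => (∀ k, v (ks k) = 0) ∧ v ≠ 0)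
    (fun v i => ∑ u, v u * G u i ≠ 0) R c
    (fun v h1 h2 => (h.hv v h1 h2).trans (le_of_eq fcc)) (bVJ J ks G c) (fun e e' hb => by
      obtain ⟨w, hw1, hw2, hw3⟩ := hb
      exact ⟨w, hw1, hw2, lt_of_le_of_lt (le_of_eq fcc) hw3⟩)
  have k3 := diff_few (J := J) s
  have k1' : ∑ e : I → ZMod 3, ∑ e' : I → ZMod 3, (if bWJ J G c e e' then (1 : ℝ) else 0) ≤
      NE I ^ 2 * (δ / 6) := k1.trans (mul_le_mul_of_nonneg_left g1 (by positivity))
  have k2' : ∑ e : I → ZMod 3, ∑ e' : I → ZMod 3, (if bVJ J ks G c e e' then (1 : ℝ) else 0) ≤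
      NE I ^ 2 * (δ / 6) := k2.trans (mul_le_mul_of_nonneg_left g1 (by positivity))
  have k3' : ∑ e : I → ZMod 3, ∑ e' : I → ZMod 3,
      (if (J.filter fun i => e i ≠ 0 ∧ e' i = 0).card < s then (1 : ℝ) else 0) ≤
      NE I ^ 2 * (δ / 6) := k3.trans (mul_le_mul_of_nonneg_left g3 (by positivity))
  have k4 : ∑ _e : I → ZMod 3, ∑ _e' : I → ZMod 3, δ / 2 = NE I ^ 2 * (δ / 2) := by
    unfold NE
    simp only [sum_const, card_univ, nsmul_eq_mul]
    ring
  rw [k4]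
  linarith

/-- all shares of the family are within `ε` of the product law -/
def GoodJ {E κ : Type} [Fintype κ] (B : ℕ) (ε : ℝ) (A : Finset E) (g : E → κ → ℕ) : Prop :=
  ∀ b : κ → ℕ, (∀ k, b k < B) → |∑ e ∈ A, (oneJ b (g e) - qJ b)| ≤ ε * A.card

theorem GoodJ.mono {E κ : Type} [Fintype κ] {B B' : ℕ} {ε ε' : ℝ} {A : Finset E} {g : E → κ → ℕ}
    (h : GoodJ B ε A g) (hB : B' ≤ B) (hε : ε ≤ ε') : GoodJ B' ε' A g := by
  have h1 : ε * A.card ≤ ε' * A.card := mul_le_mul_of_nonneg_right hε (Nat.cast_nonneg _)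
  exact fun b hb => (h b fun k => lt_of_lt_of_le (hb k) hB).trans h1

/-- **The local theorem.** -/
theorem locJ (κ : Type) [Fintype κ] (B : ℕ) (ε : ℝ) (hε : 0 < ε) : ∃ R₀ : ℕ, ∀ R : ℕ, R₀ ≤ R →
    ∀ (I : Type) [Fintype I] (J P : Finset I) (ks : κ → I) (G : I → I → ZMod 3)
      (m : κ → I → ZMod 3) (A : Finset (I → ZMod 3)), DatJ J P ks G m R → NE I ≤ 3 * A.card →
    ((univ.filter fun α : I → I → ZMod 3 =>
      ¬ GoodJ B ε A (fun e => coJ (fun k => ef P (m k) e) ks (mx J G α))).card : ℝ) ≤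
      ε * NT I := by
  obtain ⟨Q, hQ⟩ : ∃ Q : Finset (κ → ℕ), Q = Fintype.piFinset fun _ => range B := ⟨_, rfl⟩
  obtain ⟨δ, hδ⟩ : ∃ δ : ℝ, δ = ε * ε ^ 2 / (9 * (Q.card + 1)) := ⟨_, rfl⟩
  have hδ0 : 0 < δ := by rw [hδ]; positivity
  choose R₁ hR₁ using fun b => secondJ κ b δ hδ0
  refine ⟨Q.sup R₁, fun R hR I _ J P ks G m A h hA => ?_⟩
  have hN := NT_pos I
  have hE := NE_pos I
  have hA0 : (0 : ℝ) < A.card := by linarith
  obtain ⟨a, ha⟩ : ∃ a : ℝ, a = A.card := ⟨_, rfl⟩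
  rw [← ha] at hA hA0
  obtain ⟨S, hS⟩ : ∃ S : (κ → ℕ) → (I → I → ZMod 3) → ℝ, S = fun b α =>
    ∑ e ∈ A, (oneJ b (coJ (fun k => ef P (m k) e) ks (mx J G α)) - qJ b) := ⟨_, rfl⟩
  have h1 : (univ.filter fun α : I → I → ZMod 3 =>
      ¬ GoodJ B ε A (fun e => coJ (fun k => ef P (m k) e) ks (mx J G α))) ⊆
      Q.biUnion fun b => univ.filter fun α => ε * a < |S b α| := by
    intro α hα
    rw [mem_filter] at hα
    have h2 := hα.2
    unfold GoodJ at h2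
    push Not at h2
    obtain ⟨b, hb, h3⟩ := h2
    rw [mem_biUnion]
    refine ⟨b, ?_, mem_filter.2 ⟨mem_univ _, ?_⟩⟩
    · rw [hQ, Fintype.mem_piFinset]
      exact fun k => mem_range.2 (hb k)
    · rw [ha, hS]
      exact h3
  have h2 : ∀ b ∈ Q, ((univ.filter fun α => ε * a < |S b α|).card : ℝ) ≤
      ε / (Q.card + 1) * NT I := by
    intro b hb
    have h3 := hR₁ b R ((le_sup (f := R₁) hb).trans hR) I J P ks G m A h
    have h4 := markov (F := fun α => (S b α) ^ 2) (fun α => sq_nonneg _)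
      (t := (ε * a) ^ 2) (X := NT I * (δ * NE I ^ 2)) (by rw [hS]; exact h3)
      (fun α => ε * a < |S b α|) (fun α hα => by
        rw [← sq_abs (S b α)]
        exact pow_le_pow_left₀ (by positivity) hα.le 2)
    have h5 : NE I ^ 2 ≤ 9 * a ^ 2 := by nlinarith
    have h6 : NT I * (δ * NE I ^ 2) ≤ (ε / (Q.card + 1) * NT I) * (ε * a) ^ 2 := by
      calc NT I * (δ * NE I ^ 2) ≤ NT I * (δ * (9 * a ^ 2)) := by gcongr
        _ = (ε / (Q.card + 1) * NT I) * (ε * a) ^ 2 := by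
          rw [hδ]
          field_simp
    have h7 : (0 : ℝ) < (ε * a) ^ 2 := by positivity
    exact le_of_mul_le_mul_right (h4.trans h6) h7
  have h3 : ((univ.filter fun α : I → I → ZMod 3 =>
      ¬ GoodJ B ε A (fun e => coJ (fun k => ef P (m k) e) ks (mx J G α))).card : ℝ) ≤
      ∑ b ∈ Q, ((univ.filter fun α => ε * a < |S b α|).card : ℝ) := by
    have h4 := (card_le_card h1).trans card_biUnion_le
    exact_mod_cast h4
  refine h3.trans ((sum_le_sum h2).trans ?_)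
  rw [sum_const, nsmul_eq_mul]
  have h4 : (Q.card : ℝ) * (ε / (Q.card + 1) * NT I) =
      (Q.card / (Q.card + 1)) * (ε * NT I) := by
    field_simp
  rw [h4]
  refine mul_le_of_le_one_left (by positivity) ?_
  rw [div_le_one (by positivity)]
  linarith

end Q283.NJ
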