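import Pool.Agent.Q283.ND.Bz
import Pool.Agent.Q283.NJ.C1
import Pool.Agent.Y911.CX.KEY

/-! The sum over the boxes, for any condition on the labels (after `Pool.Agent.Y911.CX.KEY` of
helper911) -/

set_option autoImplicit false

open scoped Classical

namespace Q283.NJ

open Finset
open Pool.Agent.Y703.CX
open Pool.Agent.Y699.E (ez)
open Pool.Agent.Y911.CX (ph ky KP rr_iff CC mem_CC sm_fill la_fill key_bij CC_facts hb_box
  prs_card card_sub TT mem_TT harm_TT rr_facts inj_ph)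

/-- the statement for the boxes -/
def BXG (W : Finset ℕ) (Nd : Finset ℕ → Finset ℕ → Prop) (a : ℕ) (G : Finset ℕ → Prop) (δ : ℝ) :
    Prop :=
  ∀ (ι : Type) [Fintype ι] (J1 : Finset ι)
  (C : ι → Finset ℕ) (X : ι → ℕ) (κ9 : ι → ℕ) (κ : ℝ) (S₀ : Finset ℕ), 0 ≤ κ →
  (∀ i, (C i).card ≤ X i) →
  HB J1 C X κ → (∀ u ∈ S₀, u.Prime ∧ u ≠ 3) → a ∈ S₀ →
  (∀ i, ∀ p ∈ C i, p.Prime ∧ p ∉ S₀ ∪ W ∧ (i ∈ J1 → p % 3 = 1) ∧ (i ∉ J1 → p % 3 = 2)) →
  (∀ i, ∀ p ∈ C i, p % 9 = κ9 i) →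
  (∀ i l, i ≠ l → Disjoint (C i) (C l)) →
  (S₀.filter fun p => p % 3 = 2).card + (univ \ J1).card = 1 →
  |(((Fintype.piFinset C).filter fun p => Nd S₀ (univ.image p) ∧
      G (S₀ ∪ univ.image p)).card : ℝ) -
      1 * (((Fintype.piFinset C).filter fun p => Nd S₀ (univ.image p)).card : ℝ)| ≤
    δ * (((Fintype.piFinset C).filter fun p => Nd S₀ (univ.image p)).card : ℝ) +
    3 ^ (2 * (S₀ ∪ W).card * Fintype.card ι + (prs J1).card) * (κ * ∏ j, (X j : ℝ))

theorem box_dec {W : Finset ℕ} {Nd : Finset ℕ → Finset ℕ → Prop} {a : ℕ} {G : Finset ℕ → Prop} {δ : ℝ} (hB : BXG W Nd a G δ)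
    (ι : Type) [Fintype ι] [inst : DecidableEq ι] (J1 : Finset ι)
    (C : ι → Finset ℕ) (X : ι → ℕ) (κ9 : ι → ℕ) (κ : ℝ) (S₀ : Finset ℕ) (h1 : 0 ≤ κ)
    (h2 : ∀ i, (C i).card ≤ X i) (h3 : HB J1 C X κ) (h4 : ∀ u ∈ S₀, u.Prime ∧ u ≠ 3)
    (h4' : a ∈ S₀)
    (h5 : ∀ i, ∀ p ∈ C i, p.Prime ∧ p ∉ S₀ ∪ W ∧ (i ∈ J1 → p % 3 = 1) ∧ (i ∉ J1 → p % 3 = 2))
    (h5' : ∀ i, ∀ p ∈ C i, p % 9 = κ9 i)
    (h6 : ∀ i l, i ≠ l → Disjoint (C i) (C l))
    (h8 : (S₀.filter fun p => p % 3 = 2).card + (univ \ J1).card = 1) :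
    |(((Fintype.piFinset C).filter fun p => Nd S₀ (univ.image p) ∧
        G (S₀ ∪ univ.image p)).card : ℝ) -
      1 * (((Fintype.piFinset C).filter fun p => Nd S₀ (univ.image p)).card : ℝ)| ≤
    δ * (((Fintype.piFinset C).filter fun p => Nd S₀ (univ.image p)).card : ℝ) +
    3 ^ (2 * (S₀ ∪ W).card * Fintype.card ι + (prs J1).card) * (κ * ∏ j, (X j : ℝ)) := by
  have e : inst = fun a b => Classical.propDecidable _ := Subsingleton.elim _ _
  subst e
  exact hB ι J1 C X κ9 κ S₀ h1 h2 h3 h4 h4' h5 h5' h6 h8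

theorem per_key {W : Finset ℕ} {Nd : Finset ℕ → Finset ℕ → Prop} {a : ℕ} {G : Finset ℕ → Prop} {δ : ℝ} (hB : BXG W Nd a G δ)
    (hδ0 : 0 ≤ δ) {X z H K V : ℕ} (hH : 1 ≤ H) (hWz : ∀ u ∈ W, u ≤ z)
    {κ : ℝ} (hκ : 0 ≤ κ) {S₀ : Finset ℕ} {J : Finset (ℕ × ℕ)} (hk : KP X z H K V S₀ J)
    (haS : a ∈ S₀)
    (hHB : HB (univ.filter fun e : J => e.1.2 % 3 = 1) (fun i : J => CC z H i)
      (fun i => XX H i.1.1) κ) :
    |(((RR X z H K V).filter fun S => ky z H S = (S₀, J) ∧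
        (Nd (sm z S) (la z S) ∧ G S)).card : ℝ) -
      1 * (((RR X z H K V).filter fun S => ky z H S = (S₀, J) ∧
        Nd (sm z S) (la z S)).card : ℝ)| ≤
    δ * (((RR X z H K V).filter fun S => ky z H S = (S₀, J)).card : ℝ) +
      3 ^ (2 * W.card * K) * ((3 ^ (3 * K ^ 2) * κ) * (X / ((∏ p ∈ S₀, p : ℕ) : ℝ))) := by
  set J1 : Finset J := univ.filter fun e : J => e.1.2 % 3 = 1 with hJ1
  have c1 : ∀ c, (univ.filter fun e : J => e.1.2 % 3 = c).card =
      (J.filter fun e => e.2 % 3 = c).card := by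
    intro c
    rw [← Finset.card_map (Function.Embedding.subtype (· ∈ J))]
    congr 1
    ext x
    simp only [Finset.mem_map, Finset.mem_filter, Finset.mem_univ, true_and,
      Function.Embedding.coe_subtype]
    constructor
    · rintro ⟨u, hu, rfl⟩
      exact ⟨u.2, hu⟩
    · rintro ⟨h, h'⟩
      exact ⟨⟨x, h⟩, h', rfl⟩
  have c2 : univ \ J1 = univ.filter fun e : J => e.1.2 % 3 = 2 := by
    ext e
    rw [Finset.mem_sdiff, hJ1, Finset.mem_filter, Finset.mem_filter]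
    have := hk.ne e e.2
    simp only [Finset.mem_univ, true_and]
    omega
  have hbox := box_dec hB J J1 (fun i => CC z H i) (fun i => XX H i.1.1) (fun i => i.1.2) κ S₀ hκ
    (fun i => by
      refine (Finset.card_filter_le _ _).trans ?_
      rw [Nat.card_Icc]
      omega)
    hHB hk.pr haS
    (fun i p hp => by
      obtain ⟨h3, h3', h4, h5⟩ := CC_facts hH hp
      refine ⟨h3, fun h => ?_, fun h => ?_, fun h => ?_⟩
      · rcases Finset.mem_union.1 h with h | h
        · have := hk.le p h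
          omega
        · have := hWz p h
          omega
      · exact h5.trans (Finset.mem_filter.1 h).2
      · have h6 : ¬ i.1.2 % 3 = 1 := fun h' => h (Finset.mem_filter.2 ⟨Finset.mem_univ _, h'⟩)
        have h7 := hk.ne i i.2
        omega)
    (fun i p hp => congrArg Prod.snd ((mem_CC hH).1 hp).2.2)
    (fun i l hil => by
      rw [Finset.disjoint_left]
      intro p hp hp'
      have h5 := ((mem_CC hH).1 hp).2.2
      have h6 := ((mem_CC hH).1 hp').2.2
      exact hil (Subtype.ext (h5.symm.trans h6)))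
    (by
      rw [c2, c1]
      exact hk.one)
  have e1 : ((Fintype.piFinset fun i : J => CC z H i).filter fun p => Nd S₀ (univ.image p) ∧
      G (S₀ ∪ univ.image p)).card = ((RR X z H K V).filter fun S => ky z H S = (S₀, J) ∧
        (Nd (sm z S) (la z S) ∧ G S)).card := by
    rw [← key_bij hH hk (fun S => Nd (sm z S) (la z S) ∧ G S)]
    congr 1
    refine Finset.filter_congr fun p hp => ?_
    rw [Fintype.mem_piFinset] at hp
    rw [sm_fill hH hk.le hp, la_fill hH hk.le hp]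
  have e2 : ((Fintype.piFinset fun i : J => CC z H i).filter fun p =>
      Nd S₀ (univ.image p)).card = ((RR X z H K V).filter fun S => ky z H S = (S₀, J) ∧
        Nd (sm z S) (la z S)).card := by
    rw [← key_bij hH hk (fun S => Nd (sm z S) (la z S))]
    congr 1
    refine Finset.filter_congr fun p hp => ?_
    rw [Fintype.mem_piFinset] at hp
    rw [sm_fill hH hk.le hp, la_fill hH hk.le hp]
  rw [e1, e2] at hbox
  refine hbox.trans (add_le_add ?_ ?_)
  · have h4 : (((RR X z H K V).filter fun S => ky z H S = (S₀, J) ∧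
        Nd (sm z S) (la z S)).card : ℝ) ≤
        (((RR X z H K V).filter fun S => ky z H S = (S₀, J)).card : ℝ) := by
      have : (RR X z H K V).filter (fun S => ky z H S = (S₀, J) ∧ Nd (sm z S) (la z S)) ⊆
          (RR X z H K V).filter fun S => ky z H S = (S₀, J) := by
        intro S hS
        rw [Finset.mem_filter] at hS ⊢
        exact ⟨hS.1, hS.2.1⟩
      exact_mod_cast Finset.card_le_card this
    gcongr
  · have hcJ : Fintype.card J = J.card := Fintype.card_coe J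
    have hcard := hk.card
    have hJK : J.card ≤ K := by omega
    have hSK : S₀.card ≤ K := by omega
    have hpr : (prs J1).card ≤ K * K := by
      refine (prs_card J1).trans ?_
      rw [hcJ]
      exact Nat.mul_le_mul hJK hJK
    have hexp : 2 * (S₀ ∪ W).card * Fintype.card J + (prs J1).card ≤ 2 * W.card * K + 3 * K ^ 2 := by
      rw [hcJ]
      have h6 : (S₀ ∪ W).card ≤ K + W.card := (Finset.card_union_le _ _).trans (by omega)
      have h5 : (S₀ ∪ W).card * J.card ≤ (K + W.card) * K := Nat.mul_le_mul h6 hJK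
      calc 2 * (S₀ ∪ W).card * J.card + (prs J1).card ≤ 2 * ((K + W.card) * K) + K * K := by
            rw [mul_assoc]
            omega
        _ = 2 * W.card * K + 3 * K ^ 2 := by ring
    have h5 : (3 : ℝ) ^ (2 * (S₀ ∪ W).card * Fintype.card J + (prs J1).card) ≤
        3 ^ (2 * W.card * K) * 3 ^ (3 * K ^ 2) := by
      rw [← pow_add]
      exact pow_le_pow_right₀ (by norm_num) hexp
    have hN0 : (0 : ℝ) < ((∏ p ∈ S₀, p : ℕ) : ℝ) := by
      exact_mod_cast Finset.prod_pos fun p hp => (hk.pr p hp).1.pos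
    have hprod : ∏ j : J, (XX H j.1.1 : ℝ) ≤ X / ((∏ p ∈ S₀, p : ℕ) : ℝ) := by
      have h5 : ∏ j : J, (XX H j.1.1 : ℝ) = ((∏ k ∈ J, XX H k.1 : ℕ) : ℝ) := by
        rw [← Finset.prod_coe_sort J (fun k => XX H k.1)]
        push_cast
        rfl
      rw [h5, le_div_iff₀ hN0, mul_comm]
      exact_mod_cast hk.prod
    calc (3 : ℝ) ^ (2 * (S₀ ∪ W).card * Fintype.card J + (prs J1).card) *
        (κ * ∏ j : J, (XX H j.1.1 : ℝ)) ≤
        (3 ^ (2 * W.card * K) * 3 ^ (3 * K ^ 2)) * (κ * (X / ((∏ p ∈ S₀, p : ℕ) : ℝ))) := by gcongr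
      _ = _ := by ring

/-- **The sum over the boxes.** -/
theorem t_KEJ (hL : LamP) (hB1 : S_BIL1) (hB2 : S_BIL2) : ∃ C : ℝ, 1 ≤ C ∧
  ∀ (W : Finset ℕ) (Nd : Finset ℕ → Finset ℕ → Prop) (a : ℕ) (G : Finset ℕ → Prop) (δ : ℝ), BXG W Nd a G δ → 0 ≤ δ →
  ∀ (X z H K V N : ℕ) (κ : ℝ), (∀ u ∈ W, u ≤ z) → 1 ≤ X → 1 ≤ H → 1 ≤ z → 0 ≤ κ → C ≤ κ ^ 12 * z →
  (H : ℝ) * Real.log X < N →
  |(((RR X z H K V).filter fun S => a ∈ sm z S ∧ Nd (sm z S) (la z S) ∧ G S).card : ℝ) -
      1 * (((RR X z H K V).filter fun S => a ∈ sm z S ∧ Nd (sm z S) (la z S)).card : ℝ)| ≤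
    δ * (((RR X z H K V).filter fun S => a ∈ sm z S).card : ℝ) +
    3 ^ (2 * W.card * K) *
      ((9 * N + 9 : ℝ) ^ K * (3 ^ (3 * K ^ 2) * κ) * (X * (1 + Real.log X))) := by
  obtain ⟨C₁, hC₁, h1⟩ := hB1 hL
  obtain ⟨C₂, hC₂, h2⟩ := hB2 hL
  refine ⟨max C₁ C₂, hC₁.trans (le_max_left _ _), ?_⟩
  intro W Nd a G δ hBX hδ0 X z H K V N κ hWz hX hH hz hκ hκz hN
  set T := ((RR X z H K V).image (ky z H)).filter fun k' => a ∈ k'.1 with hT
  set B : ℝ := 3 ^ (3 * K ^ 2) * κ with hB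
  have hB0 : 0 ≤ B := by positivity
  have hfib : ∀ (P : Finset ℕ → Prop) [DecidablePred P],
      (((RR X z H K V).filter fun S => a ∈ sm z S ∧ P S).card : ℝ) =
      ∑ k ∈ T, (((RR X z H K V).filter fun S => ky z H S = k ∧ P S).card : ℝ) := by
    intro P _
    rw [Finset.card_eq_sum_card_fiberwise (f := ky z H) (t := T) (by
      intro S hS
      rw [Finset.mem_coe, Finset.mem_filter] at hS
      rw [Finset.mem_coe, hT, Finset.mem_filter]
      exact ⟨Finset.mem_image_of_mem _ hS.1, hS.2.1⟩)]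
    push_cast
    refine Finset.sum_congr rfl fun k hk' => ?_
    rw [hT, Finset.mem_filter] at hk'
    congr 2
    ext S
    simp only [Finset.mem_filter]
    constructor
    · rintro ⟨⟨a1, a2, a3⟩, a4⟩
      exact ⟨a1, a4, a3⟩
    · rintro ⟨a1, a2, a3⟩
      refine ⟨⟨a1, ?_, a3⟩, a2⟩
      have : sm z S = k.1 := congrArg Prod.fst a2
      rw [this]
      exact hk'.2
  have hKP : ∀ k ∈ T, KP X z H K V k.1 k.2 := by
    intro k hk
    rw [hT, Finset.mem_filter, Finset.mem_image] at hk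
    obtain ⟨⟨S, hS, rfl⟩, -⟩ := hk
    obtain ⟨f1, f2, f3⟩ := rr_facts hS
    exact (rr_iff hH f1 (inj_ph f2)).1 hS
  have hf1 := hfib fun S => Nd (sm z S) (la z S) ∧ G S
  have hf2 := hfib fun S => Nd (sm z S) (la z S)
  have hf3 := hfib fun _ => True
  simp only [and_true] at hf3
  rw [hf1, hf2, hf3, Finset.mul_sum, ← Finset.sum_sub_distrib]
  refine (Finset.abs_sum_le_sum_abs _ _).trans ?_
  have h3 : ∀ k ∈ T, |(((RR X z H K V).filter fun S => ky z H S = k ∧
        (Nd (sm z S) (la z S) ∧ G S)).card : ℝ) -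
      1 * (((RR X z H K V).filter fun S => ky z H S = k ∧
        Nd (sm z S) (la z S)).card : ℝ)| ≤
      δ * (((RR X z H K V).filter fun S => ky z H S = k).card : ℝ) +
      3 ^ (2 * W.card * K) * (B * (X / ((∏ p ∈ k.1, p : ℕ) : ℝ))) := by
    intro k hk
    obtain ⟨S₀, J⟩ := k
    have hk' := hKP _ hk
    have haS : a ∈ S₀ := (mem_filter.1 hk).2
    exact per_key hBX hδ0 hH hWz hκ hk' haS (hb_box h1 h2 hH hz hκ ((le_max_left _ _).trans hκz)
      ((le_max_right _ _).trans hκz) hk'.ne)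
  refine (Finset.sum_le_sum h3).trans ?_
  rw [Finset.sum_add_distrib, ← Finset.mul_sum, ← Finset.mul_sum]
  refine add_le_add le_rfl (mul_le_mul_of_nonneg_left ?_ (by positivity))
  have hsub : T ⊆ (TT X) ×ˢ ((range N ×ˢ range 9).powerset.filter fun J => J.card ≤ K) := by
    intro k hk
    have hk' := hKP k hk
    rw [hT, Finset.mem_filter, Finset.mem_image] at hk
    obtain ⟨⟨S, hS, rfl⟩, -⟩ := hk
    obtain ⟨f1, f2, f3⟩ := rr_facts hS
    rw [Finset.mem_product, Finset.mem_filter, Finset.mem_powerset]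
    refine ⟨mem_TT (fun q hq => (hk'.pr q hq).1) ?_, ?_, ?_⟩
    · refine le_trans ?_ f3
      exact Nat.le_of_dvd (Finset.prod_pos fun p hp => (f1 p hp).pos)
        (Finset.prod_dvd_prod_of_subset _ _ _ (Finset.filter_subset _ _))
    · intro e he
      unfold ky at he
      rw [Finset.mem_image] at he
      obtain ⟨q, hq, rfl⟩ := he
      have hqS := (Finset.mem_filter.1 hq).1
      have hq0 := (f1 q hqS).pos
      have hqX : q ≤ X := by
        refine le_trans ?_ f3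
        exact Nat.le_of_dvd (Finset.prod_pos fun p hp => (f1 p hp).pos)
          (Finset.dvd_prod_of_mem _ hqS)
      unfold ph
      rw [Finset.mem_product, Finset.mem_range, Finset.mem_range]
      refine ⟨?_, Nat.mod_lt _ (by norm_num)⟩
      have h3 : ((jj H q : ℕ) : ℝ) < N := by
        refine lt_of_le_of_lt (Nat.floor_le (mul_nonneg (Nat.cast_nonneg _)
          (Real.log_nonneg (by exact_mod_cast hq0)))) ?_
        refine lt_of_le_of_lt ?_ hN
        refine mul_le_mul_of_nonneg_left ?_ (Nat.cast_nonneg _)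
        exact Real.log_le_log (by exact_mod_cast hq0) (by exact_mod_cast hqX)
      exact_mod_cast h3
    · have := hk'.card
      omega
  refine (Finset.sum_le_sum_of_subset_of_nonneg hsub fun _ _ _ => by positivity).trans ?_
  rw [Finset.sum_product]
  simp only [Finset.sum_const, nsmul_eq_mul]
  rw [← Finset.mul_sum]
  have h4 : ((((range N ×ˢ range 9).powerset.filter fun J => J.card ≤ K).card : ℕ) : ℝ) ≤
      (9 * N + 9 : ℝ) ^ K := by
    have h5 := card_sub (range N ×ˢ range 9) K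
    rw [Finset.card_product, Finset.card_range, Finset.card_range] at h5
    calc ((((range N ×ˢ range 9).powerset.filter fun J => J.card ≤ K).card : ℕ) : ℝ) ≤
          (((N * 9 + 1) ^ K : ℕ) : ℝ) := by exact_mod_cast h5
      _ = (N * 9 + 1 : ℝ) ^ K := by push_cast; ring
      _ ≤ _ := by
        apply pow_le_pow_left₀ (by positivity)
        linarith
  have h5 : ∑ S ∈ TT X, B * (X / ((∏ p ∈ S, p : ℕ) : ℝ)) ≤ B * (X * (1 + Real.log X)) := by
    have h6 : ∀ S ∈ TT X, B * ((X : ℝ) / ((∏ p ∈ S, p : ℕ) : ℝ)) =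
        B * X * (1 / ((∏ p ∈ S, p : ℕ) : ℝ)) := by
      intro S _
      ring
    rw [Finset.sum_congr rfl h6, ← Finset.mul_sum]
    have h7 := mul_le_mul_of_nonneg_left (harm_TT X) (mul_nonneg hB0 (Nat.cast_nonneg X))
    refine h7.trans (le_of_eq ?_)
    ring
  have h6 : 0 ≤ ∑ S ∈ TT X, B * ((X : ℝ) / ((∏ p ∈ S, p : ℕ) : ℝ)) :=
    Finset.sum_nonneg fun _ _ => by positivity
  rw [mul_assoc]
  gcongr

end Q283.NJ
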