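import Pool.Agent.Q283.NJ.B2
import Pool.Agent.Q283.NJ.C2

/-! Several bases: transfers from the primes to the tables, and from the exponents of the primes -/

set_option autoImplicit false
set_option linter.unusedSectionVars false

open scoped Classical

namespace Q283.NJ

open Finset Module
open Q283.Q3 (cq cq_ge cq_le KT mem_KT)
open Q283.ND (mx sp mem_sp fcc nc ncI off mem_off one ef NT NE NE_eq NT_eq card_cpl sum_tr co ro Sy
  mem_Sy Sy_diag)
open Pool.Agent.Y703.CX (lam)

/-- the local theorem without decidability -/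
theorem locJ' (κ : Type) [Fintype κ] (B : ℕ) (ε : ℝ) (hε : 0 < ε) : ∃ R₀ : ℕ, ∀ R : ℕ, R₀ ≤ R →
    ∀ (I : Type) [Fintype I] (J P : Finset I) (ks : κ → I) (G : I → I → ZMod 3)
      (m : κ → I → ZMod 3) (A : Finset (I → ZMod 3)), DatJ J P ks G m R →
      (3 : ℝ) ^ Fintype.card I ≤ 3 * A.card →
    (Nat.card {α : I → I → ZMod 3 //
      ¬ GoodJ B ε A (fun e => coJ (fun k => ef P (m k) e) ks (mx J G α))} : ℝ) ≤
      ε * Nat.card (I → I → ZMod 3) := by
  obtain ⟨R₀, h⟩ := locJ κ B ε hε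
  refine ⟨R₀, fun R hR I _ J P ks G m A hD hA => ?_⟩
  have h1 := h R hR I J P ks G m A hD (by rw [NE_eq]; exact hA)
  rw [NT_eq, ncI] at h1
  exact h1

/-- the data, without decidability -/
theorem mkDatJ {κ I : Type} [Fintype κ] [Fintype I] {J P : Finset I} {ks : κ → I}
    {G : I → I → ZMod 3} {m : κ → I → ZMod 3} {R u : ℕ} (hu : u + J.card = Fintype.card I)
    (sub : J ⊆ P) (ksP : ∀ k, ks k ∉ P)
    (mks : ∀ k, m k (ks k) ≠ 0) (mJ : ∀ k, ∀ i ∈ J, m k i = 0)
    (ksl : ∀ k l, ks l ≠ ks k → m k (ks l) = 0)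
    (hv : ∀ v : I → ZMod 3, (∀ i ∈ J, v i = 0) → (∀ k, v (ks k) = 0) → v ≠ 0 →
      7 * u + R ≤ Nat.card {i // i ∈ J ∧ ∑ x, v x * G x i ≠ 0})
    (hw : ∀ w : I → ZMod 3, (∀ i ∈ J, w i = 0) → w ≠ 0 →
      7 * u + R ≤ Nat.card {i // i ∈ J ∧ ∑ x, w x * G i x ≠ 0}) (hJ : R ≤ J.card)
    (ne : ∀ l l', l ≠ l' → m l ≠ m l') :
    DatJ J P ks G m R := by
  have h1 : Jᶜ.card = u := by
    have := card_cpl J
    omega
  have h2 : ∀ T : I → Prop, Nat.card {i // i ∈ J ∧ T i} = (J.filter T).card := by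
    intro T
    rw [nc]
    congr 1
    ext i
    simp
  refine ⟨sub, ksP, mks, mJ, ksl, fun v h3 h4 => ?_, fun w h3 h4 => ?_, hJ, ne⟩
  · rw [h1]
    exact ((hv v (mem_off.1 h3) h4.1 h4.2).trans (le_of_eq (h2 _))).trans (le_of_eq fcc)
  · rw [h1]
    exact ((hw w (mem_off.1 h3) h4).trans (le_of_eq (h2 _))).trans (le_of_eq fcc)

section tr
variable {E F : Type} [AddCommGroup E] [AddCommGroup F] [Fintype E] [Fintype F]

theorem good_trJ {κ : Type} [Fintype κ] (ρ : E →+ F) (hρ : Function.Surjective ρ) (A : Finset F)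
    (A' : Finset E)
    (hA : ∀ e, e ∈ A' ↔ ρ e ∈ A) (B : ℕ) (ε : ℝ) (g : F → κ → ℕ) :
    GoodJ B ε A' (fun e => g (ρ e)) ↔ GoodJ B ε A g := by
  have hF : (0 : ℝ) < Fintype.card F := by
    have : Nonempty F := ⟨0⟩
    exact_mod_cast Fintype.card_pos
  have hE : (0 : ℝ) < Fintype.card E := by
    have : Nonempty E := ⟨0⟩
    exact_mod_cast Fintype.card_pos
  have hc := sum_tr ρ hρ A A' hA (fun _ => 1)
  simp only [sum_const, nsmul_eq_mul, mul_one] at hc
  have key : ∀ a b : ℝ, (Fintype.card F : ℝ) * a = Fintype.card E * b →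
      (|a| ≤ ε * A'.card ↔ |b| ≤ ε * A.card) := by
    intro a b hab
    have h1 : |a| ≤ ε * A'.card ↔ Fintype.card F * |a| ≤ Fintype.card F * (ε * A'.card) :=
      (mul_le_mul_iff_right₀ hF).symm
    have h2 : |b| ≤ ε * A.card ↔ Fintype.card E * |b| ≤ Fintype.card E * (ε * A.card) :=
      (mul_le_mul_iff_right₀ hE).symm
    have h3 : (Fintype.card F : ℝ) * |a| = Fintype.card E * |b| := by
      have := congrArg abs hab
      rwa [abs_mul, abs_mul, abs_of_pos hF, abs_of_pos hE] at this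
    have h4 : (Fintype.card F : ℝ) * (ε * A'.card) = Fintype.card E * (ε * A.card) := by
      calc (Fintype.card F : ℝ) * (ε * A'.card) = ε * (Fintype.card F * A'.card) := by ring
        _ = ε * (Fintype.card E * A.card) := by rw [hc]
        _ = _ := by ring
    rw [h1, h2, h3, h4]
  unfold GoodJ
  refine forall_congr' fun b => forall_congr' fun _ => key _ _ ?_
  exact sum_tr ρ hρ A A' hA (fun x => oneJ b (g x) - qJ b)

end tr

/-- the solutions on a set of primes -/
theorem kt_coJ {I : Type} [Fintype I] {T : Finset ℕ} (E : I ≃ T) {ks : I} (f : ℕ → ZMod 3)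
    (hk : ∀ i, f (E i) ≠ 0 → ((E i : ℕ) % 3 = 1 ↔ i ≠ ks)) (hf : f (E ks) ≠ 0) :
    finrank (ZMod 3) (KT T f) = co (fun i => f (E i)) ks (fun i j => lam (E i) (E j)) + 1 := by
  obtain ⟨V, hV⟩ : ∃ V : Submodule (ZMod 3) (I → ZMod 3), V = (KT T f).map
    (LinearEquiv.funCongrLeft (ZMod 3) (ZMod 3) E : (T → ZMod 3) →ₗ[ZMod 3] (I → ZMod 3)) :=
    ⟨_, rfl⟩
  have h0 : finrank (ZMod 3) (KT T f) = finrank (ZMod 3) V := by
    rw [hV]
    exact (LinearEquiv.finrank_map_eq (LinearEquiv.funCongrLeft (ZMod 3) (ZMod 3) E) (KT T f)).symm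
  have hro0 : ∀ i, f (E i) = 0 → ∀ y,
      ro (fun i => f (E i)) (fun i j => lam (E i) (E j)) i y = 0 := by
    intro i hi y
    unfold ro
    refine sum_eq_zero fun j _ => ?_
    beta_reduce
    rw [hi]
    ring
  have hmem : ∀ y : I → ZMod 3, y ∈ V ↔ (∀ i, f (E i) = 0 → y i = 0) ∧
      ∀ i, i ≠ ks → ro (fun i => f (E i)) (fun i j => lam (E i) (E j)) i y = 0 := by
    intro y
    rw [hV, Submodule.mem_map]
    constructor
    · rintro ⟨x, hx, rfl⟩
      rw [mem_KT] at hx
      refine ⟨fun i hi => hx.1 (E i) hi, fun i hi => ?_⟩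
      by_cases hfi : f (E i) = 0
      · exact hro0 i hfi _
      have h1 := hx.2 (E i) ((hk i hfi).2 hi)
      rw [← h1, ← Equiv.sum_comp E]
      rfl
    · rintro ⟨h1, h2⟩
      refine ⟨fun t => y (E.symm t), ?_, ?_⟩
      · rw [mem_KT]
        constructor
        · intro p hp
          obtain ⟨i, rfl⟩ := E.surjective p
          rw [E.symm_apply_apply]
          exact h1 i hp
        · intro p hp
          obtain ⟨i, rfl⟩ := E.surjective p
          by_cases hfi : f (E i) = 0
          · refine sum_eq_zero fun q _ => ?_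
            rw [hfi]
            ring
          rw [← h2 i ((hk i hfi).1 hp), ← Equiv.sum_comp E]
          unfold ro
          exact sum_congr rfl fun j _ => by rw [E.symm_apply_apply, E.symm_apply_apply]
      · funext i
        show y (E.symm (E i)) = y i
        rw [E.symm_apply_apply]
  rw [h0]
  set g : V →ₗ[ZMod 3] (ZMod 3) :=
    (LinearMap.proj ks : (I → ZMod 3) →ₗ[ZMod 3] (ZMod 3)).comp V.subtype with hg
  have h1 := LinearMap.finrank_range_add_finrank_ker g
  have hone : (fun i => if f (E i) = 0 then (0 : ZMod 3) else 1) ∈ V := by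
    rw [hmem]
    refine ⟨fun i hi => if_pos hi, fun i _ => ?_⟩
    unfold ro
    refine sum_eq_zero fun j _ => ?_
    beta_reduce
    by_cases hi : f (E i) = 0
    · rw [hi]; ring
    by_cases hj : f (E j) = 0
    · rw [hj]; ring
    · rw [if_neg hi, if_neg hj, sub_self, mul_zero]
  have h2 : finrank (ZMod 3) (LinearMap.range g) = 1 := by
    have h3 : LinearMap.range g = ⊤ := by
      rw [LinearMap.range_eq_top]
      intro a
      refine ⟨a • ⟨_, hone⟩, ?_⟩
      rw [map_smul, hg, LinearMap.comp_apply]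
      show a • (if f (E ks) = 0 then (0 : ZMod 3) else 1) = a
      rw [if_neg hf, smul_eq_mul, mul_one]
    rw [h3, finrank_top, finrank_self]
  have h3 : finrank (ZMod 3) (LinearMap.ker g) =
      co (fun i => f (E i)) ks (fun i j => lam (E i) (E j)) := by
    unfold co
    have h4 : (LinearMap.ker g).map V.subtype =
        Sy (fun i => f (E i)) ks ∅ (fun i j => lam (E i) (E j)) := by
      ext x
      rw [Submodule.mem_map, mem_Sy]
      constructor
      · rintro ⟨⟨x, hx⟩, h0, rfl⟩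
        have h5 := (hmem x).1 hx
        exact ⟨h5.1, h0, fun i hi _ => h5.2 i hi⟩
      · rintro ⟨g1, g2, g3⟩
        exact ⟨⟨x, (hmem x).2 ⟨g1, fun i hi => g3 i hi (notMem_empty _)⟩⟩, g2, rfl⟩
    rw [← h4]
    exact (Submodule.equivMapOfInjective V.subtype V.injective_subtype _).finrank_eq
  omega

end Q283.NJ
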