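import Pool.Agent.Q283.NJ.D3
import Pool.Agent.Q283.Q3.Asyq

/-! Several bases: the exceptional sets of primes are few -/

set_option autoImplicit false

open scoped Classical
open Finset Filter

namespace Q283.NJ

open Q283.Q3 (NdM zz_ev)
open Q283.Q3A (sml_mainW)
open Pool.Agent.Y703.CX

/-- the sets outside the regular part -/
theorem out_subJ {W : Finset ℕ} {R : ℕ} (hR : 1 ≤ R) (X z H k : ℕ) :
    SS X \ ((RR X z H k 0).filter fun S => NdJ R W (sm z S) (la z S)) ⊆
      (((((SS X).filter fun S => k < S.card) ∪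
      ((SS X).filter fun S => S.card ≤ k ∧
        X < (∏ p ∈ sm z S, p) * ∏ p ∈ la z S, XX H (jj H p))) ∪
      ((SS X).filter fun S => ¬ Set.InjOn (jj H) (la z S : Set ℕ))) ∪
      ((SS X).filter fun S => ((la z S).filter fun p => p % 3 = 1).card ≤ (sm z S).card + R)) ∪
      ((SS X).filter fun S => S.card ≤ k ∧ (¬ NdJ R W (sm z S) (la z S) ∧
        R ≤ ((la z S).filter fun p => p % 3 = 1).card)) := by
  intro S hS
  rw [Finset.mem_sdiff, Finset.mem_filter] at hS
  obtain ⟨h1, h2⟩ := hS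
  simp only [mem_union, mem_filter]
  by_contra hc
  push Not at hc
  obtain ⟨⟨⟨⟨c1, c2⟩, c3⟩, c4⟩, c5⟩ := hc
  have d1 : S.card ≤ k := c1 h1
  have d2 := c2 h1 d1
  have d3 := c3 h1
  have d4 := c4 h1
  have d5 : NdJ R W (sm z S) (la z S) := by
    by_contra h
    have := c5 h1 d1 h
    omega
  apply h2
  refine ⟨?_, d5⟩
  unfold RR
  rw [mem_filter]
  exact ⟨h1, d3, d1, d2, by omega⟩

/-- **The exceptional sets are few.** -/
theorem asyJ {κ : Type} [Fintype κ] {k : ℕ} (hk9 : k < 9) {W : Finset ℕ} {m : κ → ℕ → ZMod 3}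
    {r : κ → ℕ} (hb : BdJ W m r) (a : ℕ)
    (ha : a % 3 = 2) (B : ℕ) (ε : ℝ) (hε : 0 < ε) (η : ℝ) (hη : 0 < η) :
    ∀ᶠ X : ℕ in atTop, (((SS X).filter fun S => a ∈ S ∧ ¬ TSJ k W m B ε (S.erase a)).card : ℝ) ≤
      η * (((SS X).filter fun S => a ∈ S).card : ℝ) + η * (X * Real.exp (-(eL X) / 2)) := by
  have hL := Pool.Agent.Y333.CX.t_LAM
  have hC := Pool.Agent.Y388.CX.t_CNT
  have hSIE := Pool.Agent.Y488.CX.t_SIE
  obtain ⟨C, hC1, hkey⟩ := t_KEJ hL Pool.Agent.Y261.CX.t_BIL1 Pool.Agent.Y779.CX.t_BIL2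
  obtain ⟨R₀, hR₀⟩ := t_BXJ Pool.Agent.Y419.CX.t_EQ κ B ε hε η hη
  set R : ℕ := R₀ + 1 with hR
  have hbx := hR₀ R (by omega) k W m r a hk9 hb ha
  obtain ⟨CF, XF, hfew⟩ := Pool.Agent.Y495.CX.Few.t_FEW hSIE R
  obtain ⟨CB, XB, hbad⟩ := t_BADJ hL hSIE Pool.Agent.Y495.CX.t_HAL R W hb.pr
  have s1 := sml_many hC
  have s2 := sml_cut hC
  have s3 := sml_coll hC
  have s4 := sml_rpow hfew
  have s5 := sml_rpow hbad
  have s6 := sml_mainW W.card hC1
  have s := sml_add (sml_add (sml_add (sml_add (sml_add s1 s2) s3) s4) s5) s6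
  obtain ⟨X₁, hX₁⟩ := zz_ev (max a (W.sup id))
  filter_upwards [s η hη, ev_eL 1, eventually_ge_atTop X₁] with X hX hl hX1
  have hl0 : 0 < eL X := by linarith
  have hXp := X_pos hl0
  have hN : (HH X : ℝ) * Real.log X < NN X := by
    unfold NN
    push_cast
    exact Nat.lt_floor_add_one _
  have hz := hX₁ X hX1
  have hWz : ∀ u ∈ W, u ≤ zz X := fun u hu =>
    ((le_sup (f := id) hu).trans (le_max_right _ _)).trans hz
  have haz : a ≤ zz X := (le_max_left _ _).trans hz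
  have hQ : ∀ S : Finset ℕ, a ∈ sm (zz X) S ↔ a ∈ S := by
    intro S
    unfold sm
    rw [mem_filter]
    exact ⟨fun h => h.1, fun h => ⟨h, haz⟩⟩
  have hmain := hkey W (NdJ R W) a (fun S => TSJ k W m B ε (S.erase a)) η hbx hη.le X (zz X)
    (HH X) (kk X) 0 (NN X) (kap C X) hWz hXp (HH_pos hl0) (zz_pos hl)
    (kap_nonneg hC1 X) (kap_pow hC1 hl) hN
  set T₀ := (RR X (zz X) (HH X) (kk X) 0).filter fun S => NdJ R W (sm (zz X) S) (la (zz X) S) with hT₀
  have hsplit : (((RR X (zz X) (HH X) (kk X) 0).filter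
      (fun S => a ∈ sm (zz X) S ∧ NdJ R W (sm (zz X) S) (la (zz X) S))).card : ℝ) =
      (((RR X (zz X) (HH X) (kk X) 0).filter
      (fun S => a ∈ sm (zz X) S ∧ NdJ R W (sm (zz X) S) (la (zz X) S) ∧
        TSJ k W m B ε (S.erase a))).card : ℝ) +
      ((T₀.filter fun S => a ∈ S ∧ ¬ TSJ k W m B ε (S.erase a)).card : ℝ) := by
    have h2 := card_filter_add_card_filter_not
      (s := (RR X (zz X) (HH X) (kk X) 0).filter
        fun S => a ∈ sm (zz X) S ∧ NdJ R W (sm (zz X) S) (la (zz X) S))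
      (fun S => TSJ k W m B ε (S.erase a))
    have h3 : ((RR X (zz X) (HH X) (kk X) 0).filter
        fun S => a ∈ sm (zz X) S ∧ NdJ R W (sm (zz X) S) (la (zz X) S)).filter
        (fun S => TSJ k W m B ε (S.erase a)) = (RR X (zz X) (HH X) (kk X) 0).filter
      (fun S => a ∈ sm (zz X) S ∧ NdJ R W (sm (zz X) S) (la (zz X) S) ∧
        TSJ k W m B ε (S.erase a)) := by
      rw [filter_filter]
      ext S
      simp only [mem_filter]
      tauto
    have h4 : ((RR X (zz X) (HH X) (kk X) 0).filter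
        fun S => a ∈ sm (zz X) S ∧ NdJ R W (sm (zz X) S) (la (zz X) S)).filter
        (fun S => ¬ TSJ k W m B ε (S.erase a)) =
        T₀.filter fun S => a ∈ S ∧ ¬ TSJ k W m B ε (S.erase a) := by
      rw [hT₀, filter_filter, filter_filter]
      ext S
      simp only [mem_filter, hQ]
      tauto
    rw [h3, h4] at h2
    exact_mod_cast h2.symm
  have hRS : (((RR X (zz X) (HH X) (kk X) 0).filter fun S => a ∈ sm (zz X) S).card : ℝ) ≤
      (((SS X).filter fun S => a ∈ S).card : ℝ) := by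
    refine Nat.cast_le.2 (card_le_card fun S hS => ?_)
    rw [mem_filter, hQ] at hS
    rw [mem_filter]
    exact ⟨filter_subset _ _ hS.1, hS.2⟩
  have hout0 : (SS X).filter (fun S => a ∈ S ∧ ¬ TSJ k W m B ε (S.erase a)) ⊆
      (T₀.filter fun S => a ∈ S ∧ ¬ TSJ k W m B ε (S.erase a)) ∪ (SS X \ T₀) := by
    intro S hS
    rw [mem_filter] at hS
    rw [mem_union, mem_filter, Finset.mem_sdiff]
    by_cases h : S ∈ T₀
    · exact Or.inl ⟨h, hS.2⟩
    · exact Or.inr ⟨hS.1, h⟩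
  have hout : ((SS X \ T₀).card : ℝ) ≤
      ((((SS X).filter fun S => kk X < S.card).card : ℝ) +
      (((SS X).filter fun S => S.card ≤ kk X ∧
        X < (∏ p ∈ sm (zz X) S, p) * ∏ p ∈ la (zz X) S, XX (HH X) (jj (HH X) p)).card : ℝ) +
      (((SS X).filter fun S => ¬ Set.InjOn (jj (HH X)) (la (zz X) S : Set ℕ)).card : ℝ) +
      (((SS X).filter fun S => ((la (zz X) S).filter fun p => p % 3 = 1).card ≤
        (sm (zz X) S).card + R).card : ℝ)) +
      (((SS X).filter fun S => S.card ≤ kk X ∧ (¬ NdJ R W (sm (zz X) S) (la (zz X) S) ∧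
        R ≤ ((la (zz X) S).filter fun p => p % 3 = 1).card)).card : ℝ) := by
    have g := card_le_card (out_subJ (W := W) (R := R) (by omega) X (zz X) (HH X) (kk X))
    have g2 := (g.trans (card_union_le _ _)).trans (Nat.add_le_add_right ((card_union_le _ _).trans
      (Nat.add_le_add_right ((card_union_le _ _).trans
      (Nat.add_le_add_right (card_union_le _ _) _)) _)) _)
    exact_mod_cast g2
  have h1 : (((SS X).filter fun S => a ∈ S ∧ ¬ TSJ k W m B ε (S.erase a)).card : ℝ) ≤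
      ((T₀.filter fun S => a ∈ S ∧ ¬ TSJ k W m B ε (S.erase a)).card : ℝ) +
        ((SS X \ T₀).card : ℝ) := by
    have h2 := (card_le_card hout0).trans (card_union_le _ _)
    exact_mod_cast h2
  have h2 := (abs_le.1 hmain).1
  have h3 := mul_le_mul_of_nonneg_left hRS hη.le
  rw [one_mul, hsplit] at h2
  linarith

end Q283.NJ
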