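import Pool.Agent.Q283.NJ.D4
import Pool.Agent.Q283.ND.Fn

/-! Several bases: almost all numbers `D` with all prime factors `≡ 1` modulo `3` -/

set_option autoImplicit false
set_option linter.unusedSectionVars false

open scoped Classical
open Finset Filter

namespace Q283.NJ

open Module
open Q283.Q3N (fe fe_ne)
open Q283.Q3 (mod3' KT mem_KT)
open Pool.Agent.Y703.CX (SS Cl eL X_pos rpow_eL ev_eL lam)
open Pool.Agent.Y703.CT (Cls Base)
open Q155.NL (Alm cnt cs mem_cs)
open Q283.ND (Dc DS_eq prod_mod3 ins_mem card_aux low_D xe ck)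

section all
variable {κ : Type} [Fintype κ]

/-- the primes of the bases -/
noncomputable def WN (N : κ → ℕ) : Finset ℕ := univ.biUnion fun j => (N j).primeFactors

theorem mem_WN {N : κ → ℕ} {u : ℕ} : u ∈ WN N ↔ ∃ j, u ∈ (N j).primeFactors := by
  unfold WN
  rw [mem_biUnion]
  simp

/-- the property of a number -/
def TDJ (k : ℕ) (N : κ → ℕ) (B : ℕ) (ε : ℝ) (D : ℕ) : Prop :=
  TSJ k (WN N) (fun j => fe (N j)) B ε D.primeFactors

theorem fe_injB {a b : ℕ} (ha : Base a) (hb : Base b) (h : fe a = fe b) : a = b := by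
  have hle : ∀ {x : ℕ}, Base x → ∀ p, x.factorization p ≤ 2 := by
    intro x hx p
    by_contra h3
    by_cases hp : p.Prime
    · exact hx.2.2 p hp ((pow_dvd_pow p (by omega)).trans (Nat.ordProj_dvd x p))
    · rw [Nat.factorization_eq_zero_of_not_prime _ hp] at h3
      omega
  refine Nat.eq_of_factorization_eq ha.1 hb.1 fun p => ?_
  have h1 := congrFun h p
  unfold fe at h1
  have h2 := hle ha p
  have h3 := hle hb p
  generalize a.factorization p = x at *
  generalize b.factorization p = y at *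
  interval_cases x <;> interval_cases y <;> first | rfl | exact absurd h1 (by decide)

/-- the data of the bases -/
theorem bdJ_of {N : κ → ℕ} (hC : ∀ j, Cls (N j)) (hN : Function.Injective N) :
    ∃ r, BdJ (WN N) (fun j => fe (N j)) r := by
  choose r hr hr2 hrN hru using fun j => (hC j).2.2.2
  have hb : ∀ j, Base (N j) := fun j => (hC j).1
  refine ⟨r, ⟨fun u hu => ?_, fun k => ?_, hr2, fun u hu hne => ?_, fun k => ?_, fun k u hu => ?_,
    fun k l hkl => ?_, fun k l hkl h => ?_⟩⟩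
  · obtain ⟨j, hj⟩ := mem_WN.1 hu
    refine ⟨Nat.prime_of_mem_primeFactors hj, ?_⟩
    rintro rfl
    exact (hb j).2.1 (Nat.dvd_of_mem_primeFactors hj)
  · exact mem_WN.2 ⟨k, Nat.mem_primeFactors.2 ⟨hr k, hrN k, (hb k).1⟩⟩
  · obtain ⟨j, hj⟩ := mem_WN.1 hu
    exact hru j u (Nat.prime_of_mem_primeFactors hj) (Nat.dvd_of_mem_primeFactors hj) (hne j)
  · exact (fe_ne (hb k)).2 (Nat.mem_primeFactors.2 ⟨hr k, hrN k, (hb k).1⟩)
  · by_contra h
    exact hu (mem_WN.2 ⟨k, (fe_ne (hb k)).1 h⟩)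
  · by_contra h
    have h1 := (fe_ne (hb k)).1 h
    have h2 := hru k (r l) (hr l) (Nat.dvd_of_mem_primeFactors h1) hkl
    have h3 := hr2 l
    omega
  · exact hkl (hN (fe_injB (hb k) (hb l) h))

/-- the system on a larger set of primes -/
theorem kt_sub {T' T : Finset ℕ} (hT : T' ⊆ T) {f : ℕ → ZMod 3} (hf : ∀ u, u ∉ T' → f u = 0) :
    finrank (ZMod 3) (KT T f) = finrank (ZMod 3) (KT T' f) := by
  obtain ⟨φ, hφ⟩ : ∃ φ : (T' → ZMod 3) →ₗ[ZMod 3] (T → ZMod 3), ∀ y (p : T),
      φ y p = if h : (p : ℕ) ∈ T' then y ⟨p, h⟩ else 0 := by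
    refine ⟨{ toFun := fun y p => if h : (p : ℕ) ∈ T' then y ⟨p, h⟩ else 0,
              map_add' := fun x y => ?_, map_smul' := fun a x => ?_ }, fun _ _ => rfl⟩
    · funext p
      by_cases h : (p : ℕ) ∈ T'
      · simp only [Pi.add_apply, dif_pos h]
      · simp only [Pi.add_apply, dif_neg h, add_zero]
    · funext p
      by_cases h : (p : ℕ) ∈ T'
      · simp only [Pi.smul_apply, dif_pos h, RingHom.id_apply]
      · simp only [Pi.smul_apply, dif_neg h, smul_zero, RingHom.id_apply]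
  have hinj : Function.Injective φ := by
    intro x y h
    funext p
    have h1 := congrFun h ⟨p, hT p.2⟩
    rw [hφ, hφ, dif_pos p.2, dif_pos p.2] at h1
    exact h1
  have hsum : ∀ (y : T' → ZMod 3) (p : T') (c : ZMod 3),
      ∑ q : T, f p * f q * lam p q * (φ y q - c) = ∑ q : T', f p * f q * lam p q * (y q - c) := by
    intro y p c
    have h1 : ∑ q : T', f p * f q * lam p q * (y q - c) =
        ∑ x ∈ (univ : Finset ↥T').image (fun u : ↥T' => (⟨(u : ℕ), hT u.2⟩ : ↥T)),
          f p * f x * lam p x * (φ y x - c) := by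
      rw [sum_image]
      · refine sum_congr rfl fun q _ => ?_
        rw [hφ, dif_pos q.2]
      · intro x _ y _ hxy
        exact Subtype.ext (congrArg (fun z : ↥T => (z : ℕ)) hxy)
    rw [h1]
    symm
    refine sum_subset (subset_univ _) fun x _ hx => ?_
    have h2 : f x = 0 := hf x fun hxT => hx (mem_image.2 ⟨⟨x, hxT⟩, mem_univ _, rfl⟩)
    rw [h2]
    ring
  have h1 : (KT T' f).map φ = KT T f := by
    ext x
    rw [Submodule.mem_map]
    constructor
    · rintro ⟨y, hy, rfl⟩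
      rw [mem_KT] at hy ⊢
      refine ⟨fun p hp => ?_, fun p hp => ?_⟩
      · rw [hφ]
        split_ifs with h
        · exact hy.1 ⟨p, h⟩ hp
        · rfl
      · by_cases h : (p : ℕ) ∈ T'
        · rw [hsum y ⟨p, h⟩ (φ y p), hφ, dif_pos h]
          exact hy.2 ⟨p, h⟩ hp
        · refine sum_eq_zero fun q _ => ?_
          rw [hf p h]
          ring
    · intro hx
      rw [mem_KT] at hx
      have h2 : φ (fun p => x ⟨p, hT p.2⟩) = x := by
        funext p
        rw [hφ]
        split_ifs with h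
        · rfl
        · exact (hx.1 p (hf p h)).symm
      refine ⟨fun p => x ⟨p, hT p.2⟩, ?_, h2⟩
      rw [mem_KT]
      refine ⟨fun p hp => hx.1 ⟨p, hT p.2⟩ hp, fun p hp => ?_⟩
      have h3 := hx.2 ⟨p, hT p.2⟩ hp
      rw [← hsum (fun p => x ⟨p, hT p.2⟩) p (x ⟨p, hT p.2⟩), h2]
      exact h3
  rw [← h1]
  exact ((Submodule.equivMapOfInjective φ hinj _).finrank_eq).symm

theorem ck_sub {S W' W : Finset ℕ} (hW : W' ⊆ W) {m : ℕ → ZMod 3} (hm : ∀ u, u ∉ W' → m u = 0)
    (e : S → ZMod 3) : ck S W m e = ck S W' m e := by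
  unfold ck
  rw [kt_sub (union_subset_union (Finset.Subset.refl S) hW)]
  intro u hu
  rw [mem_union, not_or] at hu
  unfold xe
  rw [dif_neg hu.1, hm u hu.2, add_zero]

/-- **Almost all numbers have the property.** -/
theorem alm_TDJ {k : ℕ} (hk : k < 9) {N : κ → ℕ} (hC : ∀ j, Cls (N j))
    (hN : Function.Injective N) (B : ℕ) (ε : ℝ) (hε : 0 < ε) :
    Alm Dc (TDJ k N B ε) := by
  obtain ⟨r, hb⟩ := bdJ_of hC hN
  obtain ⟨c, X₀, hc, hlow⟩ := low_D
  intro δ hδ
  obtain ⟨η, hη⟩ : ∃ η : ℝ, η = δ / (2 + 7 / c) := ⟨_, rfl⟩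
  have hη0 : 0 < η := by rw [hη]; positivity
  have h2 := asyJ hk hb 2 (by norm_num) B ε hε η hη0
  have h5 := asyJ hk hb 5 (by norm_num) B ε hε η hη0
  have t2 : Tendsto (fun X : ℕ => 2 * X) atTop atTop := tendsto_id.const_mul_atTop' (by norm_num)
  have t5 : Tendsto (fun X : ℕ => 5 * X) atTop atTop := tendsto_id.const_mul_atTop' (by norm_num)
  filter_upwards [t2.eventually h2, t5.eventually h5, ev_eL 1, eventually_ge_atTop X₀,
    eventually_ge_atTop 3] with X g2 g5 hl hX0 hX3
  have hl0 : 0 < eL X := by linarith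
  have hXp : (0 : ℝ) < X := by exact_mod_cast (by omega : 0 < X)
  have hlo := hlow X hX0
  rw [rpow_eL hl0, DS_eq] at hlo
  have hlX : 0 < Real.log X := Real.log_pos (by exact_mod_cast (by omega : 1 < X))
  -- the error terms
  have herr : ∀ a : ℕ, 1 ≤ a → Real.exp (-(eL (a * X)) / 2) ≤ Real.exp (-(1 / 2) * eL X) := by
    intro a ha
    apply Real.exp_le_exp.2
    have h1 : eL X ≤ eL (a * X) := by
      unfold eL
      refine Real.log_le_log hlX (Real.log_le_log hXp ?_)
      exact_mod_cast Nat.le_mul_of_pos_left X (by omega)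
    linarith
  have hbound : ∀ a : ℕ, a.Prime → a % 3 = 2 →
      (((SS (a * X)).filter fun S => a ∈ S ∧
        ¬ TSJ k (WN N) (fun j => fe (N j)) B ε (S.erase a)).card : ℝ) ≤
      η * (((SS (a * X)).filter fun S => a ∈ S).card : ℝ) +
        η * (((a * X : ℕ) : ℝ) * Real.exp (-(eL (a * X)) / 2)) →
      (((SS (a * X)).filter fun S => a ∈ S ∧
        ¬ TSJ k (WN N) (fun j => fe (N j)) B ε (S.erase a)).card : ℝ) ≤
      η * (cnt Dc X : ℝ) + η * (a / c) * (cnt Dc X : ℝ) := by
    intro a ha ha2 h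
    have h1 : (((SS (a * X)).filter fun S => a ∈ S).card : ℝ) ≤ (cnt Dc X : ℝ) := by
      exact_mod_cast card_aux ha ha2
    have h3 := herr a ha.one_lt.le
    have h4 : (((a * X : ℕ) : ℝ) * Real.exp (-(eL (a * X)) / 2)) ≤ (a / c) * (cnt Dc X : ℝ) := by
      calc (((a * X : ℕ) : ℝ) * Real.exp (-(eL (a * X)) / 2)) ≤
            ((a * X : ℕ) : ℝ) * Real.exp (-(1 / 2) * eL X) :=
            mul_le_mul_of_nonneg_left h3 (Nat.cast_nonneg _)
        _ = (a / c) * (c * X * Real.exp (-(1 / 2) * eL X)) := by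
            push_cast
            field_simp
        _ ≤ _ := mul_le_mul_of_nonneg_left hlo (by positivity)
    have h6 := mul_le_mul_of_nonneg_left h1 hη0.le
    have h7 := mul_le_mul_of_nonneg_left h4 hη0.le
    linarith
  have b2 := hbound 2 Nat.prime_two (by norm_num) g2
  have b5 := hbound 5 Nat.prime_five (by norm_num) g5
  -- the exceptional numbers
  have hcard : cnt (fun D => Dc D ∧ ¬ TDJ k N B ε D) X ≤
      ((SS (2 * X)).filter fun S => 2 ∈ S ∧
        ¬ TSJ k (WN N) (fun j => fe (N j)) B ε (S.erase 2)).card +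
      ((SS (5 * X)).filter fun S => 5 ∈ S ∧
        ¬ TSJ k (WN N) (fun j => fe (N j)) B ε (S.erase 5)).card := by
    have hinj : ∀ a : ℕ, a.Prime → a % 3 = 2 → ((cs (fun D => Dc D ∧ ¬ TDJ k N B ε D) X).filter
        fun D => a * D % 9 ≠ 1 ∧ a * D % 9 ≠ 8).card ≤
        ((SS (a * X)).filter fun S => a ∈ S ∧
        ¬ TSJ k (WN N) (fun j => fe (N j)) B ε (S.erase a)).card := by
      intro a ha ha2
      refine card_le_card_of_injOn (fun D => insert a D.primeFactors) ?_ ?_
      · intro D hD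
        rw [mem_coe, mem_filter, mem_cs] at hD
        obtain ⟨⟨⟨-, hX⟩, hDc, hT⟩, h1, h8⟩ := hD
        obtain ⟨k1, k2⟩ := ins_mem hDc hX ha ha2 h1 h8
        rw [mem_coe, mem_filter]
        refine ⟨k1, mem_insert_self _ _, ?_⟩
        rw [k2]
        exact hT
      · intro D hD D' hD' h
        rw [mem_coe, mem_filter, mem_cs] at hD hD'
        obtain ⟨-, k2⟩ := ins_mem hD.1.2.1 hD.1.1.2 ha ha2 hD.2.1 hD.2.2
        obtain ⟨-, k2'⟩ := ins_mem hD'.1.2.1 hD'.1.1.2 ha ha2 hD'.2.1 hD'.2.2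
        have e1 : D.primeFactors = D'.primeFactors := by
          rw [← k2, ← k2']
          exact congrArg (fun T : Finset ℕ => T.erase a) h
        rw [← Nat.prod_primeFactors_of_squarefree hD.1.2.1.1,
          ← Nat.prod_primeFactors_of_squarefree hD'.1.2.1.1, e1]
    refine le_trans ?_ (Nat.add_le_add (hinj 2 Nat.prime_two (by norm_num))
      (hinj 5 Nat.prime_five (by norm_num)))
    refine le_trans (card_le_card ?_) (card_union_le _ _)
    intro D hD
    rw [mem_union, mem_filter, mem_filter]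
    have hD3 := prod_mod3 (mem_cs.1 hD).2.1
    by_cases h4 : D % 9 = 4
    · right
      exact ⟨hD, by omega, by omega⟩
    · left
      exact ⟨hD, by omega, by omega⟩
  have hcard' : (cnt (fun D => Dc D ∧ ¬ TDJ k N B ε D) X : ℝ) ≤
      (((SS (2 * X)).filter fun S => 2 ∈ S ∧
        ¬ TSJ k (WN N) (fun j => fe (N j)) B ε (S.erase 2)).card : ℝ) +
      (((SS (5 * X)).filter fun S => 5 ∈ S ∧
        ¬ TSJ k (WN N) (fun j => fe (N j)) B ε (S.erase 5)).card : ℝ) := by exact_mod_cast hcard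
  have hfin : η * (cnt Dc X : ℝ) + η * (2 / c) * (cnt Dc X : ℝ) +
      (η * (cnt Dc X : ℝ) + η * (5 / c) * (cnt Dc X : ℝ)) = δ * (cnt Dc X : ℝ) := by
    rw [hη]
    field_simp
    ring
  push_cast at b2 b5
  linarith

end all

end Q283.NJ
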