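import Pool.Agent.Q283.NJ.D5
import Pool.Agent.Q283.ND.Mn
import Pool.Agent.Q283.Q3.Lawq

/-! Several bases: the joint law over the divisors of `D²` -/

set_option autoImplicit false
set_option linter.unusedSectionVars false

open scoped Classical
open Finset Filter

namespace Q283.NJ

open Module
open Q283.Q3N (fe fe_ne)
open Q283.Q3 (cq cq_ge cq_le sum_cq)
open Q283.Q3A (sum_pi)
open Q283.Q3B (rr)
open Pool.Agent.Y703.CT (Cls Base)
open Q155.NL (Alm cnt cs mem_cs alm_finset alm_mono alm_true alm_and exists_dense)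
open Q283.ND (Dc xe ck Ax cf Dk Dk_eq dv dv_inj ck_rr)

/-- **The coranks of a family over the divisors.** -/
theorem good_divJ {κ : Type} [Fintype κ] {k D B : ℕ} {N : κ → ℕ} {ε : ℝ} (hC : ∀ j, Cls (N j))
    (hD : Dc D) (h1 : ∀ j, N j * k % 9 ≠ 1) (h8 : ∀ j, N j * k % 9 ≠ 8) (h : TDJ k N B ε D) :
    GoodJ B ε (Dk k D) fun d j => rr (cf (N j * d)) := by
  have hmod : ∀ e ∈ Ax k D.primeFactors, ∀ j, N j * dv e % 9 = N j * k % 9 := by
    intro e he j
    unfold Ax at he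
    rw [mem_filter] at he
    have h2 : dv e % 9 = k := he.2
    rw [Nat.mul_mod, h2]
    have hk : k < 9 := by
      rw [← h2]
      exact Nat.mod_lt _ (by norm_num)
    conv_rhs => rw [Nat.mul_mod, Nat.mod_eq_of_lt hk]
  have hck : ∀ e ∈ Ax k D.primeFactors, (fun j => ck D.primeFactors (WN N) (fe (N j)) e) =
      fun j => rr (cf (N j * dv e)) := by
    intro e he
    funext j
    have h2 := hmod e he j
    rw [ck_sub (W' := (N j).primeFactors) (fun u hu => mem_WN.2 ⟨j, hu⟩) (fun u hu => ?_)]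
    · exact ck_rr (hC j) hD e (by rw [h2]; exact h1 j) (by rw [h2]; exact h8 j)
    · by_contra h3
      exact hu ((fe_ne (hC j).1).1 h3)
  have hinj : Set.InjOn (dv (S := D.primeFactors)) (Ax k D.primeFactors) :=
    fun _ _ _ _ h' => dv_inj h'
  have hcard : (Dk k D).card = (Ax k D.primeFactors).card := by
    rw [Dk_eq hD.1, card_image_of_injOn hinj]
  have hsum : ∀ f : (κ → ℕ) → ℝ, ∑ d ∈ Dk k D, f (fun j => rr (cf (N j * d))) =
      ∑ e ∈ Ax k D.primeFactors, f (fun j => ck D.primeFactors (WN N) (fe (N j)) e) := by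
    intro f
    rw [Dk_eq hD.1, sum_image hinj]
    exact sum_congr rfl fun e he => by rw [hck e he]
  intro b hb
  have h2 := h b hb
  rw [hcard, hsum fun r => oneJ b r - qJ b]
  exact h2

/-- the product law -/
noncomputable def msJ {M : ℕ} (T : Set (Fin M → ℕ)) : ℝ := ∑' r : T, ∏ k, cq (r.1 k)

/-- the joint law -/
def LwJ {M : ℕ} {E : Type} (ε : ℝ) (A : Finset E) (g : E → Fin M → ℕ) : Prop :=
  ∀ T : Set (Fin M → ℕ), |((A.filter fun e => g e ∈ T).card : ℝ) - msJ T * A.card| ≤ ε * A.card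

theorem cnt_oneJ {M : ℕ} {E : Type} (A : Finset E) (g : E → Fin M → ℕ) (b : Fin M → ℕ) :
    ∑ e ∈ A, (oneJ b (g e) - qJ b) = ((A.filter fun e => g e = b).card : ℝ) - qJ b * A.card := by
  rw [sum_sub_distrib, sum_const, nsmul_eq_mul]
  have h : ∑ e ∈ A, oneJ b (g e) = ((A.filter fun e => g e = b).card : ℝ) := by
    rw [card_filter]
    push_cast
    refine sum_congr rfl fun e _ => ?_
    rw [oneJ_eq]
    by_cases h : g e = b
    · rw [if_pos h, if_pos fun k => congrFun h k]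
    · rw [if_neg h, if_neg fun h' => h (funext h')]
  rw [h]
  ring

theorem msJ_hasSum {M : ℕ} (T : Set (Fin M → ℕ)) :
    HasSum (fun r : Fin M → ℕ => if r ∈ T then qJ r else 0) (msJ T) := by
  have h1 : Summable (fun r : Fin M → ℕ => qJ r) := (sum_pi M).summable
  have h2 := h1.indicator T
  have h3 : msJ T = ∑' r : Fin M → ℕ, T.indicator (fun r => qJ r) r := by
    unfold msJ
    exact tsum_subtype T (fun r : Fin M → ℕ => qJ r)
  rw [h3]
  refine h2.hasSum.congr_fun fun r => ?_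
  rw [Set.indicator_apply]

theorem lwJ_of_good (M : ℕ) (ε : ℝ) (hε : 0 < ε) : ∃ (B n : ℕ), ∀ (E : Type) (A : Finset E)
    (g : E → Fin M → ℕ), GoodJ B (1 / ((n : ℝ) + 1)) A g → LwJ ε A g := by
  have hq1 : Tendsto (fun B : ℕ => (∑ b ∈ range B, cq b) ^ M) atTop (nhds 1) := by
    have h := (sum_cq.tendsto_sum_nat).pow M
    rwa [one_pow] at h
  obtain ⟨B, hB⟩ := (hq1.eventually (lt_mem_nhds (show 1 - ε / 4 < 1 by linarith))).exists
  obtain ⟨Q, hQ⟩ : ∃ Q : Finset (Fin M → ℕ), Q = Fintype.piFinset fun _ => range B := ⟨_, rfl⟩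
  have hmQ : ∀ b, b ∈ Q ↔ ∀ k, b k < B := by
    intro b
    rw [hQ, Fintype.mem_piFinset]
    exact forall_congr' fun k => mem_range
  have g1 : 1 - ε / 4 < ∑ b ∈ Q, qJ b := by
    have h1 : ∑ b ∈ Q, qJ b = (∑ b ∈ range B, cq b) ^ M := by
      have h2 := prod_univ_sum (fun _ : Fin M => range B) (fun _ b => cq b)
      rw [prod_const, card_univ, Fintype.card_fin] at h2
      rw [h2, hQ]
      rfl
    rw [h1]
    exact hB
  obtain ⟨n, hn⟩ := exists_nat_one_div_lt (show (0 : ℝ) < ε / (4 * (Q.card + 1)) by positivity)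
  obtain ⟨δ, hδ⟩ : ∃ δ : ℝ, δ = 1 / ((n : ℝ) + 1) := ⟨_, rfl⟩
  have hδ0 : 0 < δ := by rw [hδ]; positivity
  rw [← hδ] at hn
  have hδB : δ * (4 * (Q.card + 1)) ≤ ε := by
    have := hn.le
    rwa [le_div_iff₀ (by positivity)] at this
  refine ⟨B, n, fun E A g h T => ?_⟩
  rw [← hδ] at h
  obtain ⟨a, ha⟩ : ∃ a : ℝ, a = A.card := ⟨_, rfl⟩
  have ha0 : 0 ≤ a := by rw [ha]; positivity
  have k3 : ∀ b ∈ Q, |((A.filter fun e => g e = b).card : ℝ) - qJ b * a| ≤ δ * a := by
    intro b hb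
    have := h b ((hmQ b).1 hb)
    rw [cnt_oneJ] at this
    rw [ha]
    exact this
  have hQδ : (Q.card : ℝ) * (δ * a) ≤ ε / 4 * a := by
    have h1 : (Q.card : ℝ) * δ ≤ ε / 4 := by nlinarith [(Nat.cast_nonneg Q.card : (0 : ℝ) ≤ Q.card)]
    nlinarith
  -- sums over parts of the box
  have hF : ∀ F : Finset (Fin M → ℕ), F ⊆ Q →
      |((A.filter fun e => g e ∈ F).card : ℝ) - (∑ b ∈ F, qJ b) * a| ≤ ε / 4 * a := by
    intro F hF
    have h1 : ((A.filter fun e => g e ∈ F).card : ℝ) =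
        ∑ b ∈ F, ((A.filter fun e => g e = b).card : ℝ) := by
      rw [card_eq_sum_card_fiberwise (f := g) (t := F) (by
        intro e he
        rw [mem_coe, mem_filter] at he
        exact he.2)]
      push_cast
      refine sum_congr rfl fun b hb => ?_
      rw [filter_filter]
      congr 2
      refine filter_congr fun e _ => ?_
      exact ⟨fun h => h.2, fun h => ⟨h ▸ hb, h⟩⟩
    rw [h1, sum_mul, ← sum_sub_distrib]
    refine (abs_sum_le_sum_abs _ _).trans ((sum_le_sum fun b hb => k3 b (hF hb)).trans ?_)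
    rw [sum_const, nsmul_eq_mul]
    refine le_trans (mul_le_mul_of_nonneg_right ?_ (by positivity)) hQδ
    exact_mod_cast card_le_card hF
  have h4 := hF (Q.filter fun b => b ∈ T) (filter_subset _ _)
  have h5 := hF Q (Finset.Subset.refl _)
  -- the tail of the law
  have hms := msJ_hasSum T
  have hq0 : ∀ b : Fin M → ℕ, 0 ≤ qJ b := qJ_ge
  have e6 : ∑ b ∈ Q.filter (fun b => b ∈ T), qJ b = ∑ b ∈ Q, if b ∈ T then qJ b else 0 :=
    sum_filter _ _
  have h6 : ∑ b ∈ Q.filter (fun b => b ∈ T), qJ b ≤ msJ T := by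
    rw [e6]
    refine sum_le_hasSum _ (fun r _ => ?_) hms
    split_ifs
    · exact hq0 r
    · exact le_rfl
  have h7 : msJ T - ∑ b ∈ Q.filter (fun b => b ∈ T), qJ b ≤ ε / 4 := by
    have h9 : HasSum (fun r : Fin M → ℕ => qJ r - if r ∈ T then qJ r else 0) (1 - msJ T) :=
      (sum_pi M).sub hms
    have h8 : ∑ b ∈ Q, (qJ b - if b ∈ T then qJ b else 0) ≤ 1 - msJ T := by
      refine sum_le_hasSum _ (fun r _ => ?_) h9
      split_ifs
      · linarith [hq0 r]
      · linarith [hq0 r]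
    rw [sum_sub_distrib, ← e6] at h8
    linarith
  have h8 : ((A.filter fun e => g e ∈ T).card : ℝ) =
      ((A.filter fun e => g e ∈ Q.filter fun b => b ∈ T).card : ℝ) +
      ((A.filter fun e => g e ∈ T ∧ g e ∉ Q).card : ℝ) := by
    have h9 := card_filter_add_card_filter_not (s := A.filter fun e => g e ∈ T) (fun e => g e ∈ Q)
    rw [filter_filter, filter_filter] at h9
    have e1 : A.filter (fun e => g e ∈ T ∧ g e ∈ Q) =
        A.filter fun e => g e ∈ Q.filter fun b => b ∈ T := by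
      refine filter_congr fun e _ => ?_
      rw [mem_filter]
      tauto
    rw [e1] at h9
    exact_mod_cast h9.symm
  have h9 : ((A.filter fun e => g e ∈ T ∧ g e ∉ Q).card : ℝ) ≤ ε / 2 * a := by
    have h10 : (A.filter fun e => g e ∈ T ∧ g e ∉ Q).card ≤ (A.filter fun e => g e ∉ Q).card :=
      card_le_card fun e he => by
        rw [mem_filter] at he ⊢
        exact ⟨he.1, he.2.2⟩
    have h11 := card_filter_add_card_filter_not (s := A) (fun e => g e ∈ Q)
    have h12 : ((A.filter fun e => g e ∈ Q).card : ℝ) + ((A.filter fun e => g e ∉ Q).card : ℝ) = a := by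
      rw [ha]
      exact_mod_cast h11
    have h13 := (abs_le.1 h5).1
    have h14 : (1 - ε / 4) * a ≤ (∑ b ∈ Q, qJ b) * a := mul_le_mul_of_nonneg_right g1.le ha0
    have h15 : ((A.filter fun e => g e ∈ T ∧ g e ∉ Q).card : ℝ) ≤
        ((A.filter fun e => g e ∉ Q).card : ℝ) := by exact_mod_cast h10
    linarith
  rw [← ha, abs_le]
  have h10 := abs_le.1 h4
  have h11 : (∑ b ∈ Q.filter (fun b => b ∈ T), qJ b) * a ≤ msJ T * a :=
    mul_le_mul_of_nonneg_right h6 ha0
  have h12 : (msJ T - ∑ b ∈ Q.filter (fun b => b ∈ T), qJ b) * a ≤ ε / 4 * a :=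
    mul_le_mul_of_nonneg_right h7 ha0
  have h13 : 0 ≤ ε * a := by positivity
  have h14 : (0 : ℝ) ≤ ((A.filter fun e => g e ∈ T ∧ g e ∉ Q).card : ℝ) := Nat.cast_nonneg _
  rw [h8]
  constructor <;> linarith [h10.1, h10.2]

/-- **One set of numbers for all finite families of bases.** -/
theorem mainJ : ∃ S : ℕ → Prop, Alm Dc S ∧ ∀ (M : ℕ) (N : Fin M → ℕ), (∀ j, Cls (N j)) →
    Function.Injective N → ∀ ε : ℝ, 0 < ε →
    ∀ᶠ D in atTop, Dc D → S D → ∀ k : ℕ, (∀ j, N j * k % 9 ≠ 1) → (∀ j, N j * k % 9 ≠ 8) →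
      LwJ ε (Dk k D) fun d j => rr (cf (N j * d)) := by
  obtain ⟨φ, hφ⟩ := exists_surjective_nat (Σ M : ℕ, (Fin M → ℕ) × ℕ × ℕ)
  obtain ⟨S, hS, h⟩ := exists_dense (C := Dc) (T := fun j D =>
    ∀ k ∈ range 9, (∀ i, Cls ((φ j).2.1 i)) → Function.Injective (φ j).2.1 →
      TDJ k (φ j).2.1 (φ j).2.2.1 (1 / (((φ j).2.2.2 : ℝ) + 1)) D) fun j => by
    refine alm_finset (range 9) fun k hk => ?_
    by_cases hC : (∀ i, Cls ((φ j).2.1 i)) ∧ Function.Injective (φ j).2.1
    · exact alm_mono (alm_TDJ (mem_range.1 hk) hC.1 hC.2 _ _ (by positivity)) fun D _ hD _ _ => hD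
    · exact alm_mono (alm_true Dc) fun D _ _ h1 h2 => absurd ⟨h1, h2⟩ hC
  refine ⟨S, hS, fun M N hC hN ε hε => ?_⟩
  obtain ⟨B, n, hg⟩ := lwJ_of_good M ε hε
  obtain ⟨j, hj⟩ := hφ ⟨M, N, B, n⟩
  filter_upwards [h j] with D hD hDc hSD k h1 h8
  rw [hj] at hD
  refine hg _ _ _ ?_
  by_cases hk : k < 9
  · exact good_divJ hC hDc h1 h8 (hD hSD k (mem_range.2 hk) hC hN)
  · have he : Dk k D = ∅ := by
      unfold Dk
      rw [filter_eq_empty_iff]
      intro d _ hd
      have := Nat.mod_lt d (show 0 < 9 by norm_num)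
      omega
    rw [he]
    intro b _
    simp

end Q283.NJ
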