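import Pool.Agent.Q283.NJ.F0
import Pool.Agent.Y488.CX.Sie
import Pool.Agent.Q155.NL.Dia

/-! Upper bounds for the numbers with all prime factors in a set of primes of density one half -/

set_option autoImplicit false

open scoped Classical
open Finset Filter

namespace Q283.NJ

open Q155.NL (Alm cnt cs mem_cs)

/-- the squarefree numbers with all prime factors in `A` -/
def Ac (A : ℕ → Prop) (n : ℕ) : Prop := Squarefree n ∧ ∀ p : ℕ, p.Prime → p ∣ n → A p

/-- the sets of primes in `A` with small product -/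
noncomputable def LA (A : ℕ → Prop) (X : ℕ) : Finset (Finset ℕ) :=
  ((range (X + 1)).filter fun p => p.Prime ∧ A p).powerset.filter fun S => ∏ p ∈ S, p ≤ X

theorem mem_LA {A : ℕ → Prop} {X : ℕ} {S : Finset ℕ} : S ∈ LA A X ↔
    (∀ p ∈ S, p.Prime ∧ A p) ∧ ∏ p ∈ S, p ≤ X := by
  unfold LA
  rw [mem_filter, mem_powerset]
  constructor
  · rintro ⟨h1, h2⟩
    exact ⟨fun p hp => (mem_filter.1 (h1 hp)).2, h2⟩
  · rintro ⟨h1, h2⟩
    refine ⟨fun p hp => ?_, h2⟩
    rw [mem_filter, mem_range]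
    refine ⟨?_, h1 p hp⟩
    have h3 : p ≤ ∏ q ∈ S, q := Nat.le_of_dvd (prod_pos fun q hq => (h1 q hq).1.pos)
      (dvd_prod_of_mem (fun q => q) hp)
    omega

theorem inj_LA (A : ℕ → Prop) (X : ℕ) : Set.InjOn (fun S : Finset ℕ => ∏ p ∈ S, p) (LA A X) := by
  intro S hS T hT h
  rw [mem_coe, mem_LA] at hS hT
  have e1 := Nat.primeFactors_prod (s := S) fun p hp => (hS.1 p hp).1
  have e2 := Nat.primeFactors_prod (s := T) fun p hp => (hT.1 p hp).1
  rw [← e1, ← e2]
  exact congrArg _ h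

theorem cs_LA (A : ℕ → Prop) (X : ℕ) : cs (Ac A) X = (LA A X).image fun S => ∏ p ∈ S, p := by
  ext n
  rw [mem_cs, mem_image]
  constructor
  · rintro ⟨⟨h1, h2⟩, h3, h4⟩
    have h5 := Nat.prod_primeFactors_of_squarefree h3
    refine ⟨n.primeFactors, mem_LA.2 ⟨fun p hp => ?_, by rw [h5]; exact h2⟩, h5⟩
    exact ⟨Nat.prime_of_mem_primeFactors hp, h4 p (Nat.prime_of_mem_primeFactors hp)
      (Nat.dvd_of_mem_primeFactors hp)⟩
  · rintro ⟨S, hS, rfl⟩
    rw [mem_LA] at hS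
    refine ⟨⟨prod_pos fun q hq => (hS.1 q hq).1.pos, hS.2⟩, ?_, ?_⟩
    · exact Finset.squarefree_prod_of_pairwise_isCoprime (fun x hx y hy hxy => by
        rw [Function.onFun, ← Nat.coprime_iff_isRelPrime]
        exact (Nat.coprime_primes (hS.1 x hx).1 (hS.1 y hy).1).2 hxy)
        fun x hx => (hS.1 x hx).1.squarefree
    · intro p hp hd
      obtain ⟨u, hu, hpu⟩ := (hp.prime.dvd_finsetProd_iff _).1 hd
      rw [(Nat.prime_dvd_prime_iff_eq hp (hS.1 u hu).1).1 hpu]
      exact (hS.1 u hu).2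

/-- the square root of the logarithm -/
noncomputable def sl (X : ℕ) : ℝ := Real.sqrt (1 + Real.log X)

theorem sl_ge (X : ℕ) : 1 ≤ sl X := by
  unfold sl
  rw [Real.one_le_sqrt]
  linarith [Real.log_natCast_nonneg X]

theorem sl_mono {X Y : ℕ} (h : X ≤ Y) (hX : 1 ≤ X) : sl X ≤ sl Y := by
  unfold sl
  apply Real.sqrt_le_sqrt
  have h1 : Real.log X ≤ Real.log Y := Real.log_le_log (by exact_mod_cast hX) (by exact_mod_cast h)
  linarith

theorem sl_tendsto : Tendsto sl atTop atTop := by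
  unfold sl
  refine Real.tendsto_sqrt_atTop.comp ?_
  exact tendsto_atTop_add_const_left _ _ (Real.tendsto_log_atTop.comp tendsto_natCast_atTop_atTop)

/-- Mertens' bound for the set `A` -/
def Mr (A : ℕ → Prop) : Prop := ∃ C : ℝ, ∀ y : ℕ, 3 ≤ y →
    ∑ p ∈ (range (y + 1)).filter (fun p => p.Prime ∧ A p), (1 : ℝ) / p ≤
      1 / 2 * Real.log (Real.log y) + C

theorem sum_LA (A : ℕ → Prop) (X : ℕ) : ∑ S ∈ LA A X, (1 : ℝ) / ((∏ p ∈ S, p : ℕ) : ℝ) ≤
    Real.exp (∑ p ∈ (range (X + 1)).filter (fun p => p.Prime ∧ A p), (1 : ℝ) / p) := by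
  calc ∑ S ∈ LA A X, (1 : ℝ) / ((∏ p ∈ S, p : ℕ) : ℝ) ≤
        ∑ S ∈ ((range (X + 1)).filter fun p => p.Prime ∧ A p).powerset, ∏ p ∈ S, (1 : ℝ) / p := by
        have h1 : ∀ S ∈ LA A X, (1 : ℝ) / ((∏ p ∈ S, p : ℕ) : ℝ) = ∏ p ∈ S, (1 : ℝ) / p := by
          intro S _
          rw [prod_div_distrib, prod_const_one]
          push_cast
          rfl
        rw [sum_congr rfl h1]
        refine sum_le_sum_of_subset_of_nonneg (filter_subset _ _) fun S _ _ => ?_
        exact prod_nonneg fun _ _ => by positivity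
    _ = ∏ p ∈ (range (X + 1)).filter (fun p => p.Prime ∧ A p), (1 + (1 : ℝ) / p) := by
        rw [prod_one_add]
    _ ≤ ∏ p ∈ (range (X + 1)).filter (fun p => p.Prime ∧ A p), Real.exp ((1 : ℝ) / p) := by
        refine prod_le_prod (fun _ _ => by positivity) fun p _ => ?_
        rw [add_comm]
        exact Real.add_one_le_exp _
    _ = _ := by rw [← Real.exp_sum]

theorem rLA_le {A : ℕ → Prop} (hA : Mr A) : ∃ C : ℝ, 1 ≤ C ∧ ∀ X : ℕ, 1 ≤ X →
    ∑ S ∈ LA A X, (1 : ℝ) / ((∏ p ∈ S, p : ℕ) : ℝ) ≤ C * sl X := by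
  obtain ⟨C, hC⟩ := hA
  refine ⟨max 2 (Real.exp C), (by norm_num : (1 : ℝ) ≤ 2).trans (le_max_left _ _), fun X hX => ?_⟩
  have hs := sl_ge X
  rcases Nat.lt_or_ge X 3 with h3 | h3
  · have h1 : ∑ S ∈ LA A X, (1 : ℝ) / ((∏ p ∈ S, p : ℕ) : ℝ) ≤ 2 := by
      have h2 : ∑ S ∈ LA A X, (1 : ℝ) / ((∏ p ∈ S, p : ℕ) : ℝ) ≤ ∑ S ∈ LA A X, (1 : ℝ) := by
        refine sum_le_sum fun S hS => ?_
        rw [mem_LA] at hS
        have h4 : 0 < ∏ p ∈ S, p := prod_pos fun q hq => (hS.1 q hq).1.pos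
        rw [div_le_one (by exact_mod_cast h4)]
        exact_mod_cast h4
      refine h2.trans ?_
      rw [sum_const, nsmul_eq_mul, mul_one]
      have h4 : (LA A X).card ≤ 2 := by
        rw [← card_image_of_injOn (inj_LA A X), ← cs_LA]
        refine (card_le_card (filter_subset _ _)).trans ?_
        rw [Nat.card_Icc]
        omega
      exact_mod_cast h4
    have h4 : (2 : ℝ) ≤ max 2 (Real.exp C) := le_max_left _ _
    nlinarith
  · have hl : 1 < Real.log X := by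
      have h4 : (Real.exp 1) < X := by
        have := Real.exp_one_lt_d9
        have h5 : (3 : ℝ) ≤ X := by exact_mod_cast h3
        linarith
      rw [Real.lt_log_iff_exp_lt (by positivity)]
      exact h4
    have h1 := (sum_LA A X).trans (Real.exp_le_exp.2 (hC X h3))
    rw [Real.exp_add] at h1
    have h2 : Real.exp (1 / 2 * Real.log (Real.log X)) = Real.sqrt (Real.log X) := by
      rw [Real.sqrt_eq_rpow, Real.rpow_def_of_pos (by linarith)]
      congr 1
      ring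
    have h4 : Real.sqrt (Real.log X) ≤ sl X := by
      unfold sl
      exact Real.sqrt_le_sqrt (by linarith)
    rw [h2] at h1
    refine h1.trans ?_
    rw [mul_comm]
    exact mul_le_mul (le_max_right _ _) h4 (Real.sqrt_nonneg _) (by positivity)

/-- the sum of the reciprocals -/
theorem r_le {A : ℕ → Prop} (hA : Mr A) : ∃ C : ℝ, 1 ≤ C ∧ ∀ X : ℕ, 1 ≤ X →
    ∑ n ∈ cs (Ac A) X, (1 : ℝ) / n ≤ C * sl X := by
  obtain ⟨C, h1, h⟩ := rLA_le hA
  refine ⟨C, h1, fun X hX => ?_⟩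
  rw [cs_LA, sum_image (inj_LA A X)]
  exact h X hX

/-- the number -/
theorem g_le {A : ℕ → Prop} (hA : Mr A) : ∃ C : ℝ, 1 ≤ C ∧ ∀ X : ℕ, 1 ≤ X →
    ((cnt (Ac A) X : ℕ) : ℝ) ≤ C * (X / sl X) := by
  obtain ⟨C, h1, h⟩ := rLA_le hA
  obtain ⟨C₁, h11, hS⟩ := Pool.Agent.Y488.CX.t_SIE
  refine ⟨max 2 (C₁ * C * 2), (by norm_num : (1 : ℝ) ≤ 2).trans (le_max_left _ _), fun X hX => ?_⟩
  have hs := sl_ge X
  have hX0 : (0 : ℝ) < X := by exact_mod_cast hX
  have hcard : cnt (Ac A) X = (LA A X).card := by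
    unfold cnt
    rw [cs_LA, card_image_of_injOn (inj_LA A X)]
  rcases Nat.lt_or_ge X 3 with h3 | h3
  · have h4 : cnt (Ac A) X ≤ X := by
      refine (card_le_card (filter_subset _ _)).trans ?_
      rw [Nat.card_Icc]
      omega
    have h5 : ((cnt (Ac A) X : ℕ) : ℝ) ≤ X := by exact_mod_cast h4
    have h6 : sl X ≤ 2 := by
      unfold sl
      rw [Real.sqrt_le_left (by norm_num)]
      have h7 : Real.log X ≤ Real.log 2 := Real.log_le_log hX0 (by exact_mod_cast (by omega : X ≤ 2))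
      have h8 := Real.log_two_lt_d9
      linarith
    have h7 : (X : ℝ) ≤ 2 * (X / sl X) := by
      rw [mul_div_assoc', le_div_iff₀ (by linarith)]
      nlinarith
    refine h5.trans (h7.trans ?_)
    exact mul_le_mul_of_nonneg_right (le_max_left _ _) (by positivity)
  · have hl : 1 < Real.log X := by
      have h4 : (Real.exp 1) < X := by
        have := Real.exp_one_lt_d9
        have h5 : (3 : ℝ) ≤ X := by exact_mod_cast h3
        linarith
      rw [Real.lt_log_iff_exp_lt (by positivity)]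
      exact h4
    have h4 := hS X (LA A X) hX (fun S hS => by
      rw [mem_LA] at hS
      exact ⟨fun p hp => (hS.1 p hp).1, hS.2⟩) (fun S hS T hT => by
      rw [mem_LA] at hS ⊢
      refine ⟨fun p hp => hS.1 p (hT hp), le_trans ?_ hS.2⟩
      exact Nat.le_of_dvd (prod_pos fun q hq => (hS.1 q hq).1.pos) (prod_dvd_prod_of_subset _ _ _ hT))
    rw [← hcard] at h4
    have h5 : ((cnt (Ac A) X : ℕ) : ℝ) * Real.log X ≤ C₁ * X * (C * sl X) :=
      h4.trans (mul_le_mul_of_nonneg_left (h X hX) (by positivity))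
    have h6 : sl X ^ 2 ≤ 2 * Real.log X := by
      unfold sl
      rw [Real.sq_sqrt (by linarith)]
      linarith
    have hsp : 0 < sl X := by linarith
    have h7 : ((cnt (Ac A) X : ℕ) : ℝ) ≤ C₁ * C * 2 * (X / sl X) := by
      rw [mul_div_assoc', le_div_iff₀ hsp]
      have h8 : ((cnt (Ac A) X : ℕ) : ℝ) * sl X ^ 2 ≤ 2 * (C₁ * X * (C * sl X)) := by
        have h9 : (0 : ℝ) ≤ ((cnt (Ac A) X : ℕ) : ℝ) := Nat.cast_nonneg _
        nlinarith
      have h10 : (((cnt (Ac A) X : ℕ) : ℝ) * sl X) * sl X ≤ (C₁ * C * 2 * X) * sl X := by nlinarith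
      exact le_of_mul_le_mul_right h10 hsp
    refine h7.trans ?_
    exact mul_le_mul_of_nonneg_right (le_max_right _ _) (by positivity)

end Q283.NJ
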