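import Pool.Agent.Q283.NJ.F1

/-! From the squarefree numbers with all prime factors `≡ 1` modulo `3` to all numbers -/

set_option autoImplicit false

open scoped Classical
open Finset Filter

namespace Q283.NJ

open Q155.NL (Alm cnt cs mem_cs cnt_mono)

theorem mr1 : Mr fun p => p % 3 = 1 := by
  obtain ⟨C, hC⟩ := mer1
  refine ⟨C, fun y hy => ?_⟩
  have h := hC y hy
  convert h using 3

theorem mr2 : Mr fun p => p % 3 ≠ 1 := by
  obtain ⟨C, hC⟩ := Pool.Agent.Y87.CX.t_MER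
  refine ⟨C + 1 / 3, fun y hy => ?_⟩
  have h1 := hC y hy
  have h2 : (range (y + 1)).filter (fun p => p.Prime ∧ p % 3 ≠ 1) ⊆
      insert 3 ((range (y + 1)).filter fun p => p.Prime ∧ p % 3 = 2) := by
    intro p hp
    rw [mem_filter] at hp
    rw [mem_insert, mem_filter]
    by_cases h3 : p = 3
    · exact Or.inl h3
    · right
      refine ⟨hp.1, hp.2.1, ?_⟩
      have h4 : ¬ 3 ∣ p := fun h => h3 ((Nat.prime_dvd_prime_iff_eq Nat.prime_three hp.2.1).1 h).symm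
      have := hp.2.2
      omega
  have h3 : ∑ p ∈ (range (y + 1)).filter (fun p => p.Prime ∧ p % 3 ≠ 1), (1 : ℝ) / p ≤
      ∑ p ∈ insert 3 ((range (y + 1)).filter fun p => p.Prime ∧ p % 3 = 2), (1 : ℝ) / p :=
    sum_le_sum_of_subset_of_nonneg h2 fun _ _ _ => by positivity
  have h4 : 3 ∉ (range (y + 1)).filter fun p => p.Prime ∧ p % 3 = 2 := by
    rw [mem_filter]
    rintro ⟨-, -, h⟩
    norm_num at h
  rw [sum_insert h4] at h3
  have e : ∑ p ∈ (range (y + 1)).filter (fun p => p.Prime ∧ p % 3 = 2), (1 : ℝ) / p ≤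
      1 / 2 * Real.log (Real.log y) + C := by
    convert h1 using 2
  push_cast at h3
  have e2 : ∑ p ∈ (range (y + 1)).filter (fun p => p.Prime ∧ p % 3 ≠ 1), (1 : ℝ) / p ≤
      1 / 2 * Real.log (Real.log y) + (C + 1 / 3) := by linarith
  convert e2 using 3

/-- Abel summation -/
theorem abel {a : ℕ → ℝ} {n₀ : ℕ} (h1 : ∀ n, n₀ ≤ n → ∑ i ∈ Icc 1 n, a i ≤ 0)
    (h2 : ∀ n, ∑ i ∈ Icc 1 n, a i ≤ n) (Y : ℕ) : ∑ i ∈ Icc 1 Y, a i / i ≤ n₀ + 1 := by
  have key : ∀ Y : ℕ, ∑ i ∈ Icc 1 Y, a i / i ≤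
      (∑ i ∈ Icc 1 Y, a i) / (Y + 1) + ((min Y n₀ : ℕ) : ℝ) := by
    intro Y
    induction Y with
    | zero => simp
    | succ Y ih =>
      rw [← insert_Icc_right_eq_Icc_add_one (by omega), sum_insert (by simp), sum_insert (by simp)]
      have hA := h2 (Y + 1)
      have hA0 := fun h => h1 (Y + 1) h
      rw [← insert_Icc_right_eq_Icc_add_one (by omega), sum_insert (by simp)] at hA hA0
      obtain ⟨s, hs⟩ : ∃ s, s = ∑ i ∈ Icc 1 Y, a i := ⟨_, rfl⟩
      rw [← hs] at ih hA hA0 ⊢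
      push_cast at hA ⊢
      have hY : (0 : ℝ) ≤ Y := Nat.cast_nonneg _
      have e1 : a (Y + 1) / ((Y : ℝ) + 1) + s / (Y + 1) = (a (Y + 1) + s) / (Y + 1 + 1) +
          (a (Y + 1) + s) / ((Y + 1) * (Y + 1 + 1)) := by
        field_simp
      have e2 : (a (Y + 1) + s) / ((Y + 1) * (Y + 1 + 1)) + min (Y : ℝ) n₀ ≤
          min ((Y : ℝ) + 1) n₀ := by
        rcases le_or_gt n₀ (Y + 1) with h | h
        · have h3 := hA0 h
          have h4 : (a (Y + 1) + s) / ((Y + 1) * ((Y : ℝ) + 1 + 1)) ≤ 0 :=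
            div_nonpos_of_nonpos_of_nonneg h3 (by positivity)
          have h5 : min (Y : ℝ) n₀ ≤ min ((Y : ℝ) + 1) n₀ := min_le_min_right _ (by linarith)
          linarith
        · have h3 : (a (Y + 1) + s) / ((Y + 1) * ((Y : ℝ) + 1 + 1)) ≤ 1 := by
            rw [div_le_one (by positivity)]
            nlinarith
          have h4 : ((Y : ℝ) + 1) ≤ n₀ := by exact_mod_cast h.le
          rw [min_eq_left (by linarith), min_eq_left h4]
          linarith
      push_cast at ih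
      linarith
  have h3 := key Y
  have h4 : (∑ i ∈ Icc 1 Y, a i) / ((Y : ℝ) + 1) ≤ 1 := by
    rw [div_le_one (by positivity)]
    linarith [h2 Y]
  have h5 : ((min Y n₀ : ℕ) : ℝ) ≤ n₀ := by exact_mod_cast min_le_right _ _
  linarith

theorem cnt_sum (P : ℕ → Prop) (X : ℕ) : ((cnt P X : ℕ) : ℝ) =
    ∑ i ∈ Icc 1 X, if P i then (1 : ℝ) else 0 := by
  unfold cnt cs
  rw [card_filter]
  push_cast
  rfl

theorem rec_sum (P : ℕ → Prop) (X : ℕ) : ∑ i ∈ cs P X, (1 : ℝ) / i =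
    ∑ i ∈ Icc 1 X, (if P i then (1 : ℝ) else 0) / i := by
  unfold cs
  rw [sum_filter]
  refine sum_congr rfl fun i _ => ?_
  split_ifs
  · rfl
  · rw [zero_div]

/-- the sum of the reciprocals of a thin subset -/
theorem rec_le {P Q : ℕ → Prop} {η : ℝ} (hη : 0 ≤ η) {n₀ : ℕ}
    (h : ∀ n, n₀ ≤ n → ((cnt P n : ℕ) : ℝ) ≤ η * cnt Q n) (Y : ℕ) :
    ∑ i ∈ cs P Y, (1 : ℝ) / i ≤ n₀ + 1 + η * ∑ i ∈ cs Q Y, (1 : ℝ) / i := by
  have h1 := abel (a := fun i => (if P i then (1 : ℝ) else 0) - η * if Q i then (1 : ℝ) else 0)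
    (n₀ := n₀) (fun n hn => by
      rw [sum_sub_distrib, ← mul_sum, ← cnt_sum, ← cnt_sum]
      linarith [h n hn]) (fun n => by
      rw [sum_sub_distrib, ← mul_sum, ← cnt_sum, ← cnt_sum]
      have h2 : cnt P n ≤ n := by
        refine (card_le_card (filter_subset _ _)).trans ?_
        rw [Nat.card_Icc]
        omega
      have h3 : ((cnt P n : ℕ) : ℝ) ≤ n := by exact_mod_cast h2
      have h4 : 0 ≤ η * (cnt Q n : ℝ) := mul_nonneg hη (Nat.cast_nonneg _)
      linarith) Y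
  have e : ∑ i ∈ Icc 1 Y, ((if P i then (1 : ℝ) else 0) - η * if Q i then (1 : ℝ) else 0) / (i : ℝ) =
      ∑ i ∈ cs P Y, (1 : ℝ) / i - η * ∑ i ∈ cs Q Y, (1 : ℝ) / i := by
    rw [rec_sum, rec_sum, mul_sum, ← sum_sub_distrib]
    exact sum_congr rfl fun i _ => by ring
  beta_reduce at h1
  rw [e] at h1
  linarith

/-- the part with all prime factors `≡ 1` modulo `3` -/
def sp (D : ℕ) : ℕ := ∏ p ∈ D.primeFactors.filter (fun p => p % 3 = 1), p

theorem sp_prime {D p : ℕ} (hp : p ∈ D.primeFactors.filter fun p => p % 3 = 1) :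
    p.Prime ∧ p % 3 = 1 := by
  rw [mem_filter] at hp
  exact ⟨Nat.prime_of_mem_primeFactors hp.1, hp.2⟩

theorem sp_pf (D : ℕ) : (sp D).primeFactors = D.primeFactors.filter fun p => p % 3 = 1 :=
  Nat.primeFactors_prod fun _ hp => (sp_prime hp).1

theorem sp_sqf (D : ℕ) : Squarefree (sp D) :=
  Finset.squarefree_prod_of_pairwise_isCoprime (fun x hx y hy hxy => by
    rw [Function.onFun, ← Nat.coprime_iff_isRelPrime]
    exact (Nat.coprime_primes (sp_prime hx).1 (sp_prime hy).1).2 hxy)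
    fun x hx => (sp_prime hx).1.squarefree

theorem sp_ac (D : ℕ) : Ac (fun p => p % 3 = 1) (sp D) := by
  refine ⟨sp_sqf D, fun p hp hd => ?_⟩
  have h : p ∈ (sp D).primeFactors := Nat.mem_primeFactors.2 ⟨hp, hd, (sp_sqf D).ne_zero⟩
  rw [sp_pf, mem_filter] at h
  exact h.2

theorem sp_dvd (D : ℕ) : sp D ∣ D :=
  (prod_dvd_prod_of_subset _ _ _ (filter_subset _ _)).trans (Nat.prod_primeFactors_dvd D)

theorem sp_congr {D D' : ℕ} (h : ∀ p : ℕ, p.Prime → p % 3 = 1 → (p ∣ D ↔ p ∣ D')) (hD : D ≠ 0)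
    (hD' : D' ≠ 0) : sp D = sp D' := by
  unfold sp
  congr 1
  ext p
  rw [mem_filter, mem_filter, Nat.mem_primeFactors, Nat.mem_primeFactors]
  constructor
  · rintro ⟨⟨h1, h2, -⟩, h3⟩
    exact ⟨⟨h1, (h p h1 h3).1 h2, hD'⟩, h3⟩
  · rintro ⟨⟨h1, h2, -⟩, h3⟩
    exact ⟨⟨h1, (h p h1 h3).2 h2, hD⟩, h3⟩

theorem pairs_le {E : ℕ → Prop} (Z : ℕ) :
    cnt (fun n => Squarefree n ∧ E (sp n)) Z ≤
      ∑ t ∈ cs (fun t => Ac (fun p => p % 3 = 1) t ∧ E t) (Nat.sqrt Z),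
        cnt (Ac fun p => p % 3 ≠ 1) (Z / t) +
      ∑ u ∈ cs (Ac fun p => p % 3 ≠ 1) (Nat.sqrt Z),
        cnt (fun t => Ac (fun p => p % 3 = 1) t ∧ E t) (Z / u) := by
  obtain ⟨A1, hA1⟩ : ∃ A1 : ℕ → Prop, A1 = fun t => Ac (fun p => p % 3 = 1) t ∧ E t := ⟨_, rfl⟩
  obtain ⟨A2, hA2⟩ : ∃ A2 : ℕ → Prop, A2 = Ac fun p => p % 3 ≠ 1 := ⟨_, rfl⟩
  rw [← hA1, ← hA2]
  have h1 : cnt (fun n => Squarefree n ∧ E (sp n)) Z ≤
      (((cs A1 (Nat.sqrt Z)).biUnion fun t => (cs A2 (Z / t)).image fun u => (t, u)) ∪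
      ((cs A2 (Nat.sqrt Z)).biUnion fun u => (cs A1 (Z / u)).image fun t => (t, u))).card := by
    refine card_le_card_of_injOn (fun n => (sp n, n / sp n)) ?_ ?_
    · intro n hn
      rw [mem_coe, mem_cs] at hn
      obtain ⟨⟨hn1, hnZ⟩, hsq, hE⟩ := hn
      have hn0 : n ≠ 0 := by omega
      have hd := sp_dvd n
      obtain ⟨u, hu⟩ := hd
      have hsp0 : 0 < sp n := Nat.pos_of_ne_zero (sp_sqf n).ne_zero
      have hdiv : n / sp n = u := Nat.div_eq_of_eq_mul_right hsp0 hu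
      have hu0 : 0 < u := by
        rcases Nat.eq_zero_or_pos u with h | h
        · rw [h, mul_zero] at hu
          exact absurd hu hn0
        · exact h
      have ht : A1 (sp n) := by
        rw [hA1]
        exact ⟨sp_ac n, hE⟩
      have hcop : Nat.Coprime (sp n) u := by
        rw [hu] at hsq
        exact Nat.coprime_of_squarefree_mul hsq
      have hu2 : A2 u := by
        rw [hA2]
        refine ⟨?_, fun p hp hpu hp1 => ?_⟩
        · rw [hu] at hsq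
          exact hsq.of_mul_right
        · have h2 : p ∈ (sp n).primeFactors := by
            rw [sp_pf, mem_filter, Nat.mem_primeFactors]
            exact ⟨⟨hp, hu ▸ (hpu.mul_left _), hn0⟩, hp1⟩
          have h3 := Nat.dvd_of_mem_primeFactors h2
          have h4 := Nat.dvd_gcd h3 hpu
          rw [hcop.gcd_eq_one] at h4
          exact hp.one_lt.ne' (Nat.dvd_one.1 h4)
      have hle : sp n * u ≤ Z := by rw [← hu]; exact hnZ
      rw [mem_coe, mem_union, mem_biUnion, mem_biUnion]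
      beta_reduce
      rw [hdiv]
      rcases le_or_gt (sp n) (Nat.sqrt Z) with h | h
      · left
        refine ⟨sp n, mem_cs.2 ⟨⟨hsp0, h⟩, ht⟩, mem_image.2 ⟨u, mem_cs.2 ⟨⟨hu0, ?_⟩, hu2⟩, rfl⟩⟩
        rw [Nat.le_div_iff_mul_le hsp0, mul_comm]
        exact hle
      · right
        refine ⟨u, mem_cs.2 ⟨⟨hu0, ?_⟩, hu2⟩, mem_image.2 ⟨sp n, mem_cs.2 ⟨⟨hsp0, ?_⟩, ht⟩, rfl⟩⟩
        · by_contra hc
          rw [not_le] at hc
          have h2 : Nat.sqrt Z + 1 ≤ sp n := h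
          have h3 : Nat.sqrt Z + 1 ≤ u := hc
          have h4 := Nat.mul_le_mul h2 h3
          have h5 := Nat.lt_succ_sqrt Z
          have h6 : (Nat.sqrt Z).succ * (Nat.sqrt Z).succ = (Nat.sqrt Z + 1) * (Nat.sqrt Z + 1) := rfl
          omega
        · rw [Nat.le_div_iff_mul_le hu0]
          exact hle
    · intro n hn n' hn' h
      rw [mem_coe, mem_cs] at hn hn'
      simp only [Prod.mk.injEq] at h
      have e1 := Nat.mul_div_cancel' (sp_dvd n)
      have e2 := Nat.mul_div_cancel' (sp_dvd n')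
      rw [← e1, ← e2, h.1, ← h.1, h.2, ← h.1]
  refine h1.trans ((card_union_le _ _).trans (Nat.add_le_add ?_ ?_))
  · exact card_biUnion_le.trans (sum_le_sum fun t _ => card_image_le)
  · exact card_biUnion_le.trans (sum_le_sum fun t _ => card_image_le)

end Q283.NJ
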