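import Pool.Agent.Q283.NJ.F2

/-! From the squarefree numbers with all prime factors `≡ 1` modulo `3` to all numbers, continued -/

set_option autoImplicit false

open scoped Classical
open Finset Filter

namespace Q283.NJ

open Q155.NL (Alm cnt cs mem_cs cnt_mono)

/-- the squarefree numbers -/
theorem sqf_ev {T : ℕ → Prop} (hT : Alm (Ac fun p => p % 3 = 1) T) (δ : ℝ) (hδ : 0 < δ) :
    ∀ᶠ Z : ℕ in atTop, ((cnt (fun n => Squarefree n ∧ ¬ T (sp n)) Z : ℕ) : ℝ) ≤ δ * Z := by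
  obtain ⟨C₁, h11, h1⟩ := r_le mr1
  obtain ⟨C₂, h21, h2⟩ := g_le mr2
  obtain ⟨C₃, h31, h3⟩ := g_le mr1
  obtain ⟨C₄, h41, h4⟩ := r_le mr2
  obtain ⟨η, hη⟩ : ∃ η : ℝ, η = δ / (2 * (C₁ * C₂ + C₃ * C₄)) := ⟨_, rfl⟩
  have hden : 0 < C₁ * C₂ + C₃ * C₄ := by nlinarith
  have hη0 : 0 < η := by rw [hη]; positivity
  have hηe : η * (C₁ * C₂ + C₃ * C₄) = δ / 2 := by
    rw [hη]
    field_simp
  obtain ⟨n₀, hn₀⟩ := eventually_atTop.1 (hT η hη0)
  have hsq : Tendsto Nat.sqrt atTop atTop := by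
    refine tendsto_atTop.2 fun b => ?_
    filter_upwards [eventually_ge_atTop (b ^ 2)] with n hn
    exact Nat.le_sqrt'.2 hn
  have hsl := (sl_tendsto.comp hsq).eventually_ge_atTop (2 * (C₂ * (n₀ + 1)) / δ)
  filter_upwards [hsl, hsq.eventually_ge_atTop (max 1 n₀)] with Z hZ1 hZ2
  simp only [Function.comp] at hZ1
  obtain ⟨Y, hY⟩ : ∃ Y, Y = Nat.sqrt Z := ⟨_, rfl⟩
  rw [← hY] at hZ1 hZ2
  have hY1 : 1 ≤ Y := (le_max_left _ _).trans hZ2
  have hYn : n₀ ≤ Y := (le_max_right _ _).trans hZ2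
  have hs := sl_ge Y
  have hs0 : 0 < sl Y := by linarith
  obtain ⟨E, hE⟩ : ∃ E : ℕ → Prop, E = fun t => Ac (fun p => p % 3 = 1) t ∧ ¬ T t := ⟨_, rfl⟩
  have hp := pairs_le (E := fun t => ¬ T t) Z
  rw [← hY, ← hE] at hp
  have hn₀' : ∀ n, n₀ ≤ n → ((cnt E n : ℕ) : ℝ) ≤ η * cnt (Ac fun p => p % 3 = 1) n := by
    rw [hE]
    exact hn₀
  -- the quotients
  have hq : ∀ t, 1 ≤ t → t ≤ Y → Y ≤ Z / t := by
    intro t ht1 ht
    rw [Nat.le_div_iff_mul_le (by omega)]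
    refine (Nat.mul_le_mul_left Y ht).trans ?_
    rw [hY]
    exact Nat.sqrt_le Z
  have hqr : ∀ t : ℕ, ((Z / t : ℕ) : ℝ) ≤ Z * (1 / t) := by
    intro t
    rw [mul_one_div]
    exact Nat.cast_div_le
  -- the first part
  have hA : ((∑ t ∈ cs E Y, cnt (Ac fun p => p % 3 ≠ 1) (Z / t) : ℕ) : ℝ) ≤
      Z * (C₂ * (n₀ + 1) / sl Y + η * (C₁ * C₂)) := by
    push_cast
    have hA1 : ∀ t ∈ cs E Y, ((cnt (Ac fun p => p % 3 ≠ 1) (Z / t) : ℕ) : ℝ) ≤
        C₂ / sl Y * Z * (1 / t) := by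
      intro t ht
      rw [mem_cs] at ht
      have h5 := hq t ht.1.1 ht.1.2
      have h6 := h2 (Z / t) (hY1.trans h5)
      have h7 := sl_mono h5 hY1
      refine h6.trans ?_
      have h8 : ((Z / t : ℕ) : ℝ) / sl (Z / t) ≤ (Z * (1 / t)) / sl Y :=
        div_le_div₀ (by positivity) (hqr t) hs0 h7
      calc C₂ * (((Z / t : ℕ) : ℝ) / sl (Z / t)) ≤ C₂ * ((Z * (1 / t)) / sl Y) :=
            mul_le_mul_of_nonneg_left h8 (by linarith)
        _ = _ := by ring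
    refine (sum_le_sum hA1).trans ?_
    rw [← mul_sum]
    have h5 := rec_le hη0.le hn₀' Y
    have h6 := h1 Y hY1
    have h7 : ∑ i ∈ cs E Y, (1 : ℝ) / i ≤ n₀ + 1 + η * (C₁ * sl Y) :=
      h5.trans (by linarith [mul_le_mul_of_nonneg_left h6 hη0.le])
    calc C₂ / sl Y * Z * ∑ i ∈ cs E Y, (1 : ℝ) / i ≤ C₂ / sl Y * Z * (n₀ + 1 + η * (C₁ * sl Y)) :=
          mul_le_mul_of_nonneg_left h7 (by positivity)
      _ = Z * (C₂ * (n₀ + 1) / sl Y + η * (C₁ * C₂)) := by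
          field_simp
  have hB : ((∑ u ∈ cs (Ac fun p => p % 3 ≠ 1) Y, cnt E (Z / u) : ℕ) : ℝ) ≤
      Z * (η * (C₃ * C₄)) := by
    push_cast
    have hB1 : ∀ u ∈ cs (Ac fun p => p % 3 ≠ 1) Y, ((cnt E (Z / u) : ℕ) : ℝ) ≤
        η * C₃ / sl Y * Z * (1 / u) := by
      intro u hu
      rw [mem_cs] at hu
      have h5 := hq u hu.1.1 hu.1.2
      have h6 := hn₀' (Z / u) (hYn.trans h5)
      have h7 := h3 (Z / u) (hY1.trans h5)
      have h8 := sl_mono h5 hY1
      have h9 : ((Z / u : ℕ) : ℝ) / sl (Z / u) ≤ (Z * (1 / u)) / sl Y :=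
        div_le_div₀ (by positivity) (hqr u) hs0 h8
      calc ((cnt E (Z / u) : ℕ) : ℝ) ≤ η * (C₃ * (((Z / u : ℕ) : ℝ) / sl (Z / u))) :=
            h6.trans (mul_le_mul_of_nonneg_left h7 hη0.le)
        _ ≤ η * (C₃ * ((Z * (1 / u)) / sl Y)) :=
            mul_le_mul_of_nonneg_left (mul_le_mul_of_nonneg_left h9 (by linarith)) hη0.le
        _ = _ := by ring
    refine (sum_le_sum hB1).trans ?_
    rw [← mul_sum]
    have h6 := h4 Y hY1
    calc η * C₃ / sl Y * Z * ∑ i ∈ cs (Ac fun p => p % 3 ≠ 1) Y, (1 : ℝ) / i ≤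
          η * C₃ / sl Y * Z * (C₄ * sl Y) := mul_le_mul_of_nonneg_left h6 (by positivity)
      _ = Z * (η * (C₃ * C₄)) := by
          field_simp
  have h5 : C₂ * ((n₀ : ℝ) + 1) / sl Y ≤ δ / 2 := by
    rw [div_le_iff₀ hs0]
    rw [div_le_iff₀ hδ] at hZ1
    linarith
  have h6 : ((cnt (fun n => Squarefree n ∧ ¬ T (sp n)) Z : ℕ) : ℝ) ≤
      ((∑ t ∈ cs E Y, cnt (Ac fun p => p % 3 ≠ 1) (Z / t) : ℕ) : ℝ) +
      ((∑ u ∈ cs (Ac fun p => p % 3 ≠ 1) Y, cnt E (Z / u) : ℕ) : ℝ) := by exact_mod_cast hp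
  have hZ0 : (0 : ℝ) ≤ Z := Nat.cast_nonneg _
  have h7 : (Z : ℝ) * (C₂ * (n₀ + 1) / sl Y + η * (C₁ * C₂)) + Z * (η * (C₃ * C₄)) ≤ δ * Z := by
    have h8 : C₂ * ((n₀ : ℝ) + 1) / sl Y + η * (C₁ * C₂) + η * (C₃ * C₄) ≤ δ := by
      have : η * (C₁ * C₂) + η * (C₃ * C₄) = δ / 2 := by rw [← hηe]; ring
      linarith
    nlinarith
  linarith

/-- the multiples of large squares -/
theorem sq_few (K X : ℕ) (hK : 1 ≤ K) :
    ((((Icc 1 X).filter fun D => ∃ b, K < b ∧ b ^ 2 ∣ D).card : ℕ) : ℝ) ≤ X * (1 / K) := by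
  have h1 : (Icc 1 X).filter (fun D => ∃ b, K < b ∧ b ^ 2 ∣ D) ⊆
      (Icc (K + 1) X).biUnion fun b => (Icc 1 X).filter fun D => b ^ 2 ∣ D := by
    intro D hD
    rw [mem_filter, mem_Icc] at hD
    obtain ⟨⟨h1, h2⟩, b, hb, hbD⟩ := hD
    rw [mem_biUnion]
    refine ⟨b, ?_, mem_filter.2 ⟨mem_Icc.2 ⟨h1, h2⟩, hbD⟩⟩
    rw [mem_Icc]
    refine ⟨hb, ?_⟩
    have h3 := Nat.le_of_dvd (by omega) hbD
    have h4 : b ≤ b ^ 2 := Nat.le_self_pow (by norm_num) b
    omega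
  have h2 : ∀ b ∈ Icc (K + 1) X, ((((Icc 1 X).filter fun D => b ^ 2 ∣ D).card : ℕ) : ℝ) ≤
      X * (1 / (b : ℝ) ^ 2) := by
    intro b _
    have h3 : ((Icc 1 X).filter fun D => b ^ 2 ∣ D).card = X / b ^ 2 := by
      have := Nat.card_multiples X (b ^ 2)
      rw [← this]
      refine card_bij (fun D _ => D - 1) ?_ ?_ ?_
      · intro D hD
        rw [mem_filter, mem_Icc] at hD
        rw [mem_filter, mem_range]
        refine ⟨by omega, ?_⟩
        rw [Nat.sub_add_cancel hD.1.1]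
        exact hD.2
      · intro D hD D' hD' h
        rw [mem_filter, mem_Icc] at hD hD'
        omega
      · intro e he
        rw [mem_filter, mem_range] at he
        exact ⟨e + 1, mem_filter.2 ⟨mem_Icc.2 ⟨by omega, by omega⟩, he.2⟩, by omega⟩
    rw [h3, mul_one_div]
    have h4 : ((X / b ^ 2 : ℕ) : ℝ) ≤ (X : ℝ) / ((b ^ 2 : ℕ) : ℝ) := Nat.cast_div_le
    push_cast at h4
    exact h4
  have h3 := (card_le_card h1).trans card_biUnion_le
  have h4 : ((((Icc 1 X).filter fun D => ∃ b, K < b ∧ b ^ 2 ∣ D).card : ℕ) : ℝ) ≤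
      ∑ b ∈ Icc (K + 1) X, ((((Icc 1 X).filter fun D => b ^ 2 ∣ D).card : ℕ) : ℝ) := by
    exact_mod_cast h3
  refine h4.trans ((sum_le_sum h2).trans ?_)
  rw [← mul_sum]
  refine mul_le_mul_of_nonneg_left ?_ (Nat.cast_nonneg _)
  have h5 : ∀ N : ℕ, K ≤ N → ∑ b ∈ Icc (K + 1) N, 1 / (b : ℝ) ^ 2 ≤ (1 : ℝ) / K - 1 / N := by
    intro N hN
    induction N, hN using Nat.le_induction with
    | base =>
      rw [Icc_eq_empty (by omega), sum_empty, sub_self]
    | succ N hN ih =>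
      rw [← insert_Icc_right_eq_Icc_add_one (by omega), sum_insert (by simp)]
      have hN0 : (0 : ℝ) < N := by exact_mod_cast (by omega : 0 < N)
      push_cast
      have h6 : 1 / ((N : ℝ) + 1) ^ 2 ≤ 1 / N - 1 / (N + 1) := by
        rw [div_sub_div _ _ hN0.ne' (by positivity), div_le_div_iff₀ (by positivity) (by positivity)]
        nlinarith
      linarith
  rcases le_or_gt K X with h | h
  · have h6 := h5 X h
    have h7 : (0 : ℝ) ≤ 1 / X := by positivity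
    linarith
  · rw [Icc_eq_empty (by omega), sum_empty]
    positivity

/-- **Almost all numbers, from almost all split numbers.** -/
theorem alm_sp {T : ℕ → Prop} (hT : Alm (Ac fun p => p % 3 = 1) T) :
    Alm (fun _ => True) fun D => T (sp D) := by
  intro δ hδ
  obtain ⟨K, hK⟩ := exists_nat_gt (2 / δ)
  have hK0 : (0 : ℝ) < K := lt_trans (by positivity) hK
  have hK1 : 1 ≤ K := by exact_mod_cast hK0
  have hKδ : 1 / (K : ℝ) ≤ δ / 2 := by
    rw [div_le_iff₀ hK0]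
    rw [div_lt_iff₀ hδ] at hK
    linarith
  obtain ⟨δ', hδ'⟩ : ∃ δ' : ℝ, δ' = δ / 2 / K ^ 3 := ⟨_, rfl⟩
  have hδ'0 : 0 < δ' := by rw [hδ']; positivity
  have hKt : Tendsto (fun X : ℕ => K * X) atTop atTop := tendsto_id.const_mul_atTop' (by omega)
  filter_upwards [hKt.eventually (sqf_ev hT δ' hδ'0)] with X hX
  have hcT : cnt (fun _ => True) X = X := by
    have h0 : cs (fun _ => True) X = Icc 1 X := by
      ext D
      rw [mem_cs, mem_Icc]
      exact ⟨fun h => h.1, fun h => ⟨h, trivial⟩⟩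
    unfold cnt
    rw [h0, Nat.card_Icc]
    omega
  rw [hcT]
  have h1 : cnt (fun D => True ∧ ¬ T (sp D)) X ≤
      ((Icc 1 X).filter fun D => ∃ b, K < b ∧ b ^ 2 ∣ D).card +
      ((Icc 1 K ×ˢ Icc 1 K) ×ˢ (cs (fun n => Squarefree n ∧ ¬ T (sp n)) (K * X))).card := by
    have h2 : cs (fun D => True ∧ ¬ T (sp D)) X ⊆
        ((Icc 1 X).filter fun D => ∃ b, K < b ∧ b ^ 2 ∣ D) ∪
        ((cs (fun D => True ∧ ¬ T (sp D)) X).filter fun D => ¬ ∃ b, K < b ∧ b ^ 2 ∣ D) := by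
      intro D hD
      rw [mem_union, mem_filter, mem_filter]
      by_cases h : ∃ b, K < b ∧ b ^ 2 ∣ D
      · left
        rw [mem_cs] at hD
        exact ⟨mem_Icc.2 hD.1, h⟩
      · right
        exact ⟨hD, h⟩
    refine (card_le_card h2).trans ((card_union_le _ _).trans (Nat.add_le_add_left ?_ _))
    have h3 : ∀ D : ℕ, ∃ a b : ℕ, 0 < D → 0 < a ∧ 0 < b ∧ b ^ 2 * a = D ∧ Squarefree a := by
      intro D
      rcases Nat.eq_zero_or_pos D with h | h
      · exact ⟨0, 0, fun h' => absurd h' (by omega)⟩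
      · obtain ⟨a, b, h1, h2, h3, h4⟩ := Nat.sq_mul_squarefree_of_pos h
        exact ⟨a, b, fun _ => ⟨h1, h2, h3, h4⟩⟩
    choose a b hab using h3
    obtain ⟨g, hg⟩ : ∃ g : ℕ → ℕ, g = fun D =>
      ∏ p ∈ (b D).primeFactors.filter (fun p => p % 3 = 1) \ (a D).primeFactors, p := ⟨_, rfl⟩
    have hgp : ∀ D, ∀ p ∈ (b D).primeFactors.filter (fun p => p % 3 = 1) \ (a D).primeFactors,
        p.Prime ∧ p % 3 = 1 ∧ p ∣ b D ∧ p ∉ (a D).primeFactors := by
      intro D p hp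
      rw [Finset.mem_sdiff, mem_filter] at hp
      exact ⟨Nat.prime_of_mem_primeFactors hp.1.1, hp.1.2, Nat.dvd_of_mem_primeFactors hp.1.1, hp.2⟩
    have hg0 : ∀ D, 0 < g D := by
      intro D
      rw [hg]
      exact prod_pos fun p hp => (hgp D p hp).1.pos
    have hgsq : ∀ D, Squarefree (g D) := by
      intro D
      rw [hg]
      exact Finset.squarefree_prod_of_pairwise_isCoprime (fun x hx y hy hxy => by
        rw [Function.onFun, ← Nat.coprime_iff_isRelPrime]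
        exact (Nat.coprime_primes (hgp D x hx).1 (hgp D y hy).1).2 hxy)
        fun x hx => (hgp D x hx).1.squarefree
    have hgd : ∀ D (p : ℕ), p.Prime → (p ∣ g D ↔
        p ∈ (b D).primeFactors.filter (fun p => p % 3 = 1) \ (a D).primeFactors) := by
      intro D p hp
      have h4 : (g D).primeFactors =
          (b D).primeFactors.filter (fun p => p % 3 = 1) \ (a D).primeFactors := by
        rw [hg]
        exact Nat.primeFactors_prod fun p hp => (hgp D p hp).1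
      rw [← h4, Nat.mem_primeFactors]
      exact ⟨fun h => ⟨hp, h, (hg0 D).ne'⟩, fun h => h.2.1⟩
    refine card_le_card_of_injOn (fun D => ((b D, g D), a D * g D)) ?_ ?_
    · intro D hD
      rw [mem_coe, mem_filter, mem_cs] at hD
      obtain ⟨⟨⟨hD1, hDX⟩, -, hTD⟩, hb⟩ := hD
      obtain ⟨ha0, hb0, hD2, hsq⟩ := hab D (by omega)
      have hbK : b D ≤ K := by
        by_contra hc
        exact hb ⟨b D, not_le.1 hc, ⟨a D, hD2.symm⟩⟩
      have hgb : g D ∣ b D := by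
        rw [hg]
        refine (prod_dvd_prod_of_subset _ _ _ ?_).trans (Nat.prod_primeFactors_dvd (b D))
        exact sdiff_subset.trans (filter_subset _ _)
      have hgK : g D ≤ K := (Nat.le_of_dvd hb0 hgb).trans hbK
      have haD : a D ≤ D := by
        conv_rhs => rw [← hD2]
        exact Nat.le_mul_of_pos_left _ (by positivity)
      have hcop : Nat.Coprime (a D) (g D) := by
        rw [Nat.coprime_iff_isRelPrime.trans Iff.rfl, ← Nat.coprime_iff_isRelPrime]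
        refine Nat.Coprime.symm ?_
        rw [hg]
        refine Nat.Coprime.prod_left fun p hp => ?_
        obtain ⟨h5, -, -, h6⟩ := hgp D p hp
        rw [Nat.Prime.coprime_iff_not_dvd h5]
        intro h7
        exact h6 (Nat.mem_primeFactors.2 ⟨h5, h7, ha0.ne'⟩)
      have hsq2 : Squarefree (a D * g D) := (Nat.squarefree_mul hcop).2 ⟨hsq, hgsq D⟩
      have hsp : sp (a D * g D) = sp D := by
        refine sp_congr (fun p hp hp1 => ?_) (mul_pos ha0 (hg0 D)).ne' (by omega)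
        rw [hp.dvd_mul, hgd D p hp, Finset.mem_sdiff, mem_filter]
        constructor
        · rintro (h | ⟨⟨h, -⟩, -⟩)
          · rw [← hD2]
            exact h.mul_left _
          · rw [← hD2]
            exact ((Nat.dvd_of_mem_primeFactors h).trans (dvd_pow_self _ (by norm_num))).mul_right _
        · intro h
          by_cases h5 : p ∣ a D
          · exact Or.inl h5
          · right
            rw [← hD2] at h
            have h6 := hp.dvd_of_dvd_pow ((hp.dvd_mul.1 h).resolve_right h5)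
            exact ⟨⟨Nat.mem_primeFactors.2 ⟨hp, h6, hb0.ne'⟩, hp1⟩,
              fun h7 => h5 (Nat.dvd_of_mem_primeFactors h7)⟩
      rw [mem_coe, mem_product, mem_product, mem_Icc, mem_Icc, mem_cs]
      refine ⟨⟨⟨hb0, hbK⟩, hg0 D, hgK⟩, ⟨mul_pos ha0 (hg0 D), ?_⟩, hsq2, ?_⟩
      · calc a D * g D ≤ X * K := Nat.mul_le_mul (haD.trans hDX) hgK
          _ = K * X := mul_comm _ _
      · rw [hsp]
        exact hTD
    · intro D hD D' hD' h
      rw [mem_coe, mem_filter, mem_cs] at hD hD'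
      simp only [Prod.mk.injEq] at h
      obtain ⟨⟨h5, h6⟩, h7⟩ := h
      obtain ⟨-, -, hD2, -⟩ := hab D (by omega)
      obtain ⟨-, -, hD2', -⟩ := hab D' (by omega)
      rw [h6] at h7
      have h8 := Nat.eq_of_mul_eq_mul_right (hg0 D') h7
      rw [← hD2, ← hD2', h5, h8]
  have h2 : ((cnt (fun D => True ∧ ¬ T (sp D)) X : ℕ) : ℝ) ≤
      ((((Icc 1 X).filter fun D => ∃ b, K < b ∧ b ^ 2 ∣ D).card : ℕ) : ℝ) +
      (K : ℝ) * K * ((cnt (fun n => Squarefree n ∧ ¬ T (sp n)) (K * X) : ℕ) : ℝ) := by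
    rw [card_product, card_product, Nat.card_Icc, Nat.add_sub_cancel] at h1
    exact_mod_cast h1
  have h3 := sq_few K X hK1
  have h4 : (K : ℝ) * K * ((cnt (fun n => Squarefree n ∧ ¬ T (sp n)) (K * X) : ℕ) : ℝ) ≤
      δ / 2 * X := by
    calc (K : ℝ) * K * ((cnt (fun n => Squarefree n ∧ ¬ T (sp n)) (K * X) : ℕ) : ℝ) ≤
          (K : ℝ) * K * (δ' * ((K * X : ℕ) : ℝ)) := mul_le_mul_of_nonneg_left hX (by positivity)
      _ = δ / 2 * X := by
          rw [hδ']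
          push_cast
          field_simp
  have h5 : (X : ℝ) * (1 / K) ≤ X * (δ / 2) := mul_le_mul_of_nonneg_left hKδ (Nat.cast_nonneg _)
  linarith

end Q283.NJ
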