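import Pool.Agent.Q283.NJ.E1
import Pool.Agent.Q283.NJ.F3
import Pool.Agent.Q283.ND.Sh

/-! The joint law for almost all numbers -/

set_option autoImplicit false
set_option linter.unusedSectionVars false

open scoped Classical
open Finset Filter

namespace Q283.NJ

open Q283.Q3 (cq cq_ge cq_le sum_cq)
open Q283.Q3B (rr)
open Pool.Agent.Y703.CT (Cls Base)
open Q155.NL (Alm cnt cs mem_cs alm_finset alm_mono alm_true alm_and exists_dense)
open Q283.ND (Dc xe ck Ax cf Dk Dk_eq dv dv_inj ck_rr Lw lw_of_good good_div TD alm_TD Good)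

/-- the joint law at a number -/
def PJ (M : ℕ) (N : Fin M → ℕ) (ε : ℝ) (t : ℕ) : Prop :=
  ∀ k : ℕ, (∀ j, N j * k % 9 ≠ 1) → (∀ j, N j * k % 9 ≠ 8) →
    LwJ ε (Dk k t) fun d j => rr (cf (N j * d))

/-- the law at a number -/
def PL (N : ℕ) (ε : ℝ) (t : ℕ) : Prop :=
  ∀ k : ℕ, N * k % 9 ≠ 1 → N * k % 9 ≠ 8 → Lw ε (Dk k t) fun d => rr (cf (N * d))

theorem Dk_large {k t : ℕ} (hk : ¬ k < 9) : Dk k t = ∅ := by
  unfold Dk
  rw [filter_eq_empty_iff]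
  intro d _ hd
  have := Nat.mod_lt d (show 0 < 9 by norm_num)
  omega

theorem alm_PJ {M : ℕ} {N : Fin M → ℕ} (hC : ∀ j, Cls (N j)) (hN : Function.Injective N) {ε : ℝ}
    (hε : 0 < ε) : Alm Dc (PJ M N ε) := by
  obtain ⟨B, n, hg⟩ := lwJ_of_good M ε hε
  refine alm_mono (alm_finset (range 9) fun k hk =>
    alm_TDJ (mem_range.1 hk) hC hN B (1 / ((n : ℝ) + 1)) (by positivity)) fun t ht h k h1 h8 => ?_
  refine hg _ _ _ ?_
  by_cases hk : k < 9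
  · exact good_divJ hC ht h1 h8 (h k (mem_range.2 hk))
  · rw [Dk_large hk]
    intro b _
    simp

theorem alm_PL {N : ℕ} (hC : Cls N) {ε : ℝ} (hε : 0 < ε) : Alm Dc (PL N ε) := by
  obtain ⟨B, n, hg⟩ := lw_of_good ε hε
  refine alm_mono (alm_finset (range 9) fun k hk =>
    alm_TD (mem_range.1 hk) hC B (1 / ((n : ℝ) + 1)) (by positivity)) fun t ht h k h1 h8 => ?_
  refine hg _ _ _ ?_
  by_cases hk : k < 9
  · exact good_div hC ht h1 h8 (h k (mem_range.2 hk))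
  · rw [Dk_large hk]
    refine ⟨fun b _ => ?_, ?_⟩ <;> simp

theorem LwJ.mono {M : ℕ} {E : Type} {ε ε' : ℝ} {A : Finset E} {g : E → Fin M → ℕ}
    (h : LwJ ε A g) (hε : ε ≤ ε') : LwJ ε' A g := fun T =>
  (h T).trans (mul_le_mul_of_nonneg_right hε (Nat.cast_nonneg _))

theorem Lw_mono {E : Type} {ε ε' : ℝ} {A : Finset E} {g : E → ℕ}
    (h : Lw ε A g) (hε : ε ≤ ε') : Lw ε' A g := by
  have h0 : ε * (A.card : ℝ) ≤ ε' * A.card := mul_le_mul_of_nonneg_right hε (Nat.cast_nonneg _)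
  exact ⟨fun T => (h.law T).trans h0, h.mom.trans h0, h.mean.trans h0⟩

/-- **Almost all numbers.** -/
theorem mainA : ∃ S : ℕ → Prop, Alm (fun _ => True) S ∧
    (∀ (M : ℕ) (N : Fin M → ℕ), (∀ j, Cls (N j)) → Function.Injective N → ∀ ε : ℝ, 0 < ε →
      ∀ᶠ D in atTop, S D → PJ M N ε (sp D)) ∧
    (∀ N : ℕ, Cls N → ∀ ε : ℝ, 0 < ε → ∀ᶠ D in atTop, S D → PL N ε (sp D)) := by
  obtain ⟨φ, hφ⟩ := exists_surjective_nat ((Σ M : ℕ, (Fin M → ℕ)) × ℕ × ℕ)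
  obtain ⟨S, hS, h⟩ := exists_dense (C := fun _ => True) (T := fun j D =>
    ((∀ i, Cls ((φ j).1.2 i)) → Function.Injective (φ j).1.2 →
      PJ (φ j).1.1 (φ j).1.2 (1 / (((φ j).2.2 : ℝ) + 1)) (sp D)) ∧
    (Cls (φ j).2.1 → PL (φ j).2.1 (1 / (((φ j).2.2 : ℝ) + 1)) (sp D))) fun j => by
    refine alm_and ?_ ?_
    · by_cases hC : (∀ i, Cls ((φ j).1.2 i)) ∧ Function.Injective (φ j).1.2
      · exact alm_mono (alm_sp (alm_PJ hC.1 hC.2 (by positivity))) fun D _ hD _ _ => hD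
      · exact alm_mono (alm_true _) fun D _ _ h1 h2 => absurd ⟨h1, h2⟩ hC
    · by_cases hC : Cls (φ j).2.1
      · exact alm_mono (alm_sp (alm_PL hC (by positivity))) fun D _ hD _ => hD
      · exact alm_mono (alm_true _) fun D _ _ h1 => absurd h1 hC
  refine ⟨S, hS, fun M N hC hN ε hε => ?_, fun N hC ε hε => ?_⟩
  · obtain ⟨n, hn⟩ := exists_nat_one_div_lt hε
    obtain ⟨j, hj⟩ := hφ ⟨⟨M, N⟩, 0, n⟩
    filter_upwards [h j] with D hD hSD k h1 h8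
    rw [hj] at hD
    exact ((hD hSD).1 hC hN k h1 h8).mono hn.le
  · obtain ⟨n, hn⟩ := exists_nat_one_div_lt hε
    obtain ⟨j, hj⟩ := hφ ⟨⟨0, Fin.elim0⟩, N, n⟩
    filter_upwards [h j] with D hD hSD k h1 h8
    rw [hj] at hD
    exact Lw_mono ((hD hSD).2 hC k h1 h8) hn.le

theorem sp_split {D : ℕ} (h : Dc D) : sp D = D := by
  unfold sp
  rw [filter_true_of_mem fun p hp => h.2 p (Nat.prime_of_mem_primeFactors hp)
    (Nat.dvd_of_mem_primeFactors hp), Nat.prod_primeFactors_of_squarefree h.1]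

/-- the split numbers have density zero -/
theorem alm_nsplit : Alm (fun _ => True) fun D => ¬ Dc D := by
  intro ε hε
  obtain ⟨C, hC, h⟩ := g_le mr1
  have h2 := sl_tendsto.eventually_ge_atTop (C / ε)
  filter_upwards [h2, eventually_ge_atTop 1] with X hX hX1
  have h0 : cnt (fun _ => True) X = X := by
    have h0 : cs (fun _ => True) X = Icc 1 X := by
      ext D
      rw [mem_cs, mem_Icc]
      exact ⟨fun h => h.1, fun h => ⟨h, trivial⟩⟩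
    unfold cnt
    rw [h0, Nat.card_Icc]
    omega
  rw [h0]
  have h1 : cnt (fun D => True ∧ ¬ ¬ Dc D) X ≤ cnt (Ac fun p => p % 3 = 1) X :=
    Q155.NL.cnt_mono (fun D hD => not_not.1 hD.2) X
  have h3 := h X hX1
  have hs := sl_ge X
  have hs0 : 0 < sl X := by linarith
  have h4 : C * (X / sl X) ≤ ε * X := by
    rw [div_le_iff₀ hε] at hX
    rw [mul_div_assoc', div_le_iff₀ hs0]
    have hX0 : (0 : ℝ) ≤ X := Nat.cast_nonneg _
    nlinarith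
  have h5 : ((cnt (fun D => True ∧ ¬ ¬ Dc D) X : ℕ) : ℝ) ≤
      ((cnt (Ac fun p => p % 3 = 1) X : ℕ) : ℝ) := by exact_mod_cast h1
  linarith

/-- **Almost all numbers and almost all split numbers.** -/
theorem mainB : ∃ S : ℕ → Prop, Alm (fun _ => True) S ∧ Alm Dc S ∧
    (∀ (M : ℕ) (N : Fin M → ℕ), (∀ j, Cls (N j)) → Function.Injective N → ∀ ε : ℝ, 0 < ε →
      ∀ᶠ D in atTop, S D → PJ M N ε (sp D)) ∧
    (∀ N : ℕ, Cls N → ∀ ε : ℝ, 0 < ε → ∀ᶠ D in atTop, S D → PL N ε (sp D)) := by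
  obtain ⟨S₁, hS₁, hJ₁, hL₁⟩ := mainA
  obtain ⟨S₂, hS₂, hJ₂⟩ := mainJ
  obtain ⟨S₃, hS₃, hL₃⟩ := Q283.ND.main
  refine ⟨fun D => (Dc D ∧ S₂ D ∧ S₃ D) ∨ (¬ Dc D ∧ S₁ D), ?_, ?_, fun M N hC hN ε hε => ?_,
    fun N hC ε hε => ?_⟩
  · exact alm_mono (alm_and hS₁ alm_nsplit) fun D _ h => Or.inr ⟨h.2, h.1⟩
  · exact alm_mono (alm_and hS₂ hS₃) fun D hD h => Or.inl ⟨hD, h.1, h.2⟩
  · filter_upwards [hJ₁ M N hC hN ε hε, hJ₂ M N hC hN ε hε] with D h1 h2 h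
    rcases h with ⟨hD, h3, -⟩ | ⟨-, h3⟩
    · rw [sp_split hD]
      exact h2 hD h3
    · exact h1 h3
  · filter_upwards [hL₁ N hC ε hε, hL₃ N hC ε hε] with D h1 h2 h
    rcases h with ⟨hD, -, h3⟩ | ⟨-, h3⟩
    · rw [sp_split hD]
      exact h2 hD h3
    · exact h1 h3

end Q283.NJ
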